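import Pool.Agent.Work.MP_b44cb1_al.Full.R2.ADefs

/-!
# R2/ADual (M, linear algebra) : functionals on an isotropic subspace are given by the form

`W` finite additive group with `p W = 0`, `f` nondegenerate on the left; `Ψ : X → W` injective. Every
additive `m : X → ZMod p` has the form `x ↦ f v (Ψ x)`.
Proof. `W` and `X` are finite `ZMod p`-modules (`AddCommGroup.zmodModule`; `p X = 0` by injectivity).
The map `W → (W →+ ZMod p)`, `v ↦ f v`, is injective (nondegeneracy), and `|W →+ ZMod p| = |W|`
(dual space of a finite dimensional vector space: `AddMonoidHom.toZModLinearMap`, `Subspace.dual_finrank_eq`),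
so it is surjective. `m` extends from `Ψ X ≅ X` to `W` (`LinearMap.exists_extend`).
`dual_card` : `|J →+ ZMod p| = |J|` for a finite `J` with `p J = 0`.
-/

set_option autoImplicit false
set_option linter.style.haveILetI false

namespace Pool.Agent.Work.MP_b44cb1_al.R2

private theorem dual_card_aux {J : Type} [AddCommGroup J] [Finite J] (p : ℕ) [Fact p.Prime]
    [Module (ZMod p) J] : Nat.card (J →+ ZMod p) = Nat.card J := by
  have h1 : Nat.card (J →+ ZMod p) = Nat.card (Module.Dual (ZMod p) J) := by
    refine Nat.card_congr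
      { toFun := fun g => AddMonoidHom.toZModLinearMap p g
        invFun := fun g => g.toAddMonoidHom
        left_inv := fun g => by ext x; rfl
        right_inv := fun g => by ext x; rfl }
  haveI : Module.Finite (ZMod p) J := Module.Finite.of_finite
  rw [h1, Module.natCard_eq_pow_finrank (K := ZMod p) (V := Module.Dual (ZMod p) J),
    Module.natCard_eq_pow_finrank (K := ZMod p) (V := J), Subspace.dual_finrank_eq]

private theorem leftinv_aux {W X : Type} [AddCommGroup W] [AddCommGroup X] (p : ℕ)
    [Fact p.Prime] [Module (ZMod p) W] [Module (ZMod p) X] (Ψ : X →+ W)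
    (hinj : Function.Injective Ψ) : ∃ g : W →+ X, ∀ x, g (Ψ x) = x := by
  have hinj' : Function.Injective (AddMonoidHom.toZModLinearMap p Ψ) := hinj
  obtain ⟨g, hg⟩ := LinearMap.exists_leftInverse_of_injective (AddMonoidHom.toZModLinearMap p Ψ)
    (LinearMap.ker_eq_bot.2 hinj')
  exact ⟨g.toAddMonoidHom, fun x => congrArg (fun L : X →ₗ[ZMod p] X => L x) hg⟩

private theorem nat_smul {p : ℕ} {W : Type} [AddCommGroup W] (hW : ∀ w : W, (p : ℤ) • w = 0)
    (w : W) : p • w = 0 := by
  have := hW w
  rwa [natCast_zsmul] at this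

theorem dual_card {J : Type} [AddCommGroup J] [Finite J] (p : ℕ) (hp : p.Prime)
    (hJ : ∀ x : J, (p : ℤ) • x = 0) : Nat.card (J →+ ZMod p) = Nat.card J := by
  haveI : Fact p.Prime := ⟨hp⟩
  letI : Module (ZMod p) J := AddCommGroup.zmodModule (nat_smul hJ)
  exact dual_card_aux p

theorem dual_fam {W X : Type} [AddCommGroup W] [Finite W] [AddCommGroup X] (p : ℕ)
    (hp : p.Prime) (hW : ∀ w : W, (p : ℤ) • w = 0) (f : W →+ W →+ ZMod p)
    (hnd : ∀ w, (∀ w', f w w' = 0) → w = 0) (Ψ : X →+ W) (hinj : Function.Injective Ψ)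
    (m : X →+ ZMod p) : ∃ v : W, ∀ x, f v (Ψ x) = m x := by
  haveI : Fact p.Prime := ⟨hp⟩
  letI : Module (ZMod p) W := AddCommGroup.zmodModule (nat_smul hW)
  letI : Module (ZMod p) X := AddCommGroup.zmodModule (fun x => hinj (by
    rw [map_nsmul, map_zero]
    exact nat_smul hW _))
  obtain ⟨g, hg⟩ := leftinv_aux p Ψ hinj
  haveI : NeZero p := ⟨hp.ne_zero⟩
  haveI : Finite (W →+ ZMod p) := DFunLike.finite _
  have hfi : Function.Injective (fun v : W => (f v : W →+ ZMod p)) := by
    intro a b hab
    have h1 : a - b = 0 := by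
      apply hnd
      intro w'
      have h2 : f a w' = f b w' := congrArg (fun L : W →+ ZMod p => L w') hab
      rw [map_sub, AddMonoidHom.sub_apply, h2, sub_self]
    exact sub_eq_zero.1 h1
  have hbij : Function.Bijective (fun v : W => (f v : W →+ ZMod p)) :=
    (Nat.bijective_iff_injective_and_card _).2 ⟨hfi, (dual_card p hp hW).symm⟩
  obtain ⟨v, hv⟩ := hbij.2 (m.comp g)
  refine ⟨v, fun x => ?_⟩
  have h3 : f v (Ψ x) = (m.comp g) (Ψ x) := congrArg (fun L : W →+ ZMod p => L (Ψ x)) hv
  rw [h3, AddMonoidHom.comp_apply, hg]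

end Pool.Agent.Work.MP_b44cb1_al.R2
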