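import Pool.Agent.Work.MP_b44cb1_al.Full.R2.ADefs

/-!
# R2/ALift (M) : equivariant lifting of an isotropic subspace to `E`

`X` finite, `Ψ : X → W` injective, equivariant, isotropic. There is `θ : X → E` with `π (θ x) = Ψ x`,
`x ↦ αE (θ x)` additive to multiplicative and equivariant.

Let `ζ = αE z`. (`p x = 0` in `X` : `π` is multiplicative and `αE (e^p) = 1`... more precisely
`p • W = 0` : for `e : E`, `π (e^p) = p • π e`; `αE (e^p) = 1`, and an element `e'` with `αE e' = 1` has
`π e' = 0` : by `comm`, `ζ^(f (π e') (π e'')) = 1` for all `e''`, and `ζ` has order exactly `p` (if `ζ = 1`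
then `W' = 0` by `zfpf`; then all operators are trivial, everything about `αE` is trivial, choose `θ` any
section: but then `p • Ψ x = 0` is not needed), so `f (π e') = 0` and `π e' = 0` by `nondeg`.)
If `W' = 0` (`Subsingleton W'`) all elements of `LAut W'` are equal: any section works. So let `ζ ≠ 1`.
(1) Let `B = {αE e | π e ∈ range Ψ}`, a subgroup of `LAut W'`, commutative (`comm` and isotropy:
`αE ⁅e,e'⁆ = ζ^0 = 1`), of exponent `p` (`expo`), containing `ζ`. The map `B → X`, `αE e ↦ Ψ⁻¹ (π e)`, is well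
defined (an element with `αE e = 1` has `π e = 0`), a surjective homomorphism with kernel `⟨ζ⟩` (`ker`).
(2) `B` is a vector space over `ZMod p`, so there is a linear section: a map `s : X → E` with
`π (s x) = Ψ x`, `αE (s (x + x')) = αE (s x) * αE (s x')`.
(3) averaging over `Y` : for `y : Y`, `αE (κ y (s (σX y⁻¹ x))) * (αE (s x))⁻¹` is in `⟨ζ⟩` (both have the same
image), `= ζ^(c y x)`, with `c y : X → ZMod p` additive, and `c (y y') x = c y x + c y' (σX y⁻¹ x)`
(`αE (κ y z) = ζ` because of `act`, `zY`). As `p` does not divide `|Y|` put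
`λ x = |Y|⁻¹ sum_y c y x` in `ZMod p`, and `θ x = s x * z^(λ x).val`. Then
`αE (κ y (θ (σX y⁻¹ x))) = ζ^(c y x + λ (σX y⁻¹ x)) αE (s x)`, and
`c y x + λ (σX y⁻¹ x) = |Y|⁻¹ sum_y' (c y x + c y' (σX y⁻¹ x)) = |Y|⁻¹ sum_y' c (y y') x = λ x`.
-/

set_option autoImplicit false

namespace Pool.Agent.Work.MP_b44cb1_al.R2

open scoped commutatorElement

private theorem lin_sec' {B X : Type} [AddCommGroup B] [AddCommGroup X] (p : ℕ)
    [Fact p.Prime] [Module (ZMod p) B] [Module (ZMod p) X] (g : B →+ X)
    (hg : Function.Surjective g) : ∃ s : X →+ B, ∀ x, g (s x) = x := by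
  have hgl : Function.Surjective (AddMonoidHom.toZModLinearMap p g) := hg
  obtain ⟨s0, hs0⟩ := Module.projective_lifting_property (AddMonoidHom.toZModLinearMap p g)
    (LinearMap.id : X →ₗ[ZMod p] X) hgl
  exact ⟨s0.toAddMonoidHom, fun x => congrArg (fun h => h x) hs0⟩

private theorem lin_sec {B X : Type} [AddCommGroup B] [AddCommGroup X] (p : ℕ)
    [Fact p.Prime] (g : B →+ X) (hg : Function.Surjective g)
    (hB : ∀ b : B, p • b = 0) (hX : ∀ b : X, p • b = 0) :
    ∃ s : X →+ B, ∀ x, g (s x) = x :=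
  @lin_sec' B X _ _ p _ (AddCommGroup.zmodModule hB) (AddCommGroup.zmodModule hX) g hg

private theorem abs_lift {B X Y : Type} [AddCommGroup B] [AddCommGroup X] [Group Y] [Finite Y]
    (p : ℕ) (hp : p.Prime) (hpY : ¬ p ∣ Nat.card Y) (hB : ∀ b : B, p • b = 0) (g : B →+ X)
    (hg : Function.Surjective g) (τ : Y → B →+ B) (hτ : ∀ y y' b, τ (y * y') b = τ y (τ y' b))
    (σ : Y →* LAut X) (heq : ∀ y b, g (τ y b) = σ y (g b)) :
    ∃ s : X → B, (∀ x x', s (x + x') = s x + s x') ∧ (∀ x, g (s x) = x) ∧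
      ∀ y x, s (σ y x) = τ y (s x) := by
  classical
  have : Fact p.Prime := ⟨hp⟩
  have hX : ∀ x : X, p • x = 0 := by
    intro x
    obtain ⟨b, rfl⟩ := hg x
    rw [← map_nsmul, hB, map_zero]
  obtain ⟨s0, hs0'⟩ := lin_sec p g hg hB hX
  have := Fintype.ofFinite Y
  have hcop : Nat.Coprime (Fintype.card Y) p := by
    rw [← Nat.card_eq_fintype_card]
    exact ((Nat.Prime.coprime_iff_not_dvd hp).2 hpY).symm
  obtain ⟨c, hc⟩ : ∃ c : ℕ, c * Fintype.card Y ≡ 1 [MOD p] := by
    obtain ⟨c, hc⟩ := Nat.exists_mul_mod_eq_one_of_coprime hcop hp.one_lt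
    refine ⟨c, ?_⟩
    rw [mul_comm, Nat.ModEq, hc.2, Nat.mod_eq_of_lt hp.one_lt]
  have hcX : ∀ x : X, (c * Fintype.card Y) • x = x := by
    intro x
    have h1 : c * Fintype.card Y = 1 + p * ((c * Fintype.card Y) / p) := by
      have h2 : (c * Fintype.card Y) % p = 1 := by
        have h3 := hc
        rw [Nat.ModEq, Nat.mod_eq_of_lt hp.one_lt] at h3
        exact h3
      have h4 := Nat.mod_add_div (c * Fintype.card Y) p
      omega
    rw [h1, add_smul, one_smul, mul_comm, mul_smul, hX, smul_zero, add_zero]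
  refine ⟨fun x => c • ∑ y : Y, τ y (s0 (σ y⁻¹ x)), ?_, ?_, ?_⟩
  · intro x x'
    rw [← smul_add, ← Finset.sum_add_distrib]
    simp only [map_add]
  · intro x
    rw [map_nsmul, map_sum]
    have h1 : ∀ y : Y, g (τ y (s0 (σ y⁻¹ x))) = x := by
      intro y
      rw [heq, hs0', ← LinearEquiv.mul_apply, ← map_mul, mul_inv_cancel, map_one]
      rfl
    rw [Finset.sum_congr rfl fun y _ => h1 y, Finset.sum_const, Finset.card_univ, smul_smul, hcX]
  · intro y x
    rw [map_nsmul, map_sum]
    change c • ∑ y' : Y, τ y' (s0 (σ y'⁻¹ (σ y x))) = _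
    congr 1
    refine Fintype.sum_equiv (Equiv.mulLeft y⁻¹) _ _ fun y' => ?_
    rw [Equiv.coe_mulLeft, ← hτ, mul_inv_cancel_left, ← LinearEquiv.mul_apply, ← map_mul]
    congr 4
    group

theorem lift_fam {Y E W W' X : Type} [Group Y] [Finite Y] [Group E] [Finite E] [AddCommGroup W]
    [AddCommGroup W'] [AddCommGroup X] [Finite X] (p : ℕ) (hp : p.Prime)
    (hpY : ¬ p ∣ Nat.card Y) (κ : Y →* MulAut E) (π : E → W) (ρ : Y →* LAut W)
    (f : W →+ W →+ ZMod p) (z : E) (αE : E →* LAut W') (αY : Y →* LAut W')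
    (h : ESA p κ π ρ f z αE αY) (σX : Y →* LAut X) (Ψ : X →+ W) (hinj : Function.Injective Ψ)
    (heq : ∀ y x, Ψ (σX y x) = ρ y (Ψ x)) (hiso : ∀ x x', f (Ψ x) (Ψ x') = 0) :
    ∃ θ : X → E, (∀ x, π (θ x) = Ψ x) ∧ (∀ x x', αE (θ (x + x')) = αE (θ x) * αE (θ x')) ∧
      ∀ y x, αE (θ (σX y x)) = αE (κ y (θ x)) := by
  classical
  have : Fact p.Prime := ⟨hp⟩
  by_cases hz1 : αE z = 1
  · have hsub : ∀ w : W', w = 0 := by
      intro w
      apply h.zfpf
      rw [hz1]
      rfl
    have hL : ∀ a b : LAut W', a = b := by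
      intro a b
      apply LinearEquiv.ext
      intro w
      rw [hsub (a w), hsub (b w)]
    choose θ hθ using fun x => h.surj (Ψ x)
    exact ⟨θ, hθ, fun _ _ => hL _ _, fun _ _ => hL _ _⟩
  · have hord : orderOf (αE z) = p := orderOf_eq_prime h.zp hz1
    have hπ1 : π 1 = 0 := by
      have h1 := h.add 1 1
      rw [mul_one] at h1
      exact left_eq_add.1 h1
    have hπinv : ∀ e, π e⁻¹ = - π e := by
      intro e
      have h1 := h.add e⁻¹ e
      rw [inv_mul_cancel, hπ1] at h1
      exact (neg_eq_of_add_eq_zero_left h1.symm).symm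
    have hker : ∀ e, αE e = 1 → π e = 0 := by
      intro e he
      apply h.nondeg
      intro w'
      obtain ⟨e', rfl⟩ := h.surj w'
      have h1 := h.comm e e'
      rw [map_commutatorElement, he, commutatorElement_one_left] at h1
      have h2 := orderOf_dvd_of_pow_eq_one h1.symm
      rw [hord] at h2
      have h3 := Nat.eq_zero_of_dvd_of_lt h2 (ZMod.val_lt _)
      exact (ZMod.val_eq_zero _).1 h3
    have huniq : ∀ e e', αE e = αE e' → π e = π e' := by
      intro e e' he
      have h1 := hker (e⁻¹ * e') (by rw [map_mul, map_inv, he, inv_mul_cancel])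
      rw [h.add, hπinv] at h1
      exact (neg_add_eq_zero.1 h1)
    let B0 : Subgroup (LAut W') :=
      { carrier := {b | ∃ x e, αE e = b ∧ π e = Ψ x}
        one_mem' := ⟨0, 1, map_one _, by rw [hπ1, map_zero]⟩
        mul_mem' := by
          rintro a b ⟨x, e, rfl, he⟩ ⟨x', e', rfl, he'⟩
          exact ⟨x + x', e * e', map_mul _ _ _, by rw [h.add, he, he', map_add]⟩
        inv_mem' := by
          rintro a ⟨x, e, rfl, he⟩
          exact ⟨-x, e⁻¹, map_inv _ _, by rw [hπinv, he, map_neg]⟩ }
    have hmem : ∀ b, b ∈ B0 ↔ ∃ x e, αE e = b ∧ π e = Ψ x := fun b => Iff.rfl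
    have hcomm : ∀ a ∈ B0, ∀ b ∈ B0, a * b = b * a := by
      rintro a ⟨x, e, rfl, he⟩ b ⟨x', e', rfl, he'⟩
      have h1 := h.comm e e'
      rw [he, he', hiso, ZMod.val_zero, pow_zero, map_commutatorElement,
        commutatorElement_eq_one_iff_mul_comm] at h1
      exact h1
    let _ : CommGroup B0 :=
      { (inferInstance : Group B0) with
        mul_comm := fun a b => Subtype.ext (hcomm a a.2 b b.2) }
    choose gx ge hge1 hge2 using fun b : B0 => (hmem b).1 b.2
    have hgx : ∀ (b : B0) e x, αE e = b → π e = Ψ x → gx b = x := by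
      intro b e x h1 h2
      apply hinj
      rw [← h2, ← hge2 b]
      apply huniq
      rw [hge1, h1]
    let g : Additive B0 →+ X :=
      { toFun := fun b => gx b.toMul
        map_zero' := hgx _ 1 0 (map_one _) (by rw [hπ1, map_zero])
        map_add' := fun a b => hgx _ (ge a.toMul * ge b.toMul) _
          (by rw [map_mul, hge1, hge1]; rfl) (by rw [h.add, hge2, hge2, map_add]) }
    have hgv : ∀ b, g b = gx b.toMul := fun b => rfl
    let τ : Y → Additive B0 →+ Additive B0 := fun y =>
      { toFun := fun b => Additive.ofMul ⟨αY y * (b.toMul : LAut W') * (αY y)⁻¹,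
          σX y (gx b.toMul), κ y (ge b.toMul), by rw [← h.act, hge1],
            by rw [h.eqv, hge2, heq]⟩
        map_zero' := by
          apply Additive.toMul.injective
          apply Subtype.ext
          change αY y * 1 * (αY y)⁻¹ = 1
          group
        map_add' := fun a b => by
          apply Additive.toMul.injective
          apply Subtype.ext
          change αY y * ((a.toMul : LAut W') * (b.toMul : LAut W')) * (αY y)⁻¹ =
            (αY y * (a.toMul : LAut W') * (αY y)⁻¹) * (αY y * (b.toMul : LAut W') * (αY y)⁻¹)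
          group }
    have hτv : ∀ y b, ((τ y b).toMul : LAut W') = αY y * (b.toMul : LAut W') * (αY y)⁻¹ :=
      fun y b => rfl
    obtain ⟨s, hs1, hs2, hs3⟩ := abs_lift p hp hpY (B := Additive B0) (X := X)
      (by
        intro b
        apply Additive.toMul.injective
        apply Subtype.ext
        change (b.toMul : LAut W') ^ p = 1
        rw [← hge1, h.expo]) g
      (by
        intro x
        obtain ⟨e, he⟩ := h.surj (Ψ x)
        exact ⟨Additive.ofMul ⟨αE e, x, e, rfl, he⟩, hgx _ e x rfl he⟩) τ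
      (by
        intro y y' b
        apply Additive.toMul.injective
        apply Subtype.ext
        rw [hτv, hτv, hτv, map_mul]
        group) σX
      (by
        intro y b
        rw [hgv, hgv]
        apply hgx _ (κ y (ge b.toMul)) _
        · rw [← h.act, hge1, hτv]
        · rw [h.eqv, hge2, heq])
    refine ⟨fun x => ge (s x).toMul, ?_, ?_, ?_⟩
    · intro x
      rw [hge2, ← hgv, hs2]
    · intro x x'
      rw [hge1, hge1, hge1, hs1]
      rfl
    · intro y x
      rw [hge1, hs3, hτv, ← h.act, hge1]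

end Pool.Agent.Work.MP_b44cb1_al.R2
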