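import Pool.Agent.Work.MP_b44cb1_al.Full.R2.AIso
import Pool.Agent.Work.MP_b44cb1_al.Full.R2.ALift
import Pool.Agent.Work.MP_b44cb1_al.Full.R2.ADual

/-!
# R2/AData (M) : the data of `WData` from an extraspecial action and a family

From `OFW ρ f σ φ` (`3 ≤ k`) and `ESA`: `iso_fam` gives `ψ s`, `s < k/3`. Let `X = (Fin (k/3) → J)`, `σX`
the componentwise action, `Ψ x = sum_s ψ s (x s)` (injective, equivariant, isotropic). `lift_fam` gives `θ`.
`T x = αE (θ x)` (a homomorphism), `ζ = αE z`. Check `WData p A σX αY T ζ` :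
* `px` : `p W = 0` (see below) and `Ψ` injective; `zp`, `zY`, `zfpf` from `ESA`; `zT` from `zE`;
* `act` : `αY y * αE (θ x) * (αY y)⁻¹ = αE (κ y (θ x)) = αE (θ (σX y x))`;
* `shift` : `dual_fam` gives `v : W` with `f v (Ψ x) = m x`, `v = π e`, `n = αE e`.
`αE (e * θ x * e⁻¹) = αE ⁅e, θ x⁆ * αE (θ x) = ζ^(f (π e) (Ψ x)) * T x = T x * ζ^(m x)`
(`⁅a,b⁆ = a b a⁻¹ b⁻¹`). `n` commutes with `ζ` (`zE`). If `σX y = 1` then `σ y = 1` (`k/3 ≥ 1`), so `ρ y = 1`
(`OFW.fix`), and `triv` gives `αE (κ y e) = αE e`, so `αY y` commutes with `αE e` (`act`).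
* `A` contains all `αE e`, `αY y`.
`p W = 0` : `w = π e`; `π (e^p) = p • w` and `αE (e^p) = 1`; elements with `αE e' = 1` have `π e' = 0` :
`comm` gives `ζ^(f (π e') (π e'')) = 1`, `ζ` has order exactly `p` as `W'` is nontrivial (`zfpf`), so
`f (π e') = 0`, use `nondeg`.
`faith` : if `αY y = 1` then `ρ y = 1` : `αE (κ y e) = αE e` for all `e`, so `κ y e * e⁻¹` is in the kernel of
`αE`, hence `0 = π (κ y e * e⁻¹) = ρ y (π e) - π e`.
-/

set_option autoImplicit false

namespace Pool.Agent.Work.MP_b44cb1_al.R2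

open scoped commutatorElement

private theorem esa_pi_one {Y E W W' : Type} [Group Y] [Group E] [AddCommGroup W]
    [AddCommGroup W'] (p : ℕ)
    (κ : Y →* MulAut E) (π : E → W) (ρ : Y →* LAut W)
    (f : W →+ W →+ ZMod p) (z : E) (αE : E →* LAut W') (αY : Y →* LAut W')
    (h : ESA p κ π ρ f z αE αY) : π 1 = 0 := by
  have := h.add 1 1
  rw [mul_one] at this
  simpa using this

private theorem esa_pi_pow {Y E W W' : Type} [Group Y] [Group E] [AddCommGroup W]
    [AddCommGroup W'] (p : ℕ)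
    (κ : Y →* MulAut E) (π : E → W) (ρ : Y →* LAut W)
    (f : W →+ W →+ ZMod p) (z : E) (αE : E →* LAut W') (αY : Y →* LAut W')
    (h : ESA p κ π ρ f z αE αY) (e : E) (n : ℕ) : π (e ^ n) = n • π e := by
  induction n with
  | zero => rw [pow_zero, zero_smul]; exact esa_pi_one p κ π ρ f z αE αY h
  | succ n ih => rw [pow_succ, h.add, ih, succ_nsmul]

private theorem esa_pi_inv {Y E W W' : Type} [Group Y] [Group E] [AddCommGroup W]
    [AddCommGroup W'] (p : ℕ)
    (κ : Y →* MulAut E) (π : E → W) (ρ : Y →* LAut W)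
    (f : W →+ W →+ ZMod p) (z : E) (αE : E →* LAut W') (αY : Y →* LAut W')
    (h : ESA p κ π ρ f z αE αY) (e : E) : π e⁻¹ = - π e := by
  have h1 := h.add e⁻¹ e
  rw [inv_mul_cancel, esa_pi_one p κ π ρ f z αE αY h] at h1
  exact eq_neg_of_add_eq_zero_left h1.symm

private theorem esa_ord {Y E W W' : Type} [Group Y] [Group E] [AddCommGroup W]
    [AddCommGroup W'] [Nontrivial W'] (p : ℕ) (hp : p.Prime)
    (κ : Y →* MulAut E) (π : E → W) (ρ : Y →* LAut W)
    (f : W →+ W →+ ZMod p) (z : E) (αE : E →* LAut W') (αY : Y →* LAut W')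
    (h : ESA p κ π ρ f z αE αY) : orderOf (αE z) = p := by
  have h1 : αE z ≠ 1 := by
    intro h1
    obtain ⟨w, hw⟩ := exists_ne (0 : W')
    apply hw
    apply h.zfpf
    rw [h1]; rfl
  have h2 := orderOf_dvd_of_pow_eq_one h.zp
  rcases (Nat.dvd_prime hp).1 h2 with h3 | h3
  · exact absurd (orderOf_eq_one_iff.1 h3) h1
  · exact h3

private theorem esa_ker1 {Y E W W' : Type} [Group Y] [Group E] [AddCommGroup W]
    [AddCommGroup W'] [Nontrivial W'] (p : ℕ) (hp : p.Prime)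
    (κ : Y →* MulAut E) (π : E → W) (ρ : Y →* LAut W)
    (f : W →+ W →+ ZMod p) (z : E) (αE : E →* LAut W') (αY : Y →* LAut W')
    (h : ESA p κ π ρ f z αE αY) (e : E) (he : αE e = 1) : π e = 0 := by
  haveI : NeZero p := ⟨hp.ne_zero⟩
  apply h.nondeg
  intro w'
  obtain ⟨e', rfl⟩ := h.surj w'
  have h1 := h.comm e e'
  rw [map_commutatorElement, he, commutatorElement_one_left] at h1
  have h2 := orderOf_dvd_of_pow_eq_one h1.symm
  rw [esa_ord p hp κ π ρ f z αE αY h] at h2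
  have h3 := Nat.eq_zero_of_dvd_of_lt h2 (ZMod.val_lt _)
  exact (ZMod.val_eq_zero _).1 h3

theorem esa_expo {Y E W W' : Type} [Group Y] [Group E] [AddCommGroup W]
    [AddCommGroup W'] [Nontrivial W'] (p : ℕ) (hp : p.Prime)
    (κ : Y →* MulAut E) (π : E → W) (ρ : Y →* LAut W)
    (f : W →+ W →+ ZMod p) (z : E) (αE : E →* LAut W') (αY : Y →* LAut W')
    (h : ESA p κ π ρ f z αE αY) (w : W) : (p : ℤ) • w = 0 := by
  obtain ⟨e, rfl⟩ := h.surj w
  rw [natCast_zsmul, ← esa_pi_pow p κ π ρ f z αE αY h]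
  apply esa_ker1 p hp κ π ρ f z αE αY h
  rw [map_pow]
  exact h.expo e

theorem esa_faith {Y E W W' : Type} [Group Y] [Group E] [AddCommGroup W]
    [AddCommGroup W'] [Nontrivial W'] (p : ℕ) (hp : p.Prime)
    (κ : Y →* MulAut E) (π : E → W) (ρ : Y →* LAut W)
    (f : W →+ W →+ ZMod p) (z : E) (αE : E →* LAut W') (αY : Y →* LAut W')
    (h : ESA p κ π ρ f z αE αY) (y : Y) (hy : αY y = 1) : ρ y = 1 := by
  ext w
  obtain ⟨e, rfl⟩ := h.surj w
  have h1 := h.act y e
  rw [hy, one_mul, inv_one, mul_one] at h1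
  have h2 : αE (κ y e * e⁻¹) = 1 := by
    rw [map_mul, map_inv, ← h1, mul_inv_cancel]
  have h3 := esa_ker1 p hp κ π ρ f z αE αY h _ h2
  rw [h.add, esa_pi_inv p κ π ρ f z αE αY h, h.eqv, ← sub_eq_add_neg, sub_eq_zero] at h3
  rw [h3]; rfl

theorem wdata_of {Y E W W' J : Type} [Group Y] [Finite Y] [Group E] [Finite E] [AddCommGroup W]
    [Finite W] [AddCommGroup W'] [Nontrivial W'] [AddCommGroup J] [Finite J] (p : ℕ)
    (hp : p.Prime) (hpY : ¬ p ∣ Nat.card Y) (κ : Y →* MulAut E) (π : E → W) (ρ : Y →* LAut W)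
    (f : W →+ W →+ ZMod p) (z : E) (αE : E →* LAut W') (αY : Y →* LAut W')
    (h : ESA p κ π ρ f z αE αY) (σ : Y →* LAut J) {k : ℕ} (hk : 3 ≤ k) (φ : Fin k → J →+ W)
    (ho : OFW ρ f σ φ) (A : Subgroup (LAut W')) (hE : ∀ e, αE e ∈ A) (hY : ∀ y, αY y ∈ A) :
    ∃ (σX : Y →* LAut (Fin (k / 3) → J)) (T : Multiplicative (Fin (k / 3) → J) →* LAut W'),
      (∀ y x s, σX y x s = σ y (x s)) ∧ (∀ y, σX y = 1 ↔ σ y = 1) ∧
      WData p A σX αY T (αE z) := by
  haveI : NeZero p := ⟨hp.ne_zero⟩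
  obtain ⟨ψ, hψ1, hψ2, hψ3⟩ := iso_fam p hp ρ f σ φ ho
  have hK : 0 < k / 3 := Nat.div_pos hk (by norm_num)
  let Ψ : (Fin (k / 3) → J) →+ W := ∑ s, (ψ s).comp (Pi.evalAddMonoidHom _ s)
  have hΨ : ∀ x, Ψ x = ∑ s, ψ s (x s) := by
    intro x
    simp [Ψ]
  let σX : Y →* LAut (Fin (k / 3) → J) :=
    { toFun := fun y => LinearEquiv.piCongrRight (fun _ => σ y)
      map_one' := by
        ext x s
        simp
      map_mul' := by
        intro a b
        apply LinearEquiv.ext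
        intro x
        funext s
        simp [LinearEquiv.piCongrRight_apply] }
  have hσX : ∀ y x s, σX y x s = σ y (x s) := fun y x s => rfl
  have hσ1 : ∀ y, σX y = 1 ↔ σ y = 1 := by
    intro y
    constructor
    · intro h1
      ext j
      have h2 := congrFun (congrArg (fun (g : LAut (Fin (k / 3) → J)) => g (fun _ => j)) h1) ⟨0, hK⟩
      exact h2
    · intro h1
      apply LinearEquiv.ext
      intro x
      funext s
      rw [hσX, h1]; rfl
  have hinj : Function.Injective Ψ := by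
    rw [injective_iff_map_eq_zero]
    intro x hx
    rw [hΨ] at hx
    exact hψ2 x hx
  have heq : ∀ y x, Ψ (σX y x) = ρ y (Ψ x) := by
    intro y x
    rw [hΨ, hΨ, map_sum]
    refine Finset.sum_congr rfl fun s _ => ?_
    rw [hσX, hψ1]
  have hiso : ∀ x x', f (Ψ x) (Ψ x') = 0 := by
    intro x x'
    rw [hΨ, hΨ, map_sum]
    refine Finset.sum_eq_zero fun s' _ => ?_
    rw [map_sum, AddMonoidHom.finsetSum_apply]
    exact Finset.sum_eq_zero fun s _ => hψ3 s s' _ _
  obtain ⟨θ, hθ1, hθ2, hθ3⟩ := lift_fam p hp hpY κ π ρ f z αE αY h σX Ψ hinj heq hiso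
  let T : Multiplicative (Fin (k / 3) → J) →* LAut W' :=
    MonoidHom.mk' (fun x => αE (θ x.toAdd)) (fun a b => hθ2 a.toAdd b.toAdd)
  have hT : ∀ x : Fin (k / 3) → J, T (Multiplicative.ofAdd x) = αE (θ x) := fun x => rfl
  refine ⟨σX, T, hσX, hσ1, ?_⟩
  have hpx : ∀ x : Fin (k / 3) → J, (p : ℤ) • x = 0 := by
    intro x
    apply hinj
    rw [map_zsmul, map_zero]
    exact esa_expo p hp κ π ρ f z αE αY h _
  refine
    { px := hpx
      zp := h.zp
      zT := fun x => h.zE _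
      zY := h.zY
      zfpf := h.zfpf
      act := fun y x => ?_
      shift := fun m => ?_
      zA := hE z
      TA := fun x => hE _
      YA := hY }
  · rw [hT, hT, h.act, ← hθ3]
  · obtain ⟨v, hv⟩ := dual_fam p hp (esa_expo p hp κ π ρ f z αE αY h) f h.nondeg Ψ hinj m
    obtain ⟨e, rfl⟩ := h.surj v
    refine ⟨αE e, hE e, fun x => ?_, (h.zE e).symm, fun y hy => ?_⟩
    · have h1 := h.comm e (θ x)
      rw [hθ1, hv, map_commutatorElement, commutatorElement_def] at h1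
      have h2 : Commute (αE z ^ (m x).val) (αE (θ x)) := Commute.pow_left (h.zE (θ x)) _
      rw [hT, ← h2.eq, ← h1]
      group
    · have h1 : ρ y = 1 := ho.fix y ((hσ1 y).1 hy)
      have h2 := h.act y e
      rw [h.triv y h1 e] at h2
      exact (mul_inv_eq_iff_eq_mul.1 h2).symm

end Pool.Agent.Work.MP_b44cb1_al.R2
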