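import Pool.Agent.Work.MP_b44cb1_al.Full.R2.AWt

/-!
# R2/ALast (M) : independent fixed vectors

Notation of `ABuild` (no form needed). `Y0 = ker σ ≤ Y1 ≤ Y`, `w0 ≠ 0` is fixed by `ρ y`, `y ∈ Y0`;
`q1 ∈ Y`, `q1 ∉ Y1`.
(1) The fixed space `C` of `Y0` in `W` is invariant under all `T x`, `ζ` (by `act` with `σ y = 1`, `zY`)
and the operators `n` of `shift`. The projections `e_m` (see `AWt`; they are combinations of the operators
`T x ζ^i`) map `C` to `C ∩ Wt m`; as `w0 = sum_m e_m w0 ≠ 0`, some `C ∩ Wt m ≠ 0`, and applying the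
operators `n` (`n (C ∩ Wt 0) = C ∩ Wt m`) all `C ∩ Wt m` are nonzero. (Without `e_m` : write
`w0 = sum of w_m ∈ Wt m` by `wt_gen`; `ρ y` for `y ∈ Y0` preserves each `Wt m` (as `m ∘ σ y = m`), so
by `wt_indep` each `w_m` is fixed by `Y0`.)
(2) Choose `x j ≠ 0` in `C ∩ Wt (m j)` and put `v j = sum_{n ∈ Y1} ρ n (x j)`; it is fixed by `Y1`. Its
terms lie in `Wt (m j ∘ (σ n)⁻¹)`; by `Orb` the only terms in `Wt (m j')`, for any `j'`, are those with
`j = j'`, `n ∈ Y0`, with sum `|Y0| x j`.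
(3) Let `sum_j c j • (ρ q1 (v j) - v j) = 0`. The terms of `ρ q1 (v j)` lie in
`Wt (m j ∘ (σ (q1 n))⁻¹)`, `n ∈ Y1`, and this is never `Wt (m j')` : otherwise `q1 n ∈ Y0 ≤ Y1` and
`q1 ∈ Y1`. So the component in `Wt (m j)` is `- c j |Y0| x j`, and `wt_indep` gives
`c j |Y0| x j = 0`; as `x j ≠ 0` has order `q` and `q` does not divide `|Y0|`, `q` divides `c j`.
-/

set_option autoImplicit false

namespace Pool.Agent.Work.MP_b44cb1_al.R2

private theorem zpow_val_add {W : Type} [AddCommGroup W] (p : ℕ) [Fact p.Prime] (ζ : LAut W)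
    (hζ : ζ ^ p = 1) (u v : ZMod p) : ζ ^ (u + v).val = ζ ^ u.val * ζ ^ v.val := by
  rw [← pow_add, ZMod.val_add, ← pow_mod_orderOf, ← pow_mod_orderOf ζ (u.val + v.val)]
  congr 1
  exact Nat.mod_mod_of_dvd _ (orderOf_dvd_of_pow_eq_one hζ)

open Classical in
private theorem wt_fiber {X W : Type} [AddCommGroup X] [Finite X] [AddCommGroup W] [Finite W]
    (p q : ℕ) (hp : p.Prime) (hq : q.Prime) (hpq : p ≠ q)
    (hX : ∀ x : X, (p : ℤ) • x = 0) (hW : ∀ w : W, (q : ℤ) • w = 0)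
    (T : Multiplicative X →* LAut W) (ζ : LAut W) (hζ : ζ ^ p = 1)
    (hc : ∀ x, ζ * T x = T x * ζ) (hf : ∀ w, ζ w = w → w = 0)
    {I : Type} [Fintype I] (μ : I → X →+ ZMod p) (u : I → W) (hu : ∀ i, u i ∈ Wt p T ζ (μ i))
    (h0 : ∑ i, u i = 0) (m : X →+ ZMod p) :
    ∑ i with μ i = m, u i = 0 := by
  have : Fact p.Prime := ⟨hp⟩
  have : Finite (X →+ ZMod p) := Finite.of_injective (fun g : X →+ ZMod p => (g : X → ZMod p))
    DFunLike.coe_injective
  have := Fintype.ofFinite (X →+ ZMod p)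
  have h1 := wt_indep p q hp hq hpq hX hW T ζ hζ hc hf Finset.univ
    (fun m => ∑ i with μ i = m, u i)
    (fun m _ => AddSubgroup.sum_mem _ fun i hi => by
      have h2 := hu i
      rw [(Finset.mem_filter.1 hi).2] at h2
      exact h2)
    (by rw [Finset.sum_fiberwise Finset.univ μ u]; exact h0) m (Finset.mem_univ m)
  exact h1

private theorem wt_move {Y X W : Type} [Group Y] [AddCommGroup X]
    [AddCommGroup W] (p : ℕ) (A : Subgroup (LAut W)) (σ : Y →* LAut X) (ρ : Y →* LAut W)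
    (T : Multiplicative X →* LAut W) (ζ : LAut W) (hd : WData p A σ ρ T ζ)
    (m m' : X →+ ZMod p) (y : Y) (hm : ∀ x, m (σ y⁻¹ x) = m' x) (w : W) (hw : w ∈ Wt p T ζ m) :
    ρ y w ∈ Wt p T ζ m' := by
  rw [mem_Wt] at hw ⊢
  intro x
  have h1 := hw (σ y⁻¹ x)
  rw [hm] at h1
  have h2 : ρ y * T (Multiplicative.ofAdd (σ y⁻¹ x)) = T (Multiplicative.ofAdd x) * ρ y := by
    have h3 := hd.act y (σ y⁻¹ x)
    rw [← LinearEquiv.mul_apply (σ y), ← map_mul, mul_inv_cancel, map_one] at h3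
    change _ = T (Multiplicative.ofAdd x) at h3
    rw [← h3]
    group
  have h4 : ζ ^ (m' x).val * ρ y = ρ y * ζ ^ (m' x).val :=
    Commute.pow_left (hd.zY y : Commute ζ (ρ y)) _
  calc T (Multiplicative.ofAdd x) ((ζ ^ (m' x).val) (ρ y w))
      = (T (Multiplicative.ofAdd x) * (ζ ^ (m' x).val * ρ y)) w := rfl
    _ = ((T (Multiplicative.ofAdd x) * ρ y) * ζ ^ (m' x).val) w := by rw [h4, mul_assoc]
    _ = ρ y (T (Multiplicative.ofAdd (σ y⁻¹ x)) ((ζ ^ (m' x).val) w)) := by rw [← h2]; rfl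
    _ = ρ y w := by rw [h1]

private theorem fix_ex {Y X W : Type} [Group Y] [Finite Y] [AddCommGroup X] [Finite X]
    [AddCommGroup W] [Finite W] (p q : ℕ) (hp : p.Prime) (hq : q.Prime)
    (hpq : p ≠ q) (hW : ∀ w : W, (q : ℤ) • w = 0)
    (A : Subgroup (LAut W)) (σ : Y →* LAut X) (ρ : Y →* LAut W)
    (T : Multiplicative X →* LAut W) (ζ : LAut W) (hd : WData p A σ ρ T ζ)
    (w0 : W) (hw0 : w0 ≠ 0) (hfix : ∀ y, σ y = 1 → ρ y w0 = w0) (m : X →+ ZMod p) :
    ∃ x ∈ Wt p T ζ m, x ≠ 0 ∧ ∀ y, σ y = 1 → ρ y x = x := by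
  classical
  have : Fact p.Prime := ⟨hp⟩
  have : Finite (X →+ ZMod p) := Finite.of_injective (fun g : X →+ ZMod p => (g : X → ZMod p))
    DFunLike.coe_injective
  have := Fintype.ofFinite (X →+ ZMod p)
  have hdec : ∀ w : W, ∃ c : (X →+ ZMod p) → W, (∀ m, c m ∈ Wt p T ζ m) ∧ ∑ m, c m = w := by
    intro w
    have hw : w ∈ (⨆ m : X →+ ZMod p, Wt p T ζ m) := by
      rw [wt_gen p q hp hq hpq hd.px hW T ζ hd.zp hd.zT hd.zfpf]
      exact AddSubgroup.mem_top w
    refine AddSubgroup.iSup_induction (fun m => Wt p T ζ m)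
      (C := fun w => ∃ c : (X →+ ZMod p) → W, (∀ m, c m ∈ Wt p T ζ m) ∧ ∑ m, c m = w) hw ?_ ?_ ?_
    · intro i x hx
      refine ⟨Pi.single i x, ?_, ?_⟩
      · intro m
        by_cases hm : m = i
        · subst hm
          rw [Pi.single_eq_same]
          exact hx
        · rw [Pi.single_eq_of_ne hm]
          exact AddSubgroup.zero_mem _
      · rw [Finset.sum_eq_single i]
        · rw [Pi.single_eq_same]
        · intro b _ hb
          rw [Pi.single_eq_of_ne hb]
        · intro h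
          exact absurd (Finset.mem_univ _) h
    · exact ⟨0, fun m => AddSubgroup.zero_mem _, by simp⟩
    · intro x y hx hy
      obtain ⟨c, hc1, hc2⟩ := hx
      obtain ⟨d, hd1, hd2⟩ := hy
      exact ⟨c + d, fun m => AddSubgroup.add_mem _ (hc1 m) (hd1 m), by
        simp only [Pi.add_apply, Finset.sum_add_distrib, hc2, hd2]⟩
  obtain ⟨c, hc1, hc2⟩ := hdec w0
  have hcfix : ∀ y, σ y = 1 → ∀ m, ρ y (c m) = c m := by
    intro y hy m
    have hyi : σ y⁻¹ = 1 := by rw [map_inv, hy, inv_one]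
    have h1 := wt_indep p q hp hq hpq hd.px hW T ζ hd.zp hd.zT hd.zfpf Finset.univ
      (fun m => ρ y (c m) - c m)
      (fun m _ => AddSubgroup.sub_mem _ (wt_move p A σ ρ T ζ hd m m y
        (fun x => by rw [hyi]; rfl) _ (hc1 m)) (hc1 m))
      (by
        rw [Finset.sum_sub_distrib, ← map_sum, hc2, hfix y hy, sub_self]) m (Finset.mem_univ m)
    exact sub_eq_zero.1 h1
  obtain ⟨m0, hm0⟩ : ∃ m0, c m0 ≠ 0 := by
    by_contra hcon
    push Not at hcon
    apply hw0
    rw [← hc2]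
    exact Finset.sum_eq_zero fun m _ => hcon m
  obtain ⟨n, -, hn1, hn2, hn3⟩ := hd.shift (m - m0)
  refine ⟨n (c m0), ?_, ?_, ?_⟩
  · rw [mem_Wt]
    intro x
    have h1 := hc1 m0 x
    have h2 : n * T (Multiplicative.ofAdd x) =
        T (Multiplicative.ofAdd x) * ζ ^ ((m - m0) x).val * n := by
      rw [← hn1 x]
      group
    have h3 : n * ζ ^ (m0 x).val = ζ ^ (m0 x).val * n :=
      Commute.pow_right (hn2 : Commute n ζ) _
    have h4 : ζ ^ (m x).val = ζ ^ ((m - m0) x).val * ζ ^ (m0 x).val := by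
      rw [← zpow_val_add p ζ hd.zp, AddMonoidHom.sub_apply, sub_add_cancel]
    calc T (Multiplicative.ofAdd x) ((ζ ^ (m x).val) (n (c m0)))
        = (T (Multiplicative.ofAdd x) * (ζ ^ (m x).val * n)) (c m0) := rfl
      _ = ((T (Multiplicative.ofAdd x) * ζ ^ ((m - m0) x).val * n) * ζ ^ (m0 x).val) (c m0) := by
          rw [h4, mul_assoc (ζ ^ ((m - m0) x).val), ← h3]
          simp only [mul_assoc]
      _ = n (T (Multiplicative.ofAdd x) ((ζ ^ (m0 x).val) (c m0))) := by rw [← h2]; rfl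
      _ = n (c m0) := by rw [h1]
  · intro h
    exact hm0 ((LinearEquiv.map_eq_zero_iff n).1 h)
  · intro y hy
    have h1 := hn3 y hy
    calc ρ y (n (c m0)) = (ρ y * n) (c m0) := rfl
      _ = n (ρ y (c m0)) := by rw [← h1]; rfl
      _ = n (c m0) := by rw [hcfix y hy]

theorem last_indep {Y X W : Type} [Group Y] [Finite Y] [AddCommGroup X] [Finite X]
    [AddCommGroup W] [Finite W] (p q : ℕ) (hp : p.Prime) (hq : q.Prime)
    (hpq : p ≠ q) (hqY : ¬ q ∣ Nat.card Y) (hW : ∀ w : W, (q : ℤ) • w = 0)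
    (A : Subgroup (LAut W)) (σ : Y →* LAut X) (ρ : Y →* LAut W)
    (T : Multiplicative X →* LAut W) (ζ : LAut W) (hd : WData p A σ ρ T ζ)
    {k : ℕ} (m : Fin k → X →+ ZMod p) (hm : Orb p σ m)
    (Y1 : Subgroup Y) (hY1 : σ.ker ≤ Y1) (w0 : W) (hw0 : w0 ≠ 0)
    (hfix : ∀ y, σ y = 1 → ρ y w0 = w0) (q1 : Y) (hq1 : q1 ∉ Y1) :
    ∃ v : Fin k → W, (∀ j, ∀ y ∈ Y1, ρ y (v j) = v j) ∧
      ∀ c : Fin k → ℤ, ∑ j, c j • (ρ q1 (v j) - v j) = 0 → ∀ j, (q : ℤ) ∣ c j := by
  classical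
  have : Fact p.Prime := ⟨hp⟩
  have : Fact q.Prime := ⟨hq⟩
  choose x hx1 hx2 hx3 using fun j =>
    fix_ex p q hp hq hpq hW A σ ρ T ζ hd w0 hw0 hfix (m j)
  have := Fintype.ofFinite Y
  have := Fintype.ofFinite Y1
  refine ⟨fun j => ∑ n : Y1, ρ n (x j), ?_, ?_⟩
  · intro j y hy
    rw [map_sum]
    refine Fintype.sum_equiv (Equiv.mulLeft (⟨y, hy⟩ : Y1)) _ _ fun n => ?_
    rw [Equiv.coe_mulLeft, Subgroup.coe_mul, map_mul]
    rfl
  · intro c hc j0
    let sg : Y →  (X →+ ZMod p) → (X →+ ZMod p) := fun y m =>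
      m.comp ((σ y⁻¹ : LAut X).toLinearMap.toAddMonoidHom)
    have hsg : ∀ y m x, sg y m x = m (σ y⁻¹ x) := fun y m x => rfl
    let μ : Fin k × Y1 × Bool → X →+ ZMod p := fun i =>
      sg (if i.2.2 then q1 * (i.2.1 : Y) else (i.2.1 : Y)) (m i.1)
    let u : Fin k × Y1 × Bool → W := fun i =>
      if i.2.2 then c i.1 • ρ (q1 * (i.2.1 : Y)) (x i.1) else - (c i.1 • ρ (i.2.1 : Y) (x i.1))
    have hu : ∀ i, u i ∈ Wt p T ζ (μ i) := by
      rintro ⟨j, n, b⟩
      cases b
      · exact AddSubgroup.neg_mem _ (AddSubgroup.zsmul_mem _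
          (wt_move p A σ ρ T ζ hd (m j) _ _ (fun x => rfl) _ (hx1 j)) _)
      · exact AddSubgroup.zsmul_mem _
          (wt_move p A σ ρ T ζ hd (m j) _ _ (fun x => rfl) _ (hx1 j)) _
    have hsum : ∑ i, u i = 0 := by
      rw [Fintype.sum_prod_type, ← hc]
      refine Finset.sum_congr rfl fun j _ => ?_
      rw [Fintype.sum_prod_type, smul_sub, sub_eq_add_neg, map_sum, Finset.smul_sum,
        Finset.smul_sum, ← Finset.sum_neg_distrib, ← Finset.sum_add_distrib]
      refine Finset.sum_congr rfl fun n _ => ?_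
      rw [Fintype.sum_bool]
      simp only [u, map_mul, if_true, Bool.false_eq_true, if_false]
      rfl
    have h1 : ∑ i ∈ (Finset.univ.filter fun i => μ i = m j0), u i = 0 := by
      convert wt_fiber p q hp hq hpq hd.px hW T ζ hd.zp hd.zT hd.zfpf μ u hu hsum (m j0)
    have hset : (Finset.univ.filter fun i => μ i = m j0) =
        (Finset.univ.filter fun n : Y1 => σ n = 1).map
          ⟨fun n => (j0, n, false), fun a b h => by simpa using h⟩ := by
      ext ⟨j, n, b⟩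
      simp only [Finset.mem_filter, Finset.mem_univ, true_and, Finset.mem_map]
      constructor
      · intro h
        have h2 := hm j j0 _ (fun x => congrArg (fun g : X →+ ZMod p => g x) h)
        cases b
        · have h3 : σ (n : Y) = 1 := by
            have h4 := h2.1
            rw [map_inv, inv_eq_one] at h4
            exact h4
          exact ⟨n, h3, by rw [h2.2]; rfl⟩
        · exfalso
          have h3 : σ (q1 * (n : Y)) = 1 := by
            have h4 := h2.1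
            rw [map_inv, inv_eq_one] at h4
            exact h4
          have h5 : q1 * (n : Y) ∈ Y1 := hY1 (MonoidHom.mem_ker.2 h3)
          exact hq1 ((Subgroup.mul_mem_cancel_right Y1 n.2).1 h5)
      · rintro ⟨n', hn', he⟩
        have he' : (j0, n', false) = (j, n, b) := he
        simp only [Prod.mk.injEq] at he'
        obtain ⟨rfl, rfl, rfl⟩ := he'
        have hn'' : σ (n' : Y)⁻¹ = 1 := by rw [map_inv, hn', inv_one]
        ext x
        change m j0 (σ (n' : Y)⁻¹ x) = m j0 x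
        rw [hn'']
        rfl
    rw [hset, Finset.sum_map] at h1
    have h2 : ∀ n ∈ (Finset.univ.filter fun n : Y1 => σ n = 1),
        u ((⟨fun n => (j0, n, false), fun a b h => by simpa using h⟩ :
          Y1 ↪ Fin k × Y1 × Bool) n) = - (c j0 • x j0) := by
      intro n hn
      change - (c j0 • ρ (n : Y) (x j0)) = _
      rw [hx3 j0 _ (Finset.mem_filter.1 hn).2]
    rw [Finset.sum_congr rfl h2, Finset.sum_const, smul_neg, neg_eq_zero] at h1
    have h3 : addOrderOf (x j0) = q := addOrderOf_eq_prime (by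
      rw [← hW (x j0), natCast_zsmul]) (hx2 j0)
    have h5 : (((Finset.univ.filter fun n : Y1 => σ n = 1).card : ℤ) * c j0) • x j0 = 0 := by
      rw [mul_smul, natCast_zsmul]
      exact h1
    have h6 : (q : ℤ) ∣ ((Finset.univ.filter fun n : Y1 => σ n = 1).card : ℤ) * c j0 := by
      rw [← h3]
      exact addOrderOf_dvd_iff_zsmul_eq_zero.2 h5
    have h7 : (Finset.univ.filter fun n : Y1 => σ n = 1).card ∣ Nat.card Y := by
      have h8 : (Finset.univ.filter fun n : Y1 => σ n = 1).card =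
          Nat.card (σ.comp Y1.subtype).ker := by
        rw [Nat.card_eq_fintype_card, Fintype.card_subtype]
        congr 1
        ext n
        simp [MonoidHom.mem_ker]
      rw [h8]
      exact (Subgroup.card_subgroup_dvd_card _).trans (Subgroup.card_subgroup_dvd_card _)
    rcases (Int.Prime.dvd_mul' hq h6) with h8 | h8
    · exfalso
      exact hqY ((Int.natCast_dvd_natCast.1 h8).trans h7)
    · exact h8

end Pool.Agent.Work.MP_b44cb1_al.R2
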