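import Pool.Agent.Work.MP_b44cb1_al.Full.R2.AReg

/-!
# R2/ARegD (M) : functionals in different orbits

`reg_dual` (S) : apply `reg` to `M = (J →+ ZMod p)` with `(y m) x = m (σ y⁻¹ x)`; if `y` acts trivially on
all functionals then `σ y = 1` (functionals separate points of `J`, since `p J = 0`: `J` is a `ZMod p`-module,
`Module.forall_dual_apply_eq_zero_iff`).
`orb_fam` : `X = (Fin k' → J)`, `k' ≥ 1`, with `Y` acting componentwise (`σX`). Let `m1` be from `reg_dual`.
The functionals `m x = m1 (x 0) + sum_{s ≥ 1} m_s (x s)` with arbitrary `m_s : J →+ ZMod p`: there are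
`|J|^(k'-1)` of them (`dual_card`; index them by `Fin`). If `m (σX y x) = m' x` for all `x` then, with
`x` supported at `0`, `m1 (σ y x) = m1 x`, so `σ y = 1`, hence `σX y = 1` and `m = m'`.
-/

set_option autoImplicit false
set_option linter.style.haveILetI false

namespace Pool.Agent.Work.MP_b44cb1_al.R2

private theorem sep_aux {J : Type} [AddCommGroup J] (p : ℕ) [Fact p.Prime]
    [Module (ZMod p) J] (x : J) (h : ∀ m : J →+ ZMod p, m x = 0) : x = 0 :=
  (Module.forall_dual_apply_eq_zero_iff (ZMod p) x).1 (fun g => h g.toAddMonoidHom)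

private theorem sep {J : Type} [AddCommGroup J] (p : ℕ) (hp : p.Prime)
    (hJ : ∀ x : J, (p : ℤ) • x = 0) (x : J) (h : ∀ m : J →+ ZMod p, m x = 0) : x = 0 := by
  haveI : Fact p.Prime := ⟨hp⟩
  letI : Module (ZMod p) J := AddCommGroup.zmodModule (fun x => by
    have := hJ x
    rwa [natCast_zsmul] at this)
  exact sep_aux p x h

private def sdual {Y J : Type} [Group Y] [AddCommGroup J] (p : ℕ) (σ : Y →* LAut J) :
    Y →* LAut (J →+ ZMod p) where
  toFun y :=
    { toFun := fun m => m.comp (σ y⁻¹).toLinearMap.toAddMonoidHom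
      map_add' := fun a b => by ext x; rfl
      map_smul' := fun c a => by ext x; rfl
      invFun := fun m => m.comp (σ y).toLinearMap.toAddMonoidHom
      left_inv := fun m => by
        ext x
        show m (σ y⁻¹ (σ y x)) = m x
        rw [← LinearEquiv.mul_apply, ← map_mul, inv_mul_cancel, map_one, LinearEquiv.coe_one, id]
      right_inv := fun m => by
        ext x
        show m (σ y (σ y⁻¹ x)) = m x
        rw [← LinearEquiv.mul_apply, ← map_mul, mul_inv_cancel, map_one, LinearEquiv.coe_one, id] }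
  map_one' := by
    ext m x
    show m (σ 1⁻¹ x) = m x
    rw [inv_one, map_one, LinearEquiv.coe_one, id]
  map_mul' y y' := by
    ext m x
    show m (σ (y * y')⁻¹ x) = m (σ y'⁻¹ (σ y⁻¹ x))
    rw [mul_inv_rev, map_mul, LinearEquiv.mul_apply]

private theorem sdual_apply {Y J : Type} [Group Y] [AddCommGroup J] (p : ℕ) (σ : Y →* LAut J)
    (y : Y) (m : J →+ ZMod p) (x : J) : sdual p σ y m x = m (σ y⁻¹ x) := rfl

theorem reg_dual {Y J : Type} [Group Y] [Finite Y] [Group.IsNilpotent Y]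
    (hodd : Odd (Nat.card Y)) [AddCommGroup J] [Finite J] (p : ℕ) (hp : p.Prime) (hp2 : p ≠ 2)
    (hpY : ¬ p ∣ Nat.card Y) (hJ : ∀ x : J, (p : ℤ) • x = 0) (σ : Y →* LAut J) :
    ∃ m : J →+ ZMod p, ∀ y, (∀ x, m (σ y x) = m x) → σ y = 1 := by
  haveI : NeZero p := ⟨hp.ne_zero⟩
  haveI : Finite (J →+ ZMod p) := DFunLike.finite _
  obtain ⟨m, hm⟩ := reg hodd p hp hp2 hpY (M := J →+ ZMod p) (fun g => by
    ext x
    simp) (sdual p σ)
  refine ⟨m, fun y hy => ?_⟩
  have h1 : sdual p σ y⁻¹ = 1 := by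
    apply hm
    ext x
    rw [sdual_apply, inv_inv]
    exact hy x
  ext x
  have h2 : σ y x - x = 0 := by
    apply sep p hp hJ
    intro m'
    have h3 : sdual p σ y⁻¹ m' x = m' x := by rw [h1]; rfl
    rw [sdual_apply, inv_inv] at h3
    rw [map_sub, h3, sub_self]
  exact sub_eq_zero.1 h2

theorem orb_fam {Y J : Type} [Group Y] [Finite Y] [Group.IsNilpotent Y]
    (hodd : Odd (Nat.card Y)) [AddCommGroup J] [Finite J] (p : ℕ) (hp : p.Prime) (hp2 : p ≠ 2)
    (hpY : ¬ p ∣ Nat.card Y) (hJ : ∀ x : J, (p : ℤ) • x = 0) (σ : Y →* LAut J) (k : ℕ)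
    (hk : 1 ≤ k) (σX : Y →* LAut (Fin k → J)) (hσ : ∀ y x s, σX y x s = σ y (x s)) :
    ∃ m : Fin (Nat.card J ^ (k - 1)) → (Fin k → J) →+ ZMod p, Orb p σX m := by
  haveI : NeZero p := ⟨hp.ne_zero⟩
  haveI : Finite (J →+ ZMod p) := DFunLike.finite _
  obtain ⟨k', rfl⟩ : ∃ k', k = k' + 1 := ⟨k - 1, by omega⟩
  obtain ⟨m1, hm1⟩ := reg_dual hodd p hp hp2 hpY hJ σ
  have hcard : Nat.card (Fin k' → (J →+ ZMod p)) = Nat.card J ^ (k' + 1 - 1) := by
    rw [Nat.card_fun, dual_card p hp hJ, Nat.card_fin, Nat.add_sub_cancel]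
  let e : Fin (Nat.card J ^ (k' + 1 - 1)) ≃ (Fin k' → (J →+ ZMod p)) :=
    (Finite.equivFinOfCardEq hcard).symm
  let m : Fin (Nat.card J ^ (k' + 1 - 1)) → (Fin (k' + 1) → J) →+ ZMod p := fun i =>
    { toFun := fun x => m1 (x 0) + ∑ s : Fin k', e i s (x s.succ)
      map_zero' := by simp
      map_add' := fun a b => by
        simp only [Pi.add_apply, map_add, Finset.sum_add_distrib]
        abel }
  have hmap : ∀ i x, m i x = m1 (x 0) + ∑ s : Fin k', e i s (x s.succ) := fun i x => rfl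
  refine ⟨m, fun j j' y h => ?_⟩
  have h1 : σ y = 1 := by
    apply hm1
    intro a
    have h2 := h (Pi.single 0 a)
    rw [hmap, hmap, hσ] at h2
    simp only [hσ, Pi.single_eq_same, ne_eq, Fin.succ_ne_zero, not_false_eq_true,
      Pi.single_eq_of_ne, map_zero, Finset.sum_const_zero, add_zero] at h2
    exact h2
  have h3 : σX y = 1 := by
    ext x s
    rw [hσ, h1]
    rfl
  refine ⟨h3, ?_⟩
  apply e.injective
  funext s
  ext a
  have h4 := h (Pi.single s.succ a)
  rw [h3, hmap, hmap] at h4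
  have h5 : ∀ i, ∑ t : Fin k', e i t ((Pi.single s.succ a : Fin (k' + 1) → J) t.succ) = e i s a := by
    intro i
    rw [Finset.sum_eq_single s]
    · rw [Pi.single_eq_same]
    · intro t _ ht
      rw [Pi.single_eq_of_ne (fun h => ht (Fin.succ_injective _ h)), map_zero]
    · intro h; exact absurd (Finset.mem_univ _) h
  rw [LinearEquiv.coe_one, id, h5, h5] at h4
  exact add_left_cancel h4

end Pool.Agent.Work.MP_b44cb1_al.R2
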