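import Pool.Agent.Work.MP_b44cb1_al.Full.R2.ABuild
import Pool.Agent.Work.MP_b44cb1_al.Full.R2.ALast
import Pool.Agent.Work.MP_b44cb1_al.Full.R2.ARegD
import Pool.Agent.Work.MP_b44cb1_al.Full.R2.AData

/-!
# R2/AStep (S-M) : the abstract step and the abstract last step (assembly)

`step_abs` : `wdata_of` (with `A` = the subgroup of all `a` with `f' (a w) (a w') = f' w w'`; build it as a
`Subgroup`), `orb_fam` for `J` (`p J = 0` : `φ 0` is injective into `W`, `esa_expo`; use `OFW.inj`),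
`build`. The index of the kernel: `σX.ker = σ.ker` (`σX y = 1 ↔ σ y = 1`), and `σ y = 1 → ρ y = 1`
(`OFW.fix`), conversely `ρ y = 1 → σ y = 1` (`φ 0` injective and equivariant): so `σX.ker = ρ.ker`.
`last_abs` : `wdata_of` with `A = ⊤`, `orb_fam`, `last_indep`.
-/

set_option autoImplicit false

namespace Pool.Agent.Work.MP_b44cb1_al.R2

open scoped commutatorElement

private theorem ofw_inj1 {Y W R J : Type} [Group Y] [AddCommGroup W] [AddCommGroup R]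
    [AddCommGroup J] {ρ : Y →* LAut W} {f : W →+ W →+ R} {σ : Y →* LAut J} {k : ℕ}
    {φ : Fin k → J →+ W} (ho : OFW ρ f σ φ) (l : Fin k) : Function.Injective (φ l) := by
  classical
  rw [injective_iff_map_eq_zero]
  intro j hj
  have h1 := ho.inj (Pi.single l j) (by
    rw [Finset.sum_eq_single l]
    · rw [Pi.single_eq_same]; exact hj
    · intro b _ hb
      rw [Pi.single_eq_of_ne hb, map_zero]
    · intro h; exact absurd (Finset.mem_univ _) h)
  have h2 := congrFun h1 l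
  rw [Pi.single_eq_same] at h2
  exact h2

private theorem ofw_ker {Y W R J : Type} [Group Y] [AddCommGroup W] [AddCommGroup R]
    [AddCommGroup J] {ρ : Y →* LAut W} {f : W →+ W →+ R} {σ : Y →* LAut J} {k : ℕ}
    {φ : Fin k → J →+ W} (ho : OFW ρ f σ φ) (l : Fin k) (y : Y) : σ y = 1 ↔ ρ y = 1 := by
  refine ⟨ho.fix y, fun h => ?_⟩
  ext x
  apply ofw_inj1 ho l
  rw [ho.eqv, h]
  rfl

theorem step_abs {Y E W W' J R : Type} [Group Y] [Finite Y] [Group.IsNilpotent Y]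
    (hodd : Odd (Nat.card Y)) [Group E] [Finite E]
    [AddCommGroup W] [Finite W] [AddCommGroup W'] [Finite W'] [Nontrivial W'] [AddCommGroup J]
    [Finite J] [AddCommGroup R] (p q : ℕ) (hp : p.Prime) (hp2 : p ≠ 2) (hq : q.Prime)
    (hpq : p ≠ q) (hpY : ¬ p ∣ Nat.card Y) (hqY : ¬ q ∣ Nat.card Y)
    (hW' : ∀ w : W', (q : ℤ) • w = 0)
    (κ : Y →* MulAut E) (π : E → W) (ρ : Y →* LAut W)
    (f : W →+ W →+ ZMod p) (z : E) (αE : E →* LAut W') (αY : Y →* LAut W')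
    (h : ESA p κ π ρ f z αE αY) (σ : Y →* LAut J) {k : ℕ} (hk : 3 ≤ k) (φ : Fin k → J →+ W)
    (ho : OFW ρ f σ φ) (f' : W' →+ W' →+ R) (hfE : ∀ e w w', f' (αE e w) (αE e w') = f' w w')
    (hfY : ∀ y w w', f' (αY y w) (αY y w') = f' w w') :
    ∃ (J' : Type) (_ : AddCommGroup J') (_ : Finite J') (σ' : Y →* LAut J')
      (φ' : Fin (Nat.card J ^ (k / 3 - 1)) → J' →+ W'),
      OFW αY f' σ' φ' ∧ ∀ a : ℕ, a ≤ ρ.ker.index → q ^ a ≤ Nat.card J' := by
  let A : Subgroup (LAut W') :=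
    { carrier := {a | ∀ w w', f' (a w) (a w') = f' w w'}
      one_mem' := fun w w' => rfl
      mul_mem' := by
        intro a b ha hb w w'
        show f' (a (b w)) (a (b w')) = f' w w'
        rw [ha, hb]
      inv_mem' := by
        intro a ha w w'
        have h1 := ha (a⁻¹ w) (a⁻¹ w')
        have h2 : ∀ v : W', a (a⁻¹ v) = v := fun v => by
          show (a * a⁻¹) v = v
          rw [mul_inv_cancel]; rfl
        rw [h2, h2] at h1
        exact h1.symm }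
  have hE : ∀ e, αE e ∈ A := fun e => hfE e
  have hY : ∀ y, αY y ∈ A := fun y => hfY y
  obtain ⟨σX, T, hσX, hσ1, hd⟩ :=
    wdata_of p hp hpY κ π ρ f z αE αY h σ hk φ ho A hE hY
  have hl : 0 < k := by omega
  have hJ : ∀ x : J, (p : ℤ) • x = 0 := by
    intro x
    apply ofw_inj1 ho ⟨0, hl⟩
    rw [map_zsmul, map_zero]
    exact esa_expo p hp κ π ρ f z αE αY h _
  have hK : 1 ≤ k / 3 := Nat.div_pos hk (by norm_num)
  obtain ⟨m, hm⟩ := orb_fam hodd p hp hp2 hpY hJ σ (k / 3) hK σX hσX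
  have hcard : 1 ≤ Nat.card J ^ (k / 3 - 1) := Nat.pow_pos Nat.card_pos
  obtain ⟨J', i1, i2, σ', φ', h1, h2⟩ :=
    build p q hp hq hpq hqY hW' A σX αY T (αE z) hd f' (fun a ha => ha) hcard m hm
  refine ⟨J', i1, i2, σ', φ', h1, fun a ha => h2 a ?_⟩
  have hker : σX.ker = ρ.ker := by
    ext y
    rw [MonoidHom.mem_ker, MonoidHom.mem_ker, hσ1, ofw_ker ho ⟨0, hl⟩]
  rw [hker]
  exact ha

theorem last_abs {Y E W W' J : Type} [Group Y] [Finite Y] [Group.IsNilpotent Y]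
    (hodd : Odd (Nat.card Y)) [Group E] [Finite E]
    [AddCommGroup W] [Finite W] [AddCommGroup W'] [Finite W'] [Nontrivial W'] [AddCommGroup J]
    [Finite J] (p q : ℕ) (hp : p.Prime) (hp2 : p ≠ 2) (hq : q.Prime)
    (hpq : p ≠ q) (hpY : ¬ p ∣ Nat.card Y) (hqY : ¬ q ∣ Nat.card Y)
    (hW' : ∀ w : W', (q : ℤ) • w = 0)
    (κ : Y →* MulAut E) (π : E → W) (ρ : Y →* LAut W)
    (f : W →+ W →+ ZMod p) (z : E) (αE : E →* LAut W') (αY : Y →* LAut W')
    (h : ESA p κ π ρ f z αE αY) (σ : Y →* LAut J) {k : ℕ} (hk : 3 ≤ k) (φ : Fin k → J →+ W)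
    (ho : OFW ρ f σ φ) (Y1 : Subgroup Y) (hY1 : ρ.ker ≤ Y1) (w0 : W') (hw0 : w0 ≠ 0)
    (hfix : ∀ y, ρ y = 1 → αY y w0 = w0) (q1 : Y) (hq1 : q1 ∉ Y1) :
    ∃ v : Fin (Nat.card J ^ (k / 3 - 1)) → W', (∀ j, ∀ y ∈ Y1, αY y (v j) = v j) ∧
      ∀ c : Fin (Nat.card J ^ (k / 3 - 1)) → ℤ,
        ∑ j, c j • (αY q1 (v j) - v j) = 0 → ∀ j, (q : ℤ) ∣ c j := by
  obtain ⟨σX, T, hσX, hσ1, hd⟩ :=
    wdata_of p hp hpY κ π ρ f z αE αY h σ hk φ ho ⊤ (fun _ => Subgroup.mem_top _)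
      (fun _ => Subgroup.mem_top _)
  have hl : 0 < k := by omega
  have hJ : ∀ x : J, (p : ℤ) • x = 0 := by
    intro x
    apply ofw_inj1 ho ⟨0, hl⟩
    rw [map_zsmul, map_zero]
    exact esa_expo p hp κ π ρ f z αE αY h _
  have hK : 1 ≤ k / 3 := Nat.div_pos hk (by norm_num)
  obtain ⟨m, hm⟩ := orb_fam hodd p hp hp2 hpY hJ σ (k / 3) hK σX hσX
  have hker : ∀ y, σX y = 1 → ρ y = 1 := fun y hy => ho.fix y ((hσ1 y).1 hy)
  exact last_indep p q hp hq hpq hqY hW' ⊤ σX αY T (αE z) hd m hm Y1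
    (fun y hy => hY1 (MonoidHom.mem_ker.2 (hker y (MonoidHom.mem_ker.1 hy)))) w0 hw0
    (fun y hy => hfix y (hker y hy)) q1 hq1

end Pool.Agent.Work.MP_b44cb1_al.R2
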