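import Pool.Agent.Work.MP_b44cb1_al.Full.R2.BEsa
import Pool.Agent.Work.MP_b44cb1_al.Full.R2.AStep

/-!
# R2/BEnd (M-L) : the last layer

Let `L'` be a model of layer `u = i + 1` (`exists_LMod`), `q = p (i+1)`, `B = Dk P i ≤ Gs P i ≤ Gs P (i+1)`, nilpotent
(`T.dk_nil`), of odd order (`gs_odd`), prime to `q` (`T.cop_le`). `L'.hom` gives `s : B →* LAut W'`. `mono` for `s` on
`W'` (nontrivial, `q W' = 0`) gives `S1, S2 : Subgroup B`; let `S = (S1.map B.subtype, S2.map B.subtype)`. `CycP S` :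
translate the three properties. The pair depends only on the tower, not on `Y`.

Now let `Y, Y1, Q, k, N` be as in the statement. Unpack `HasO` : `L, F` (model of layer `i`), `ρ, J, σ, φ`. `esa_of` gives
`ESA`. `ρ y = 1 ↔ y ∈ Dk P i` (`LMod.aone_iff`).
(1) `w0` : let `T' = Y1 ⊓ B` as a subgroup of `B`; `T' ⊓ S1 ≤ S2` because `Y1 ⊓ S.1 ≤ S.2`. So `mono` gives `w0 ≠ 0` in `W'`
fixed by `α' t`, `t ∈ Y1 ⊓ Dk P i`. If `y ∈ Y` and `ρ y = 1` then `y ∈ Y ⊓ Dk P i ≤ Y1`, so `αY y w0 = w0`.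
(2) `last_abs` with `Y1.subgroupOf Y` (contains `ρ.ker`), `q1 ∈ Q ≤ Y`, `q1 ∉ Y1` : vectors `v j ∈ W'`, `j : Fin K`,
`K = |J| ^ (k/3 - 1)`, fixed by `α' y`, `y ∈ Y1`, such that the `d j = α' q1 (v j) - v j` satisfy only relations
with coefficients divisible by `q`.
(3) K3 (`h3`) for the `q`-group `P (i+1)`, `Fr (p (i+1)) (P (i+1))`, and `Y1` (`Y1 ≤ Y` is nilpotent, its order is prime to
`q`, it normalises `P (i+1)`, `nz_fr`): take `x ∈ P (i+1)` with `π' x = v j`; `b x b⁻¹ x⁻¹ ∈ Fr` for `b ∈ Y1`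
(`LMod.eq_iff`). So there is `x_j ∈ P (i+1) ⊓ centralizer Y1` with `π' x_j = v j`.
(4) `H` = the image of `R = ⁅P (i+1) ⊓ centralizer Y1, Q⁆ ≤ P (i+1)` (`LMod.image`; `R ≤ P (i+1)` because
`Q ≤ Gs P (i+1)` normalises `P (i+1)`), of size `(Fr ..).relIndex R`. `⁅x_j, q1⁆ = x_j (q1 x_j⁻¹ q1⁻¹) ∈ R` has image
`v j - α' q1 (v j) = - d j`, so `d j ∈ H`.
(5) The map `(Fin K → ZMod q) → H`, `c ↦ sum_j (c j).val • d j`, is injective: if two images are equal, subtract (as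
integers): `q` divides `(c j).val - (c' j).val`, so `c j = c' j`. So `q ^ K ≤ |H|`, and `N ≤ |J|`.
-/

set_option autoImplicit false

namespace Pool.Agent.Work.MP_b44cb1_al.R2

open Subgroup
open scoped commutatorElement

variable {G : Type} [Group G] [Finite G] {P : ℕ → Subgroup G} {p : ℕ → ℕ} {n : ℕ}

theorem r2_end (T : MTow P p n) (h3 : K3p G) (h5 : K5p G) (h6 : K6p G)
    (hodd : ∀ i < n, p i ≠ 2) {i : ℕ} (h1 : 1 ≤ i) (hi : i + 1 < n) :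
    ∃ S : Subgroup G × Subgroup G, CycP S ∧
      ∀ (Y Y1 Q : Subgroup G) (k N : ℕ), Y ≤ Gs P i → Group.IsNilpotent Y → 3 ≤ k →
        HasO P p i Y k N → Y1 ≤ Y → Y ⊓ Dk P i ≤ Y1 → Q ≤ Y → (∃ q ∈ Q, q ∉ Y1) →
        Y1 ⊓ S.1 ≤ S.2 →
        (p (i + 1)) ^ (N ^ (k / 3 - 1)) ≤
          (Fr (p (i + 1)) (P (i + 1))).relIndex
            ⁅P (i + 1) ⊓ centralizer (Y1 : Set G), Q⁆ := by
  have hin : i < n := by omega
  have hp : (p i).Prime := T.prime i hin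
  have hq : (p (i + 1)).Prime := T.prime (i + 1) hi
  have hGle : Gs P i ≤ Gs P (i + 1) := gs_mono' P (Nat.le_succ i)
  obtain ⟨W', iW', fW', π', α', L'⟩ := exists_LMod T.toWTow hi
  have hW'nt : Nontrivial W' := L'.nontriv T.toWTow h6 hi (T.nontriv (i + 1) hi)
  have hBG : Dk P i ≤ Gs P (i + 1) := (dk_le P i).trans hGle
  have hBnil : Group.IsNilpotent (Dk P i) := T.dk_nil h5 hin
  have hBodd : Odd (Nat.card (Dk P i)) := gs_odd T.toWTow hodd hin.le (dk_le P i)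
  have hBq : ¬ p (i + 1) ∣ Nat.card (Dk P i) := T.cop_le hi hBG
  obtain ⟨s, hs⟩ := L'.hom hBG
  obtain ⟨S1, S2, hS21, hSn, ⟨g, hgS, hSg⟩, hmono⟩ :=
    mono hBodd (p (i + 1)) hq (hodd (i + 1) hi) hBq L'.expo s
  refine ⟨(S1.map (Dk P i).subtype, S2.map (Dk P i).subtype), ⟨map_mono hS21, ?_, ?_⟩, ?_⟩
  · rintro _ ⟨a, ha, rfl⟩ _ ⟨b, hb, rfl⟩
    exact ⟨a * b * a⁻¹, hSn a ha b hb, by simp⟩
  · refine ⟨(Dk P i).subtype g, ⟨g, hgS, rfl⟩, ?_⟩
    have h := map_mono (f := (Dk P i).subtype) hSg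
    rw [Subgroup.map_sup, MonoidHom.map_zpowers] at h
    exact h
  intro Y Y1 Q k N hY hYnil hk hO hY1Y hYD hQY hQ hY1S
  obtain ⟨q0, hq0Q, hq0Y1⟩ := hQ
  obtain ⟨W, iW, fW, π, α, z, f, ρ, J, iJ, fJ, σ, φ, L, F, hρ, hofw, hNJ⟩ := hO
  obtain ⟨κ, αE, αY, zE, hαE, hαY, hesa⟩ := esa_of T h5 h1 hi L F L' hY ρ hρ
  have hYG : Y ≤ Gs P (i + 1) := hY.trans hGle
  -- the kernel of `Y` on `W`
  have hker : ∀ y : Y, ρ y = 1 → (y : G) ∈ Y1 ∧ (y : G) ∈ Dk P i := by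
    intro y hy
    rw [hρ y] at hy
    have h := (L.aone_iff T.toWTow h5 hin (hY y.2)).1 hy
    exact ⟨hYD ⟨y.2, h⟩, h⟩
  -- (1)
  obtain ⟨w0, hw0, hfix0⟩ := hmono (Y1.subgroupOf (Dk P i)) (by
    rintro b ⟨hb1, hb2⟩
    have h : (b : G) ∈ S2.map (Dk P i).subtype := hY1S ⟨hb1, ⟨b, hb2, rfl⟩⟩
    obtain ⟨b', hb', hbb'⟩ := h
    have h2 : b' = b := Subtype.ext hbb'
    rwa [← h2])
  have hfix : ∀ y : Y, ρ y = 1 → αY y w0 = w0 := by
    intro y hy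
    obtain ⟨h1, h2⟩ := hker y hy
    have h3 := hfix0 ⟨y, h2⟩ h1
    rw [hs] at h3
    rw [hαY]
    exact h3
  -- (2)
  have hpq : p i ≠ p (i + 1) := by
    intro h
    apply T.cop (i + 1) hi
    rw [← h]
    have : Fact (p i).Prime := ⟨hp⟩
    have h2 : p i ∣ Nat.card (P i) := by
      obtain ⟨m, hm⟩ := (T.pgrp i hin).exists_card_eq
      rcases Nat.eq_zero_or_pos m with h0 | h0
      · rw [h0, pow_zero] at hm
        exact absurd (Subgroup.card_eq_one.1 hm) (T.nontriv i hin)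
      · rw [hm]
        exact dvd_pow_self _ h0.ne'
    exact h2.trans (Subgroup.card_dvd_of_le (le_gs' P (Nat.lt_succ_self i)))
  obtain ⟨v, hv1, hv2⟩ := last_abs (gs_odd T.toWTow hodd hin.le hY) (p i) (p (i + 1)) hp
    (hodd i hin) hq hpq (T.cop_le hin hY) (T.cop_le hi hYG) L'.expo κ (fun x : P i => π x) ρ f zE
    αE αY hesa σ hk φ hofw (Y1.subgroupOf Y) (fun y hy => (hker y hy).1) w0 hw0 hfix
    ⟨q0, hQY hq0Q⟩ hq0Y1
  obtain ⟨K, hK⟩ : ∃ K, K = Nat.card J ^ (k / 3 - 1) := ⟨_, rfl⟩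
  -- (3)
  have hnz : Nz (Gs P (i + 1)) (P (i + 1)) := T.norm (i + 1) hi
  have hY1nil : Group.IsNilpotent Y1 := by
    have h : Group.IsNilpotent (Y1.subgroupOf Y) := inferInstance
    exact Group.nilpotent_of_mulEquiv (subgroupOfEquivOfLe hY1Y)
  have hx : ∀ j, ∃ y ∈ P (i + 1), (∀ b ∈ Y1, b * y = y * b) ∧ π' y = v j := by
    intro j
    obtain ⟨x, hx, hxv⟩ := L'.surj (v j)
    obtain ⟨y, hy, hyb, hxy⟩ := h3 (p (i + 1)) (P (i + 1)) (Fr (p (i + 1)) (P (i + 1))) Y1 hq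
      (T.pgrp (i + 1) hi) (fr_le _ _) (nz_fr _ (nz_self _)) (hnz.mono (hY1Y.trans hYG))
      (nz_fr _ (hnz.mono (hY1Y.trans hYG))) hY1nil (T.cop_le hi (hY1Y.trans hYG)) x hx (by
        intro b hb
        have hbG : b ∈ Gs P (i + 1) := hYG (hY1Y hb)
        have hbx : b * x * b⁻¹ ∈ P (i + 1) := hnz b hbG x hx
        rw [← L'.ker _ (mul_mem hbx (inv_mem hx)), L'.add _ hbx _ (inv_mem hx), L'.inv hx,
          L'.act b hbG x hx, hxv]
        have h := hv1 j ⟨b, hY1Y hb⟩ hb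
        rw [hαY] at h
        simp only at h
        rw [h, add_neg_cancel])
    refine ⟨y, hy, hyb, ?_⟩
    rw [← hxv]
    exact ((L'.eq_iff hx hy).2 hxy).symm
  choose y hy hyb hyv using hx
  -- (4)
  have hQG : Q ≤ Gs P (i + 1) := hQY.trans hYG
  have hR : ⁅P (i + 1) ⊓ centralizer (Y1 : Set G), Q⁆ ≤ P (i + 1) := by
    rw [commutator_le]
    intro a ha b hb
    have h := hnz b (hQG hb) _ (inv_mem ha.1)
    have h2 := mul_mem ha.1 h
    simpa [commutatorElement_def, mul_assoc] using h2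
  obtain ⟨H, hH, hHcard⟩ := L'.image hR
  rw [← hHcard]
  have hd : ∀ j, αY ⟨q0, hQY hq0Q⟩ (v j) - v j ∈ H := by
    intro j
    have h := (hH (-(αY ⟨q0, hQY hq0Q⟩ (v j) - v j))).2 ⟨⁅y j, q0⁆, ?_, ?_⟩
    · have h2 := H.neg_mem h
      rwa [neg_neg] at h2
    · refine commutator_mem_commutator ⟨hy j, ?_⟩ hq0Q
      exact mem_centralizer_iff.2 fun b hb => hyb j b hb
    · have hqG := hQG hq0Q
      have e1 : ⁅y j, q0⁆ = y j * (q0 * (y j)⁻¹ * q0⁻¹) := by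
        simp [commutatorElement_def, mul_assoc]
      rw [e1, L'.add _ (hy j) _ (hnz q0 hqG _ (inv_mem (hy j))), L'.act q0 hqG _ (inv_mem (hy j)),
        L'.inv (hy j), hyv, hαY]
      simp only [map_neg]
      abel
  -- (5)
  have : Fact (p (i + 1)).Prime := ⟨hq⟩
  let Φ : (Fin (Nat.card J ^ (k / 3 - 1)) → ZMod (p (i + 1))) → H := fun c =>
    ⟨∑ j, ((c j).val : ℤ) • (αY ⟨q0, hQY hq0Q⟩ (v j) - v j),
      H.sum_mem fun j _ => H.zsmul_mem (hd j) _⟩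
  have hΦ : Function.Injective Φ := by
    intro c c' hcc
    have h := congrArg Subtype.val hcc
    simp only [Φ] at h
    have h2 : ∑ j, (((c j).val : ℤ) - ((c' j).val : ℤ)) •
        (αY ⟨q0, hQY hq0Q⟩ (v j) - v j) = 0 := by
      simp only [sub_smul, Finset.sum_sub_distrib]
      rw [h, sub_self]
    funext j
    have h3 := hv2 _ h2 j
    rw [← ZMod.intCast_zmod_eq_zero_iff_dvd] at h3
    push_cast at h3
    rw [ZMod.natCast_zmod_val, ZMod.natCast_zmod_val] at h3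
    exact sub_eq_zero.1 h3
  have hcard := Nat.card_le_card_of_injective Φ hΦ
  rw [Nat.card_fun, Nat.card_fin, Nat.card_zmod] at hcard
  refine le_trans ?_ hcard
  exact Nat.pow_le_pow_right hq.pos (Nat.pow_le_pow_left hNJ _)

end Pool.Agent.Work.MP_b44cb1_al.R2
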