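import Pool.Agent.Work.MP_b44cb1_al.Full.R2.BMod

/-!
# R2/BKer (S-M) : the kernels on `Y = N Q`

* `r2_notin` : every element of `N ⊔ Fr Q` is a product `a f`, `a ∈ N`, `f ∈ Fr Q ≤ Q` (`N` commutes with `Q`). If
  `q = a f` then `a = q f⁻¹ ∈ Q ≤ P c`, so the order of `a` is a power of `p c`; it divides `|N|` which is prime to
  `p c` (`T.cop_le`), so `a = 1` and `q = f ∈ Fr (p c) Q ≤ Fr (p c) (P c)` (`fr_mono`), contradiction.
* `q_inf_dk` : `Q ⊓ Dk P i ≤ P c ⊓ Dk P i ≤ Kr P c` (`T.inf_dk_le`, `c < i`) `≤ Fr (p c) (P c)` (`T.kfr`), now `hQf`.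
* `r2_inf_le` : `y = a q ∈ Dk P i`, `a ∈ N`, `q ∈ Q` (commuting, coprime orders): `q` is a power of `y` (let
  `m = Nat.card N`, `m` prime to `p c`; `y ^ m = q ^ m`, and `q` is a power of `q ^ m` as its order is a power of `p c`).
  So `q ∈ Q ⊓ Dk P i ≤ Fr (p c) Q`.
* `r2_relIndex` : `(Fr (p c) Q).relIndex Q ≤ (Dk P i).relIndex Q ≤ (Dk P i).relIndex (N ⊔ Q)` : the first by
  `q_inf_dk` (a smaller subgroup of `Q` has larger index), the second: relative index is monotone in the second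
  argument (`Subgroup.relIndex_le_of_le_right`, everything finite).
-/

set_option autoImplicit false

namespace Pool.Agent.Work.MP_b44cb1_al.R2

open Subgroup
open scoped commutatorElement

variable {G : Type} [Group G] [Finite G] {P : ℕ → Subgroup G} {p : ℕ → ℕ} {n : ℕ}

private theorem mem_sup_cz {A B : Subgroup G} (h : Cz A B) {g : G} (hg : g ∈ A ⊔ B) :
    ∃ a ∈ A, ∃ b ∈ B, g = a * b := by
  have hc : ∀ (a : A) (b : B), Commute (a : G) (b : G) := fun a b => h a a.2 b b.2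
  have h1 : (MonoidHom.noncommCoprod A.subtype B.subtype hc).range = A ⊔ B := by
    rw [MonoidHom.noncommCoprod_range, Subgroup.range_subtype, Subgroup.range_subtype]
  rw [← h1] at hg
  obtain ⟨⟨a, b⟩, hab⟩ := hg
  exact ⟨a, a.2, b, b.2, hab.symm⟩

private theorem inf_gs_bot (T : WTow P p n) {j : ℕ} (hj : j < n) {v : G} (hv : v ∈ P j)
    (hv' : v ∈ Gs P j) : v = 1 := by
  by_contra hne
  have hp : Fact (p j).Prime := ⟨T.prime j hj⟩
  obtain ⟨k, hk⟩ := (IsPGroup.iff_orderOf.1 (T.pgrp j hj)) ⟨v, hv⟩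
  rw [Subgroup.orderOf_mk] at hk
  have h1 : orderOf v ∣ Nat.card (Gs P j) := Subgroup.orderOf_dvd_natCard _ hv'
  have hk0 : k ≠ 0 := by
    rintro rfl
    rw [pow_zero, orderOf_eq_one_iff] at hk
    exact hne hk
  apply T.cop j hj
  refine Dvd.dvd.trans ?_ h1
  rw [hk]
  exact dvd_pow_self _ hk0

private theorem q_inf_dk (T : MTow P p n) (h5 : K5p G) {c i : ℕ} (hci : c < i) (hi : i < n)
    {Q : Subgroup G} (hQ : Q ≤ P c) (hQf : Q ⊓ Fr (p c) (P c) ≤ Fr (p c) Q) :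
    Q ⊓ Dk P i ≤ Fr (p c) Q := by
  rintro x ⟨hx, hx'⟩
  exact hQf ⟨hx, T.kfr c (by omega) (T.inf_dk_le h5 hci hi ⟨hQ hx, hx'⟩)⟩

theorem r2_notin (T : MTow P p n) {c : ℕ} (hc : c < n) {N Q : Subgroup G} (hN : N ≤ Gs P c)
    (hQ : Q ≤ P c) (hNQ : Cz N Q) {q : G} (hq : q ∈ Q) (hqf : q ∉ Fr (p c) (P c)) :
    q ∉ N ⊔ Fr (p c) Q := by
  intro h
  have hNF : Cz N (Fr (p c) Q) := fun a ha b hb => hNQ a ha b (fr_le _ _ hb)
  obtain ⟨a, ha, b, hb, rfl⟩ := mem_sup_cz hNF h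
  have haQ : a ∈ Q := by
    have e : a = a * b * b⁻¹ := by group
    rw [e]
    exact mul_mem hq (inv_mem (fr_le _ _ hb))
  have ha1 : a = 1 := inf_gs_bot T.toWTow hc (hQ haQ) (hN ha)
  subst ha1
  rw [one_mul] at hqf
  exact hqf (fr_mono _ hQ hb)

theorem r2_inf_le (T : MTow P p n) (h5 : K5p G) {c i : ℕ} (hci : c < i) (hi : i < n)
    {N Q : Subgroup G} (hN : N ≤ Gs P c) (hQ : Q ≤ P c) (hNQ : Cz N Q)
    (hQf : Q ⊓ Fr (p c) (P c) ≤ Fr (p c) Q) : (N ⊔ Q) ⊓ Dk P i ≤ N ⊔ Fr (p c) Q := by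
  rintro y ⟨hy, hy'⟩
  obtain ⟨x, hx, v, hv, rfl⟩ := mem_sup_cz hNQ hy
  have hc : c < n := by omega
  have hxv : Commute x v := hNQ x hx v hv
  have hp : Fact (p c).Prime := ⟨T.toWTow.prime c hc⟩
  have hcop : Nat.Coprime (orderOf x) (orderOf v) := by
    obtain ⟨k, hk⟩ := (IsPGroup.iff_orderOf.1 (T.toWTow.pgrp c hc)) ⟨v, hQ hv⟩
    rw [Subgroup.orderOf_mk] at hk
    rw [hk]
    apply Nat.Coprime.pow_right
    rw [Nat.coprime_comm, Nat.Prime.coprime_iff_not_dvd (T.toWTow.prime c hc)]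
    intro hd
    exact T.toWTow.cop c hc (hd.trans (Subgroup.orderOf_dvd_natCard _ (hN hx)))
  obtain ⟨k, hk1, hk2⟩ := Nat.chineseRemainder hcop 0 1
  have hgk : (x * v) ^ k = v := by
    rw [hxv.mul_pow]
    have h1 : x ^ k = 1 := by
      have := (pow_eq_pow_iff_modEq (x := x) (n := k) (m := 0)).2 hk1
      rwa [pow_zero] at this
    have h2 : v ^ k = v := by
      have := (pow_eq_pow_iff_modEq (x := v) (n := k) (m := 1)).2 hk2
      rwa [pow_one] at this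
    rw [h1, h2, one_mul]
  have hvD : v ∈ Dk P i := by
    rw [← hgk]
    exact pow_mem hy' k
  exact mul_mem (mem_sup_left hx) (mem_sup_right (q_inf_dk T h5 hci hi hQ hQf ⟨hv, hvD⟩))

theorem r2_relIndex (T : MTow P p n) (h5 : K5p G) {c i : ℕ} (hci : c < i) (hi : i < n)
    {N Q : Subgroup G} (hQ : Q ≤ P c)
    (hQf : Q ⊓ Fr (p c) (P c) ≤ Fr (p c) Q) :
    (Fr (p c) Q).relIndex Q ≤ (Dk P i).relIndex (N ⊔ Q) := by
  have h1 : (Fr (p c) Q).relIndex Q ≤ (Dk P i).relIndex Q := by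
    rw [← Subgroup.inf_relIndex_right (Dk P i) Q, inf_comm]
    exact Subgroup.relIndex_le_of_le_left (q_inf_dk T h5 hci hi hQ hQf)
      Subgroup.index_ne_zero_of_finite
  exact h1.trans (Subgroup.relIndex_le_of_le_right le_sup_right
    Subgroup.index_ne_zero_of_finite)

end Pool.Agent.Work.MP_b44cb1_al.R2
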