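import Pool.Agent.Work.MP_b44cb1_al.Full.Defs

/-!
# R2/BNum (S) : numbers

* `num1` : `11 ^ a ≥ 11` and `11 ^ a ≥ a`; `x ^ 39 ≥ x ^ 2 ≥ 121` and `x ^ 39 ≥ x` for `x ≥ 11`.
* `num2` : `k / 3 ≥ (k - 2) / 3`, so `3 (k/3 - 1) ≥ k - 5`. `N ^ (k/3 - 1) ≥ 11 ^ (k/3 - 1)` and it is enough that
  `8 * 11 ^ 3 ^ ...`. Simple way: let `m = k / 3 - 1 ≥ 39`, `k ≤ 3 m + 5`, and `2 ^ (3 m + 5) = 32 * 8 ^ m ≤ 11 ^ m` for
  `m ≥ 39` : `(11 / 8) ^ 39 > 32`, by induction on `m` from `32 * 8 ^ 39 ≤ 11 ^ 39` (`norm_num`).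
* `tow_mono`, `tow_succ_le` : induction; `x < 2 ^ x`.
-/

set_option autoImplicit false

namespace Pool.Agent.Work.MP_b44cb1_al.R2

theorem num1 {a M : ℕ} (ha : 1 ≤ a) (hM : 11 ^ a ≤ M) : 121 ≤ M ^ 39 ∧ a ≤ M ^ 39 ∧ 11 ≤ M := by
  have h1 : 11 ^ 1 ≤ 11 ^ a := Nat.pow_le_pow_right (by norm_num) ha
  have h2 : 11 ≤ M := by
    rw [pow_one] at h1
    exact h1.trans hM
  have h3 : a < 11 ^ a := Nat.lt_pow_self (by norm_num)
  have h4 : M ^ 2 ≤ M ^ 39 := Nat.pow_le_pow_right (by omega) (by norm_num)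
  have h5 : M ^ 1 ≤ M ^ 39 := Nat.pow_le_pow_right (by omega) (by norm_num)
  rw [pow_one] at h5
  refine ⟨?_, by omega, h2⟩
  calc 121 = 11 ^ 2 := by norm_num
    _ ≤ M ^ 2 := Nat.pow_le_pow_left h2 2
    _ ≤ M ^ 39 := h4

private theorem num2_aux (m : ℕ) (hm : 39 ≤ m) : 2 ^ (3 * m + 5) ≤ 11 ^ m := by
  induction m, hm using Nat.le_induction with
  | base => norm_num
  | succ m _ ih =>
    calc 2 ^ (3 * (m + 1) + 5) = 8 * 2 ^ (3 * m + 5) := by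
          rw [show 3 * (m + 1) + 5 = 3 + (3 * m + 5) by ring, pow_add]
          norm_num
      _ ≤ 11 * 11 ^ m := Nat.mul_le_mul (by norm_num) ih
      _ = 11 ^ (m + 1) := by rw [pow_succ, mul_comm]

theorem num2 {N k : ℕ} (hN : 11 ≤ N) (hk : 121 ≤ k) : 2 ^ k ≤ N ^ (k / 3 - 1) := by
  have h1 : 39 ≤ k / 3 - 1 := by omega
  have h2 : k ≤ 3 * (k / 3 - 1) + 5 := by omega
  calc 2 ^ k ≤ 2 ^ (3 * (k / 3 - 1) + 5) := Nat.pow_le_pow_right (by norm_num) h2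
    _ ≤ 11 ^ (k / 3 - 1) := num2_aux _ h1
    _ ≤ N ^ (k / 3 - 1) := Nat.pow_le_pow_left hN _

theorem tow_mono {x y : ℕ} (t : ℕ) (h : x ≤ y) : tow t x ≤ tow t y := by
  induction t with
  | zero => exact h
  | succ t ih => exact Nat.pow_le_pow_right (by norm_num) ih

theorem tow_le_succ (t x : ℕ) : tow t x ≤ tow (t + 1) x := by
  show tow t x ≤ 2 ^ tow t x
  exact (Nat.lt_pow_self (by norm_num)).le

end Pool.Agent.Work.MP_b44cb1_al.R2
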