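import Pool.Agent.Work.MP_b44cb1_al.Full.R2.AWt

/-!
# R2/ABuild (M-L) : the new orthogonal family

Let `Y0 = ker σ`. Basic facts from `WData`:
(a) `n` as in `shift` for `m` maps `Wt 0` onto `Wt m` : if `T x w = w` for all `x` then
`T x ζ^(m x) (n w) = n T x n⁻¹ n w = n w`. (`Wt 0` : `ζ^0 = 1`.) The same computation with `n⁻¹` shows
equality, so all `Wt m` have the same size, and `Wt 0 ≠ 0` because the `Wt m` generate `W ≠ 0` (`wt_gen`).
(b) `ρ y` maps `Wt m` to `Wt (m ∘ (σ y)⁻¹)` (from `act`, `zY`).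
Choose for each `j : Fin k` an operator `n j` for `m j` (`shift`), and put
`J = {g : Y → W | ∀ y, g y ∈ Wt 0, ∀ y y0, σ y0 = 1 → g (y * y0) = (ρ y0)⁻¹ (g y)}`, an additive subgroup
of `Y → W` (finite), with `Y` acting by `(σ' y' g) y = g (y'⁻¹ * y)` (this preserves the conditions),
`φ j g = sum_y ρ y (n j (g y))`.
* `eqv` : `φ j (σ' y' g) = sum_y ρ y (n j (g (y'⁻¹ y))) = sum_y ρ (y' y) (n j (g y))`.
* for `y ∈ Y`, `y0 ∈ Y0` : `ρ (y y0) n j (g (y y0)) = ρ y ρ y0 n j (ρ y0)⁻¹ g y = ρ y n j (g y)` (`shift`: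
`n j` commutes with `ρ y0`). So `φ j g = |Y0| sum over y ∈ Y / Y0 of ρ y (n j (g y))`, and the term of `y`
lies in `Wt (m j ∘ (σ y)⁻¹)`. By `hm : Orb` these functionals are different for different pairs
(`j`, coset `y Y0`): if `m j ∘ (σ y)⁻¹ = m j' ∘ (σ y')⁻¹` then `m j (σ (y⁻¹ y') x) = m j' x`-like, so
`y⁻¹ y' ∈ Y0` and `j = j'`.
* `inj` : if `sum_j φ j (g j) = 0` then by `wt_indep` each component vanishes: `|Y0| ρ y (n j (g j y)) = 0`,
and `|Y0|` is prime to `q`, so `g j y = 0`.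
* `orth`, `isom` : `f (φ j g) (φ j' g') = sum_{y,y'} f (ρ y n_j g y) (ρ y' n_j' g' y')`. By `wt_orth` the
terms vanish unless `j = j'` and `y' ∈ y Y0`; then, with `y' = y y0`, the term is
`f (ρ y n_j g y) (ρ y n_j g' y) = f (g y) (g' y)` (`f` is invariant under `A`). So the sum is
`|Y0| sum_y f (g y) (g' y)`, independent of `j`.
* `fix` : let `σ' y' = 1`. For `w ∈ Wt 0` let `g y = (ρ y)⁻¹ w` for `y ∈ Y0` and `0` otherwise (in `J`:
`ρ y0` preserves `Wt 0` by (b)). `σ' y' g = g` evaluated at `y'` : `g 1 = g y'` i.e. `w = g y'`; for `w ≠ 0`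
this gives `y' ∈ Y0` and `ρ y' w = w` for all `w ∈ Wt 0`. For any `m` with its `n` : `n` commutes with
`ρ y'`, so `ρ y'` is trivial on `n (Wt 0) = Wt m`, hence on `W` (`wt_gen`).
* size: `g` is determined by arbitrary values in `Wt 0` on a transversal of `Y / Y0`; so
`|J| = |Wt 0|^[Y : Y0]`, `|Wt 0| ≥ q` (nontrivial with `q w = 0`). It is enough to give an injection of
`(Y ⧸ σ.ker) → ZMod q` into `J` : choose `w0 ≠ 0` in `Wt 0` and representatives.
-/

set_option autoImplicit false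
set_option linter.style.haveILetI false

namespace Pool.Agent.Work.MP_b44cb1_al.R2

section

variable {Y X W : Type} [Group Y] [AddCommGroup X] [AddCommGroup W] {p : ℕ}

/-- `m ∘ (σ y)⁻¹` -/
private def mc (σ : Y →* LAut X) (m : X →+ ZMod p) (y : Y) : X →+ ZMod p :=
  m.comp (σ y⁻¹).toLinearMap.toAddMonoidHom

private theorem mc_apply (σ : Y →* LAut X) (m : X →+ ZMod p) (y : Y) (x : X) :
    mc σ m y x = m (σ y⁻¹ x) := rfl

private theorem mc_zero (σ : Y →* LAut X) (y : Y) : mc (p := p) σ 0 y = 0 := by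
  ext x; rfl

private theorem inv_app {V : Type} [AddCommGroup V] (a : LAut V) (w : V) : a⁻¹ (a w) = w := by
  rw [← LinearEquiv.mul_apply, inv_mul_cancel, LinearEquiv.coe_one, id]

private theorem app_inv {V : Type} [AddCommGroup V] (a : LAut V) (w : V) : a (a⁻¹ w) = w := by
  rw [← LinearEquiv.mul_apply, mul_inv_cancel, LinearEquiv.coe_one, id]

private theorem app_comm {V : Type} [AddCommGroup V] {a b : LAut V} (h : a * b = b * a) (w : V) :
    a (b w) = b (a w) := by
  rw [← LinearEquiv.mul_apply, h, LinearEquiv.mul_apply]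

private theorem app_pow_comm {V : Type} [AddCommGroup V] {a b : LAut V} (h : a * b = b * a)
    (n : ℕ) (w : V) : (a ^ n) (b w) = b ((a ^ n) w) :=
  app_comm ((show Commute a b from h).pow_left n).eq w

variable {A : Subgroup (LAut W)} {σ : Y →* LAut X} {ρ : Y →* LAut W}
  {T : Multiplicative X →* LAut W} {ζ : LAut W}

private theorem rho_mem (hd : WData p A σ ρ T ζ) (m : X →+ ZMod p) (y : Y) (w : W)
    (hw : w ∈ Wt p T ζ m) : ρ y w ∈ Wt p T ζ (mc σ m y) := by
  intro x
  rw [mc_apply, app_pow_comm (hd.zY y)]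
  have h1 := hd.act y (σ y⁻¹ x)
  have h2 : σ y (σ y⁻¹ x) = x := by
    rw [← LinearEquiv.mul_apply, ← map_mul, mul_inv_cancel, map_one, LinearEquiv.coe_one, id]
  rw [h2, mul_inv_eq_iff_eq_mul] at h1
  have h3 : T (Multiplicative.ofAdd x) (ρ y ((ζ ^ (m (σ y⁻¹ x)).val) w)) =
      ρ y (T (Multiplicative.ofAdd (σ y⁻¹ x)) ((ζ ^ (m (σ y⁻¹ x)).val) w)) := by
    rw [← LinearEquiv.mul_apply, ← h1, LinearEquiv.mul_apply]
  rw [h3, hw]

private theorem wt_zero (w : W) : w ∈ Wt p T ζ 0 ↔ ∀ x : X, T (Multiplicative.ofAdd x) w = w := by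
  rw [mem_Wt]
  simp

private theorem n_mem {m : X →+ ZMod p} {n : LAut W}
    (hn : ∀ x : X, n * T (Multiplicative.ofAdd x) * n⁻¹ =
      T (Multiplicative.ofAdd x) * ζ ^ (m x).val) (w : W) :
    n w ∈ Wt p T ζ m ↔ w ∈ Wt p T ζ 0 := by
  rw [mem_Wt, wt_zero]
  refine forall_congr' (fun x => ?_)
  have h1 : T (Multiplicative.ofAdd x) ((ζ ^ (m x).val) (n w)) =
      n (T (Multiplicative.ofAdd x) w) := by
    rw [← LinearEquiv.mul_apply, ← hn x, LinearEquiv.mul_apply, LinearEquiv.mul_apply, inv_app]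
  rw [h1]
  exact n.injective.eq_iff

private theorem smul_inj' {W : Type} [AddCommGroup W] {q n : ℕ} (hn : n.Coprime q)
    (hW : ∀ w : W, (q : ℤ) • w = 0) (w : W) (h : n • w = 0) : w = 0 := by
  have h1 : addOrderOf w ∣ n := addOrderOf_dvd_of_nsmul_eq_zero h
  have h2 : addOrderOf w ∣ q := addOrderOf_dvd_of_nsmul_eq_zero (by
    have := hW w
    rwa [natCast_zsmul] at this)
  have h3 : addOrderOf w ∣ 1 := by
    rw [← hn.gcd_eq_one]
    exact Nat.dvd_gcd h1 h2
  exact AddMonoid.addOrderOf_eq_one_iff.1 (Nat.dvd_one.1 h3)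

end

/-- the coinduced group -/
private def JJ {Y X W : Type} [Group Y] [AddCommGroup X] [AddCommGroup W] (p : ℕ)
    (σ : Y →* LAut X) (ρ : Y →* LAut W) (T : Multiplicative X →* LAut W) (ζ : LAut W) :
    AddSubgroup (Y → W) where
  carrier := {g | (∀ y, g y ∈ Wt p T ζ 0) ∧ ∀ y y0, σ y0 = 1 → g (y * y0) = ρ y0⁻¹ (g y)}
  zero_mem' := ⟨fun _ => zero_mem _, fun _ _ _ => by simp⟩
  add_mem' := fun {a b} ha hb => ⟨fun y => add_mem (ha.1 y) (hb.1 y), fun y y0 h => by
    rw [Pi.add_apply, Pi.add_apply, ha.2 y y0 h, hb.2 y y0 h, map_add]⟩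
  neg_mem' := fun {a} ha => ⟨fun y => neg_mem (ha.1 y), fun y y0 h => by
    rw [Pi.neg_apply, Pi.neg_apply, ha.2 y y0 h, map_neg]⟩

private def sJ {Y X W : Type} [Group Y] [AddCommGroup X] [AddCommGroup W] (p : ℕ)
    (σ : Y →* LAut X) (ρ : Y →* LAut W) (T : Multiplicative X →* LAut W) (ζ : LAut W) :
    Y →* LAut (JJ p σ ρ T ζ) where
  toFun y' :=
    { toFun := fun g => ⟨fun y => g.1 (y'⁻¹ * y), ⟨fun y => g.2.1 _, fun y y0 h => by
        show g.1 (y'⁻¹ * (y * y0)) = ρ y0⁻¹ (g.1 (y'⁻¹ * y))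
        rw [← mul_assoc]; exact g.2.2 _ _ h⟩⟩
      map_add' := fun a b => rfl
      map_smul' := fun c a => rfl
      invFun := fun g => ⟨fun y => g.1 (y' * y), ⟨fun y => g.2.1 _, fun y y0 h => by
        show g.1 (y' * (y * y0)) = ρ y0⁻¹ (g.1 (y' * y))
        rw [← mul_assoc]; exact g.2.2 _ _ h⟩⟩
      left_inv := fun g => Subtype.ext (funext fun y => by
        show g.1 (y'⁻¹ * (y' * y)) = g.1 y
        rw [inv_mul_cancel_left])
      right_inv := fun g => Subtype.ext (funext fun y => by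
        show g.1 (y' * (y'⁻¹ * y)) = g.1 y
        rw [mul_inv_cancel_left]) }
  map_one' := by
    ext g y
    show g.1 (1⁻¹ * y) = g.1 y
    rw [inv_one, one_mul]
  map_mul' a b := by
    ext g y
    show g.1 ((a * b)⁻¹ * y) = g.1 (b⁻¹ * (a⁻¹ * y))
    rw [mul_inv_rev, mul_assoc]

private theorem sJ_apply {Y X W : Type} [Group Y] [AddCommGroup X] [AddCommGroup W] (p : ℕ)
    (σ : Y →* LAut X) (ρ : Y →* LAut W) (T : Multiplicative X →* LAut W) (ζ : LAut W)
    (y' y : Y) (g : JJ p σ ρ T ζ) : (sJ p σ ρ T ζ y' g).1 y = g.1 (y'⁻¹ * y) := rfl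

private def phi0 {Y X W : Type} [Group Y] [Fintype Y] [AddCommGroup X] [AddCommGroup W] (p : ℕ)
    (σ : Y →* LAut X) (ρ : Y →* LAut W) (T : Multiplicative X →* LAut W) (ζ : LAut W)
    (n : LAut W) : JJ p σ ρ T ζ →+ W where
  toFun g := ∑ y, ρ y (n (g.1 y))
  map_zero' := by
    refine Finset.sum_eq_zero (fun y _ => ?_)
    show ρ y (n 0) = 0
    rw [map_zero, map_zero]
  map_add' a b := by
    rw [← Finset.sum_add_distrib]
    refine Finset.sum_congr rfl (fun y _ => ?_)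
    show ρ y (n (a.1 y + b.1 y)) = _
    rw [map_add, map_add]

private theorem phi0_apply {Y X W : Type} [Group Y] [Fintype Y] [AddCommGroup X] [AddCommGroup W]
    (p : ℕ) (σ : Y →* LAut X) (ρ : Y →* LAut W) (T : Multiplicative X →* LAut W) (ζ : LAut W)
    (n : LAut W) (g : JJ p σ ρ T ζ) : phi0 p σ ρ T ζ n g = ∑ y, ρ y (n (g.1 y)) := rfl

theorem build {Y X W R : Type} [Group Y] [Finite Y] [AddCommGroup X] [Finite X] [AddCommGroup W]
    [Finite W] [Nontrivial W] [AddCommGroup R] (p q : ℕ) (hp : p.Prime) (hq : q.Prime)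
    (hpq : p ≠ q) (hqY : ¬ q ∣ Nat.card Y) (hW : ∀ w : W, (q : ℤ) • w = 0)
    (A : Subgroup (LAut W)) (σ : Y →* LAut X) (ρ : Y →* LAut W)
    (T : Multiplicative X →* LAut W) (ζ : LAut W) (hd : WData p A σ ρ T ζ)
    (f : W →+ W →+ R) (hf : ∀ a ∈ A, ∀ w w', f (a w) (a w') = f w w')
    {k : ℕ} (hk : 1 ≤ k) (m : Fin k → X →+ ZMod p) (hm : Orb p σ m) :
    ∃ (J : Type) (_ : AddCommGroup J) (_ : Finite J) (σ' : Y →* LAut J) (φ : Fin k → J →+ W),
      OFW ρ f σ' φ ∧ ∀ a : ℕ, a ≤ σ.ker.index → q ^ a ≤ Nat.card J := by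
  classical
  haveI := Fintype.ofFinite Y
  haveI : NeZero p := ⟨hp.ne_zero⟩
  haveI : NeZero q := ⟨hq.ne_zero⟩
  haveI : Finite (X →+ ZMod p) := DFunLike.finite _
  haveI := Fintype.ofFinite (X →+ ZMod p)
  -- the operators
  choose n hnA hnT hnζ hnY using fun j => hd.shift (m j)
  -- the terms
  have tmem : ∀ (j : Fin k) (y : Y) (g : JJ p σ ρ T ζ),
      ρ y (n j (g.1 y)) ∈ Wt p T ζ (mc σ (m j) y) := fun j y g =>
    rho_mem hd (m j) y _ ((n_mem (hnT j) _).2 (g.2.1 y))
  have tco : ∀ (j : Fin k) (y y' : Y) (g : JJ p σ ρ T ζ), σ (y⁻¹ * y') = 1 →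
      ρ y' (n j (g.1 y')) = ρ y (n j (g.1 y)) := by
    intro j y y' g h
    have h1 : y' = y * (y⁻¹ * y') := by group
    have h2 : g.1 y' = ρ (y⁻¹ * y')⁻¹ (g.1 y) := by
      conv_lhs => rw [h1]
      exact g.2.2 y _ h
    have h3 : ρ y' = ρ y * ρ (y⁻¹ * y') := by rw [← map_mul, ← h1]
    rw [h2, h3, LinearEquiv.mul_apply, app_comm (hnY j _ h).symm, map_inv, app_inv]
  have tinj : ∀ (j j' : Fin k) (y y' : Y), mc σ (m j) y = mc σ (m j') y' →
      σ (y⁻¹ * y') = 1 ∧ j = j' := by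
    intro j j' y y' h
    apply hm j j' (y⁻¹ * y')
    intro x
    have h1 := congrArg (fun L : X →+ ZMod p => L (σ y' x)) h
    simp only [mc_apply] at h1
    rw [← LinearEquiv.mul_apply, ← map_mul, ← LinearEquiv.mul_apply, ← map_mul, inv_mul_cancel,
      map_one, LinearEquiv.coe_one, id] at h1
    exact h1
  have tform : ∀ (j : Fin k) (y : Y) (g g' : JJ p σ ρ T ζ),
      f (ρ y (n j (g.1 y))) (ρ y (n j (g'.1 y))) = f (g.1 y) (g'.1 y) := by
    intro j y g g'
    rw [hf _ (hd.YA y), hf _ (hnA j)]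
  have hTf : ∀ x w w', f (T x w) (T x w') = f w w' := fun x => hf _ (hd.TA x)
  have hζf : ∀ w w', f (ζ w) (ζ w') = f w w' := hf _ hd.zA
  have torth : ∀ (j j' : Fin k) (y y' : Y) (g g' : JJ p σ ρ T ζ),
      ¬ (σ (y⁻¹ * y') = 1 ∧ j = j') →
      f (ρ y (n j (g.1 y))) (ρ y' (n j' (g'.1 y'))) = 0 := by
    intro j j' y y' g g' h
    exact wt_orth p hp T ζ hd.zp hd.zT hd.zfpf f hTf hζf _ _
      (fun he => h (tinj j j' y y' he)) _ _ (tmem j y g) (tmem j' y' g')
  have hdouble : ∀ (j j' : Fin k) (g g' : JJ p σ ρ T ζ),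
      f (phi0 p σ ρ T ζ (n j) g) (phi0 p σ ρ T ζ (n j') g') =
        ∑ y, ∑ y', f (ρ y (n j (g.1 y))) (ρ y' (n j' (g'.1 y'))) := by
    intro j j' g g'
    have h1 : ∀ (a : Y → W) (b : W), f (∑ y, a y) b = ∑ y, f (a y) b := by
      intro a b
      rw [map_sum, AddMonoidHom.finsetSum_apply]
    rw [phi0_apply, phi0_apply, h1]
    refine Finset.sum_congr rfl (fun y _ => ?_)
    rw [map_sum]
  -- `Wt 0` is nonzero
  have hgen := wt_gen p q hp hq hpq hd.px hW T ζ hd.zp hd.zT hd.zfpf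
  obtain ⟨w0, hw0, hw0ne⟩ : ∃ w0 ∈ Wt p T ζ (0 : X →+ ZMod p), w0 ≠ 0 := by
    by_contra hcon
    push Not at hcon
    have h1 : ∀ m' : X →+ ZMod p, Wt p T ζ m' = ⊥ := by
      intro m'
      rw [eq_bot_iff]
      intro w hw
      obtain ⟨n', -, hn'T, -⟩ := hd.shift m'
      have h2 : n'⁻¹ w ∈ Wt p T ζ (0 : X →+ ZMod p) := by
        rw [← n_mem hn'T, app_inv]
        exact hw
      have h3 := hcon _ h2
      rw [AddSubgroup.mem_bot, ← app_inv n' w, h3, map_zero]
    simp only [h1, iSup_bot] at hgen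
    obtain ⟨a, ha⟩ := exists_ne (0 : W)
    have h4 : a ∈ (⊥ : AddSubgroup W) := by rw [hgen]; trivial
    exact ha ((AddSubgroup.mem_bot).1 h4)
  have rho0 : ∀ (y : Y) (w : W), w ∈ Wt p T ζ (0 : X →+ ZMod p) →
      ρ y w ∈ Wt p T ζ (0 : X →+ ZMod p) := by
    intro y w hw
    have := rho_mem hd 0 y w hw
    rwa [mc_zero] at this
  refine ⟨JJ p σ ρ T ζ, inferInstance, inferInstance, sJ p σ ρ T ζ,
    fun j => phi0 p σ ρ T ζ (n j), ⟨?_, ?_, ?_, ?_, ?_⟩, ?_⟩
  · -- eqv
    intro j y' g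
    rw [phi0_apply, phi0_apply, map_sum]
    refine Fintype.sum_equiv (Equiv.mulLeft y'⁻¹) _ _ (fun y => ?_)
    show ρ y (n j (g.1 (y'⁻¹ * y))) = ρ y' (ρ (y'⁻¹ * y) (n j (g.1 (y'⁻¹ * y))))
    rw [← LinearEquiv.mul_apply (ρ y'), ← map_mul, mul_inv_cancel_left]
  · -- inj
    intro x hx
    have hcomp : ∀ (j0 : Fin k) (y0 : Y), ρ y0 (n j0 ((x j0).1 y0)) = 0 := by
      intro j0 y0
      let w : (X →+ ZMod p) → W := fun m' => ∑ jy : Fin k × Y,
        if mc σ (m jy.1) jy.2 = m' then ρ jy.2 (n jy.1 ((x jy.1).1 jy.2)) else 0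
      have hw : ∀ m' ∈ (Finset.univ : Finset (X →+ ZMod p)), w m' ∈ Wt p T ζ m' := by
        intro m' _
        refine AddSubgroup.sum_mem _ (fun jy _ => ?_)
        split_ifs with h
        · rw [← h]; exact tmem jy.1 jy.2 _
        · exact zero_mem _
      have hsum : ∑ m' ∈ (Finset.univ : Finset (X →+ ZMod p)), w m' = 0 := by
        show ∑ m' : X →+ ZMod p, ∑ jy : Fin k × Y, _ = 0
        rw [Finset.sum_comm]
        refine Eq.trans ?_ hx
        rw [Fintype.sum_prod_type]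
        refine Finset.sum_congr rfl (fun j _ => ?_)
        rw [phi0_apply]
        refine Finset.sum_congr rfl (fun y _ => ?_)
        rw [Finset.sum_ite_eq]
        simp
      have h1 := wt_indep p q hp hq hpq hd.px hW T ζ hd.zp hd.zT hd.zfpf _ w hw hsum
        (mc σ (m j0) y0) (Finset.mem_univ _)
      have h2 : w (mc σ (m j0) y0) =
          (Finset.univ.filter (fun y : Y => σ (y0⁻¹ * y) = 1)).card •
            ρ y0 (n j0 ((x j0).1 y0)) := by
        show ∑ jy : Fin k × Y, (if mc σ (m jy.1) jy.2 = mc σ (m j0) y0 then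
          ρ jy.2 (n jy.1 ((x jy.1).1 jy.2)) else 0) = _
        rw [Fintype.sum_prod_type, Finset.sum_eq_single j0]
        · rw [← Finset.sum_const, Finset.sum_filter]
          refine Finset.sum_congr rfl (fun y _ => ?_)
          by_cases h : σ (y0⁻¹ * y) = 1
          · have h3 : mc σ (m j0) y = mc σ (m j0) y0 := by
              ext z
              rw [mc_apply, mc_apply]
              have h4 : σ y = σ y0 := by
                have h5 : y = y0 * (y0⁻¹ * y) := by group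
                rw [h5, map_mul, h, mul_one]
              rw [map_inv, map_inv, h4]
            rw [if_pos h3, if_pos h, tco j0 y0 y _ h]
          · rw [if_neg, if_neg h]
            intro h3
            exact h (tinj j0 j0 y0 y h3.symm).1
        · intro j _ hj
          refine Finset.sum_eq_zero (fun y _ => ?_)
          rw [if_neg]
          intro h3
          exact hj (tinj j j0 y y0 h3).2
        · intro h; exact absurd (Finset.mem_univ _) h
      rw [h2] at h1
      refine smul_inj' ?_ hW _ h1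
      have h6 : (Finset.univ.filter (fun y : Y => σ (y0⁻¹ * y) = 1)).card = Nat.card σ.ker := by
        rw [← Fintype.card_subtype, ← Nat.card_eq_fintype_card]
        refine Nat.card_congr
          { toFun := fun y => ⟨y0⁻¹ * y.1, y.2⟩
            invFun := fun z => ⟨y0 * z.1, by
              rw [inv_mul_cancel_left]; exact z.2⟩
            left_inv := fun y => Subtype.ext (by
              show y0 * (y0⁻¹ * y.1) = y.1
              rw [mul_inv_cancel_left])
            right_inv := fun z => Subtype.ext (by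
              show y0⁻¹ * (y0 * z.1) = z.1
              rw [inv_mul_cancel_left]) }
      rw [h6, Nat.coprime_comm, hq.coprime_iff_not_dvd]
      exact fun h => hqY (h.trans (Subgroup.card_subgroup_dvd_card _))
    funext j
    apply Subtype.ext
    funext y
    have h1 := hcomp j y
    have h2 : n j ((x j).1 y) = 0 := (ρ y).injective (by rw [h1, map_zero])
    have h3 : (x j).1 y = 0 := (n j).injective (by rw [h2, map_zero])
    exact h3
  · -- orth
    intro j j' hjj g g'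
    rw [hdouble]
    exact Finset.sum_eq_zero (fun y _ => Finset.sum_eq_zero (fun y' _ =>
      torth j j' y y' g g' (fun h => hjj h.2)))
  · -- isom
    intro j j' g g'
    rw [hdouble, hdouble]
    refine Finset.sum_congr rfl (fun y _ => Finset.sum_congr rfl (fun y' _ => ?_))
    by_cases h : σ (y⁻¹ * y') = 1
    · rw [tco j y y' g' h, tform, tco j' y y' g' h, tform]
    · rw [torth j j y y' g g' (fun h' => h h'.1), torth j' j' y y' g g' (fun h' => h h'.1)]
  · -- fix
    intro y' hy'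
    have hg : ∀ w ∈ Wt p T ζ (0 : X →+ ZMod p),
        (fun y : Y => if σ y = 1 then ρ y⁻¹ w else 0) ∈ JJ p σ ρ T ζ := by
      intro w hw
      refine ⟨fun y => ?_, fun y y0 h => ?_⟩
      · show (if σ y = 1 then ρ y⁻¹ w else 0) ∈ _
        split_ifs
        · exact rho0 _ _ hw
        · exact zero_mem _
      · show (if σ (y * y0) = 1 then ρ (y * y0)⁻¹ w else 0) = ρ y0⁻¹ (if σ y = 1 then ρ y⁻¹ w else 0)
        rw [map_mul, h, mul_one]
        split_ifs
        · rw [mul_inv_rev, map_mul, LinearEquiv.mul_apply]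
        · rw [map_zero]
    have hval : ∀ w (hw : w ∈ Wt p T ζ (0 : X →+ ZMod p)),
        w = if σ y' = 1 then ρ y'⁻¹ w else 0 := by
      intro w hw
      have h1 := congrArg (fun L : LAut (JJ p σ ρ T ζ) => (L ⟨_, hg w hw⟩).1 y') hy'
      have h2 : (if σ (y'⁻¹ * y') = 1 then ρ (y'⁻¹ * y')⁻¹ w else 0) =
          if σ y' = 1 then ρ y'⁻¹ w else 0 := h1
      rw [inv_mul_cancel, map_one, if_pos rfl, inv_one, map_one, LinearEquiv.coe_one, id] at h2
      exact h2
    have hσ : σ y' = 1 := by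
      by_contra hne
      have h1 := hval w0 hw0
      rw [if_neg hne] at h1
      exact hw0ne h1
    have hfix0 : ∀ w ∈ Wt p T ζ (0 : X →+ ZMod p), ρ y' w = w := by
      intro w hw
      have h1 := hval w hw
      rw [if_pos hσ] at h1
      conv_lhs => rw [h1]
      rw [map_inv, app_inv]
    have hle : (⨆ m' : X →+ ZMod p, Wt p T ζ m') ≤
        ((ρ y').toLinearMap.toAddMonoidHom - AddMonoidHom.id W).ker := by
      refine iSup_le (fun m' => ?_)
      intro w hw
      rw [AddMonoidHom.mem_ker, AddMonoidHom.sub_apply, sub_eq_zero]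
      show ρ y' w = w
      obtain ⟨n', -, hn'T, -, hn'Y⟩ := hd.shift m'
      have h2 : n'⁻¹ w ∈ Wt p T ζ (0 : X →+ ZMod p) := by
        rw [← n_mem hn'T, app_inv]
        exact hw
      have h3 := hfix0 _ h2
      have h4 := app_comm (hn'Y y' hσ) (n'⁻¹ w)
      rw [h3, app_inv] at h4
      exact h4.symm
    rw [hgen] at hle
    ext w
    have h5 := hle (AddSubgroup.mem_top w)
    rw [AddMonoidHom.mem_ker, AddMonoidHom.sub_apply, sub_eq_zero] at h5
    exact h5
  · -- size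
    intro a ha
    have h1 : q ^ a ≤ q ^ σ.ker.index := Nat.pow_le_pow_right hq.pos ha
    refine h1.trans ?_
    have h2 : Nat.card ((Y ⧸ σ.ker) → ZMod q) = q ^ σ.ker.index := by
      rw [Nat.card_fun, Nat.card_zmod, Subgroup.index]
    rw [← h2]
    have hgc : ∀ c : (Y ⧸ σ.ker) → ZMod q,
        (fun y : Y => (c (QuotientGroup.mk y)).val •
          ρ (y⁻¹ * (QuotientGroup.mk y : Y ⧸ σ.ker).out) w0) ∈ JJ p σ ρ T ζ := by
      intro c
      refine ⟨fun y => AddSubgroup.nsmul_mem _ (rho0 _ _ hw0) _, fun y y0 h => ?_⟩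
      have h3 : (QuotientGroup.mk (y * y0) : Y ⧸ σ.ker) = QuotientGroup.mk y := by
        rw [QuotientGroup.eq]
        have h4 : (y * y0)⁻¹ * y = y0⁻¹ := by group
        rw [h4]
        exact inv_mem (show y0 ∈ σ.ker from h)
      show (c (QuotientGroup.mk (y * y0))).val •
          ρ ((y * y0)⁻¹ * (QuotientGroup.mk (y * y0) : Y ⧸ σ.ker).out) w0 =
        ρ y0⁻¹ ((c (QuotientGroup.mk y)).val •
          ρ (y⁻¹ * (QuotientGroup.mk y : Y ⧸ σ.ker).out) w0)
      rw [h3, map_nsmul, ← LinearEquiv.mul_apply, ← map_mul, mul_inv_rev, mul_assoc]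
    refine Nat.card_le_card_of_injective (fun c => (⟨_, hgc c⟩ : JJ p σ ρ T ζ)) ?_
    intro c c' hcc
    funext z
    have h3 := congrFun (congrArg Subtype.val hcc) z.out
    have h4 : (c (QuotientGroup.mk z.out)).val •
        ρ (z.out⁻¹ * (QuotientGroup.mk z.out : Y ⧸ σ.ker).out) w0 =
        (c' (QuotientGroup.mk z.out)).val •
        ρ (z.out⁻¹ * (QuotientGroup.mk z.out : Y ⧸ σ.ker).out) w0 := h3
    rw [QuotientGroup.out_eq', inv_mul_cancel, map_one, LinearEquiv.coe_one, id] at h4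
    have hord : addOrderOf w0 = q := by
      have h5 : q • w0 = 0 := by
        have := hW w0
        rwa [natCast_zsmul] at this
      haveI : Fact q.Prime := ⟨hq⟩
      exact addOrderOf_eq_prime h5 hw0ne
    have h6 : (c z).val ≡ (c' z).val [MOD q] := by
      have h8 := (nsmul_eq_nsmul_iff_modEq).1 h4
      rwa [hord] at h8
    have h7 : (c z).val = (c' z).val :=
      Nat.ModEq.eq_of_lt_of_lt h6 (ZMod.val_lt _) (ZMod.val_lt _)
    exact ZMod.val_injective q h7

end Pool.Agent.Work.MP_b44cb1_al.R2
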