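import Pool.Agent.Work.MP_b44cb1_al.Full.R2.BDefs

/-!
# R2/BForm (M-L) : the commutator form of an extraspecial layer

`K = Kr P i`, `F = Fr (p i) (P i)`, `V = P i`, `L = Gs P (i+1) = Gs P i ⊔ P i`. `K ≤ F ≤ V ≤ L`, `L` normalises
`K` (`T.nz_kr`), `V` (`T.gs_nz_self`) and `F` (`nz_fr`). Work in `Q = L ⧸ K.subgroupOf L` (or modulo `K` by hand).
* `fr_cent` : `⁅x, g⁆ ∈ K` for `x ∈ F` and `g ∈ L` : the `g ∈ L` with this property form a subgroup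
  (`⁅x, g h⁆ = ⁅x, g⁆ * (g ⁅x, h⁆ g⁻¹)`), containing `Gs P i` (`hX.2.1`) and `P i` (`T.cen`).
  So the image of `F` in `Q` is central, of order `p i` (`hX.2.2`), hence cyclic and generated by the image of any
  `z ∈ F`, `z ∉ K` (exists because `K.relIndex F = p i ≠ 1`, `relIndex_eq_one`).
* `zgen` : the image of `x` is a power of the inverse of the image of `z` (group of prime order,
  `mem_zpowers_of_prime_card` / `zpowers_eq_top_of_prime_card`; finite order, so natural exponents are enough).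
* coordinates: for `x ∈ F` there is exactly one `c x : ZMod (p i)` with `x * (z ^ (c x).val)⁻¹ ∈ K`; `c` is
  additive on products, and depends only on `x` modulo `K`. (`z ^ p i ∈ K` by `T.expo`; the powers
  `z^a`, `a < p i` are different modulo `K`.)
* Choose a section `s : W → V` of `π` and put `f w w' = c ⁅s w, s w'⁆` (`⁅s w, s w'⁆ ∈ ⁅V, V⁆ ≤ F`).
  Modulo `K` : `⁅x a, y⁆ = ⁅x, y⁆` for `a ∈ F` (centrality), so `c ⁅x, y⁆` depends only on `π x`, `π y`, and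
  `⁅x x', y⁆ = ⁅x, y⁆ ⁅x', y⁆` (`⁅x x', y⁆ = x ⁅x', y⁆ x⁻¹ ⁅x, y⁆`, and `⁅x', y⁆ ∈ F` is central modulo `K`). So `f` is
  biadditive and `c ⁅x, y⁆ = f (π x) (π y)` : `comm`. (`AddMonoidHom.mk'` twice.)
* `alt` : `⁅x, x⁆ = 1`. `nondeg` : `T.zen` with `hX.1` (`f w w' = 0` for all `w'` gives `⁅s w, y⁆ ∈ K` for all `y ∈ V`,
  so `s w ∈ F`, `w = 0`).
* `inv` : `⁅g x g⁻¹, g y g⁻¹⁆ = g ⁅x, y⁆ g⁻¹ = ⁅x, y⁆` modulo `K`.
-/

set_option autoImplicit false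

namespace Pool.Agent.Work.MP_b44cb1_al.R2

open Subgroup
open scoped commutatorElement

variable {G : Type} [Group G] [Finite G] {P : ℕ → Subgroup G} {p : ℕ → ℕ} {n : ℕ}

theorem fr_cent (T : MTow P p n) {i : ℕ} (h1 : 1 ≤ i) (hi : i + 1 < n) (hX : XLay P p i) :
    ∀ x ∈ Fr (p i) (P i), ∀ g ∈ Gs P (i + 1), ⁅x, g⁆ ∈ Kr P i := by
  have hK := T.nz_kr hi
  let H : Subgroup G :=
    { carrier := {g | g ∈ Gs P (i + 1) ∧ ∀ x ∈ Fr (p i) (P i), ⁅x, g⁆ ∈ Kr P i}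
      one_mem' := ⟨one_mem _, fun x _ => by rw [commutatorElement_one_right]; exact one_mem _⟩
      mul_mem' := by
        rintro g h ⟨hg, hg2⟩ ⟨hh, hh2⟩
        refine ⟨mul_mem hg hh, fun x hx => ?_⟩
        have e : ⁅x, g * h⁆ = ⁅x, g⁆ * (g * ⁅x, h⁆ * g⁻¹) := by
          simp [commutatorElement_def, mul_assoc]
        rw [e]
        exact mul_mem (hg2 x hx) (hK g hg _ (hh2 x hx))
      inv_mem' := by
        rintro g ⟨hg, hg2⟩
        refine ⟨inv_mem hg, fun x hx => ?_⟩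
        have e : ⁅x, g⁻¹⁆ = g⁻¹ * ⁅x, g⁆⁻¹ * g⁻¹⁻¹ := by
          simp [commutatorElement_def, mul_assoc]
        rw [e]
        exact hK g⁻¹ (inv_mem hg) _ (inv_mem (hg2 x hx)) }
  have hle : Gs P (i + 1) ≤ H := by
    rw [gs_succ]
    refine sup_le (fun g hg => ?_) (fun g hg => ?_)
    · exact ⟨gs_mono' P (Nat.le_succ i) hg, fun x hx => hX.2.1 (commutator_mem_commutator hx hg)⟩
    · exact ⟨le_gs' P (Nat.lt_succ_self i) hg,
        fun x hx => T.cen i h1 hi (commutator_mem_commutator hx hg)⟩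
  intro x hx g hg
  exact (hle hg).2 x hx

/-- coordinates on `F / K` -/
private theorem coords (q : ℕ) (hq : q.Prime) (F K : Subgroup G) (hnz : Nz F K)
    (hcard : K.relIndex F = q) (z : G) (hz : z ∈ F) (hzK : z ∉ K) :
    ∃ c : F → ZMod q, (∀ x : F, (x : G) * (z ^ (c x).val)⁻¹ ∈ K) ∧
      (∀ x y : F, c (x * y) = c x + c y) ∧ (∀ x : F, c x = 0 ↔ (x : G) ∈ K) := by
  have : Fact q.Prime := ⟨hq⟩
  have hn : (K.subgroupOf F).Normal := hnz.subgroupOf_normal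
  have hcard' : Nat.card (↥F ⧸ K.subgroupOf F) = q := hcard
  obtain ⟨zb, hzb⟩ : ∃ zb : ↥F ⧸ K.subgroupOf F, zb = QuotientGroup.mk ⟨z, hz⟩ := ⟨_, rfl⟩
  have hzb1 : zb ≠ 1 := by
    rw [hzb]
    intro h
    rw [QuotientGroup.eq_one_iff, mem_subgroupOf] at h
    exact hzK h
  have hord : orderOf zb = q := by
    have h1 : orderOf zb ∣ q := by
      rw [← hcard']
      exact orderOf_dvd_natCard zb
    exact ((Nat.dvd_prime hq).1 h1).resolve_left fun h => hzb1 (orderOf_eq_one_iff.1 h)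
  have hinj : ∀ c c' : ZMod q, zb ^ c.val = zb ^ c'.val → c = c' := by
    intro c c' h
    rw [pow_eq_pow_iff_modEq, hord] at h
    have h1 := Nat.ModEq.eq_of_lt_of_lt h (ZMod.val_lt c) (ZMod.val_lt c')
    exact ZMod.val_injective q h1
  have hmod : ∀ m : ℕ, zb ^ (m % q) = zb ^ m := fun m => by
    have := pow_mod_orderOf zb m
    rwa [hord] at this
  have hadd : ∀ c c' : ZMod q, zb ^ (c + c').val = zb ^ c.val * zb ^ c'.val := by
    intro c c'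
    rw [ZMod.val_add, ← pow_add, hmod]
  have hex : ∀ x : F, ∃ c : ZMod q, zb ^ c.val = QuotientGroup.mk x := by
    intro x
    obtain ⟨m, hm⟩ := mem_powers_of_prime_card (g' := (QuotientGroup.mk x : ↥F ⧸ K.subgroupOf F))
      hcard' hzb1
    refine ⟨(m : ZMod q), ?_⟩
    rw [ZMod.val_natCast, hmod]
    exact hm
  choose c hc using hex
  refine ⟨c, fun x => ?_, fun x y => ?_, fun x => ?_⟩
  · have h1 : (QuotientGroup.mk (x * (⟨z, hz⟩ ^ (c x).val)⁻¹) : ↥F ⧸ K.subgroupOf F) = 1 := by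
      rw [QuotientGroup.mk_mul, QuotientGroup.mk_inv, QuotientGroup.mk_pow, ← hzb, hc x,
        mul_inv_cancel]
    rw [QuotientGroup.eq_one_iff, mem_subgroupOf] at h1
    exact h1
  · apply hinj
    rw [hadd, hc, hc, hc, QuotientGroup.mk_mul]
  · constructor
    · intro h
      have h1 := hc x
      rw [h, ZMod.val_zero, pow_zero] at h1
      rw [← mem_subgroupOf, ← QuotientGroup.eq_one_iff]
      exact h1.symm
    · intro h
      apply hinj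
      rw [hc, ZMod.val_zero, pow_zero, QuotientGroup.eq_one_iff, mem_subgroupOf]
      exact h

theorem exists_FMod (T : MTow P p n) {i : ℕ} (h1 : 1 ≤ i) (hi : i + 1 < n) (hX : XLay P p i)
    {W : Type} [AddCommGroup W] {π : G → W} {α : G → LAut W} (L : LMod P p i π α) :
    ∃ (z : G) (f : W →+ W →+ ZMod (p i)), FMod P p i π α z f := by
  have hq : (p i).Prime := T.prime i (by omega)
  have : Fact (p i).Prime := ⟨hq⟩
  have hfc := fr_cent T h1 hi hX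
  have hK := T.nz_kr hi
  have hVL : P i ≤ Gs P (i + 1) := le_gs' P (Nat.lt_succ_self i)
  have hFV : Fr (p i) (P i) ≤ P i := fr_le _ _
  have hKF : Kr P i ≤ Fr (p i) (P i) := T.kfr i hi
  have hnFK : ¬ Fr (p i) (P i) ≤ Kr P i := by
    intro h
    have h2 := Subgroup.relIndex_eq_one.2 h
    rw [hX.2.2] at h2
    exact hq.ne_one h2
  obtain ⟨z, hz, hzK⟩ := SetLike.not_le_iff_exists.1 hnFK
  have hnzF : Nz (Fr (p i) (P i)) (Kr P i) := hK.mono (hFV.trans hVL)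
  obtain ⟨c0, hc1, hc2, hc3⟩ := coords (p i) hq _ _ hnzF hX.2.2 z hz hzK
  -- the coordinate as a function on `G`
  classical
  obtain ⟨c, hc⟩ : ∃ c : G → ZMod (p i), ∀ (x : G) (hx : x ∈ Fr (p i) (P i)), c x = c0 ⟨x, hx⟩ :=
    ⟨fun x => if hx : x ∈ Fr (p i) (P i) then c0 ⟨x, hx⟩ else 0, fun x hx => by simp [hx]⟩
  have cspec : ∀ x ∈ Fr (p i) (P i), x * (z ^ (c x).val)⁻¹ ∈ Kr P i := fun x hx => by
    rw [hc x hx]
    exact hc1 ⟨x, hx⟩
  have cmul : ∀ x ∈ Fr (p i) (P i), ∀ y ∈ Fr (p i) (P i), c (x * y) = c x + c y := by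
    intro x hx y hy
    rw [hc _ (mul_mem hx hy), hc x hx, hc y hy]
    exact hc2 ⟨x, hx⟩ ⟨y, hy⟩
  have czero : ∀ x ∈ Fr (p i) (P i), (c x = 0 ↔ x ∈ Kr P i) := fun x hx => by
    rw [hc x hx]
    exact hc3 ⟨x, hx⟩
  have ckr : ∀ x ∈ Kr P i, c x = 0 := fun x hx => (czero x (hKF hx)).2 hx
  -- conjugation invariance
  have cconj : ∀ x ∈ Fr (p i) (P i), ∀ g ∈ Gs P (i + 1), g * x * g⁻¹ ∈ Fr (p i) (P i) ∧
      c (g * x * g⁻¹) = c x := by
    intro x hx g hg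
    have e1 := hfc x hx g hg
    have e2 : g * x * g⁻¹ = ⁅x, g⁆⁻¹ * x := by
      simp [commutatorElement_def, mul_assoc]
    have e3 : ⁅x, g⁆⁻¹ ∈ Kr P i := inv_mem e1
    rw [e2]
    exact ⟨mul_mem (hKF e3) hx, by rw [cmul _ (hKF e3) _ hx, ckr _ e3, zero_add]⟩
  have hcF : ∀ x ∈ P i, ∀ y ∈ P i, ⁅x, y⁆ ∈ Fr (p i) (P i) := fun x hx y hy => comm_mem_fr hx hy
  have Badd1 : ∀ x ∈ P i, ∀ x' ∈ P i, ∀ y ∈ P i, c ⁅x * x', y⁆ = c ⁅x, y⁆ + c ⁅x', y⁆ := by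
    intro x hx x' hx' y hy
    have e1 : ⁅x * x', y⁆ = (x * ⁅x', y⁆ * x⁻¹) * ⁅x, y⁆ := by
      simp [commutatorElement_def, mul_assoc]
    have e2 := cconj _ (hcF x' hx' y hy) x (hVL hx)
    rw [e1, cmul _ e2.1 _ (hcF x hx y hy), e2.2, add_comm]
  have Badd2 : ∀ x ∈ P i, ∀ y ∈ P i, ∀ y' ∈ P i, c ⁅x, y * y'⁆ = c ⁅x, y⁆ + c ⁅x, y'⁆ := by
    intro x hx y hy y' hy'
    have e1 : ⁅x, y * y'⁆ = ⁅x, y⁆ * (y * ⁅x, y'⁆ * y⁻¹) := by
      simp [commutatorElement_def, mul_assoc]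
    have e2 := cconj _ (hcF x hx y' hy') y (hVL hy)
    rw [e1, cmul _ (hcF x hx y hy) _ e2.1, e2.2]
  have Bdep1 : ∀ x ∈ P i, ∀ x' ∈ P i, ∀ y ∈ P i, π x = π x' → c ⁅x, y⁆ = c ⁅x', y⁆ := by
    intro x hx x' hx' y hy h
    have e1 := (L.eq_iff hx hx').1 h
    have e2 : x' = x * (x⁻¹ * x') := by group
    rw [e2, Badd1 x hx _ (hFV e1) y hy, ckr _ (hfc _ e1 y (hVL hy)), add_zero]
  have Bdep2 : ∀ x ∈ P i, ∀ y ∈ P i, ∀ y' ∈ P i, π y = π y' → c ⁅x, y⁆ = c ⁅x, y'⁆ := by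
    intro x hx y hy y' hy' h
    have e1 := (L.eq_iff hy hy').1 h
    have e2 : y' = y * (y⁻¹ * y') := by group
    have e3 : ⁅x, y⁻¹ * y'⁆ ∈ Kr P i := by
      rw [← commutatorElement_inv]
      exact inv_mem (hfc _ e1 x (hVL hx))
    rw [e2, Badd2 x hx y hy _ (hFV e1), ckr _ e3, add_zero]
  choose s hs1 hs2 using L.surj
  let f : W →+ W →+ ZMod (p i) := AddMonoidHom.mk' (fun w => AddMonoidHom.mk'
    (fun w' => c ⁅s w, s w'⁆) (fun a b => by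
      rw [← Badd2 _ (hs1 w) _ (hs1 a) _ (hs1 b)]
      refine Bdep2 _ (hs1 w) _ (hs1 _) _ (mul_mem (hs1 a) (hs1 b)) ?_
      rw [L.add _ (hs1 a) _ (hs1 b), hs2, hs2, hs2])) (fun a b => by
      ext w'
      simp only [AddMonoidHom.mk'_apply, AddMonoidHom.add_apply]
      rw [← Badd1 _ (hs1 a) _ (hs1 b) _ (hs1 w')]
      refine Bdep1 _ (hs1 _) _ (mul_mem (hs1 a) (hs1 b)) _ (hs1 w') ?_
      rw [L.add _ (hs1 a) _ (hs1 b), hs2, hs2, hs2])
  have hf0 : ∀ w w', f w w' = c ⁅s w, s w'⁆ := fun w w' => rfl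
  have hf : ∀ x ∈ P i, ∀ y ∈ P i, f (π x) (π y) = c ⁅x, y⁆ := by
    intro x hx y hy
    rw [hf0, Bdep1 _ (hs1 _) _ hx _ (hs1 _) (hs2 _), Bdep2 _ hx _ (hs1 _) _ hy (hs2 _)]
  refine ⟨z, f, ⟨hz, hzK, fun x hx => ?_, hfc, fun x hx y hy => ?_, fun w => ?_, fun w hw => ?_,
    fun g hg w w' => ?_⟩⟩
  · refine ⟨p i - (c x).val, ?_⟩
    have e1 := ZMod.val_lt (c x)
    have e2 : x * z ^ (p i - (c x).val) = (x * (z ^ (c x).val)⁻¹) * z ^ p i := by
      have e3 : z ^ p i = z ^ (c x).val * z ^ (p i - (c x).val) := by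
        rw [← pow_add]
        congr 1
        omega
      rw [e3]
      group
    rw [e2]
    exact mul_mem (cspec x hx) (T.expo i h1 hi z (hFV hz))
  · rw [hf x hx y hy]
    exact cspec _ (hcF x hx y hy)
  · rw [hf0, commutatorElement_self]
    exact ckr 1 (one_mem _)
  · have e1 : ∀ y ∈ P i, ⁅s w, y⁆ ∈ Kr P i := by
      intro y hy
      rw [← czero _ (hcF _ (hs1 w) y hy), ← hf _ (hs1 w) y hy, hs2]
      exact hw _
    have e2 := T.zen i h1 hi hX.1 (s w) (hs1 w) e1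
    rw [← hs2 w]
    exact (L.ker _ (hs1 w)).2 e2
  · have hgL : g ∈ Gs P (i + 1) := gs_mono' P (Nat.le_succ i) hg
    have hn1 : ∀ x ∈ P i, g * x * g⁻¹ ∈ P i := T.norm i (by omega) g hg
    have e1 : α g w = π (g * s w * g⁻¹) := by rw [L.act g hg _ (hs1 w), hs2]
    have e2 : α g w' = π (g * s w' * g⁻¹) := by rw [L.act g hg _ (hs1 w'), hs2]
    rw [e1, e2, hf _ (hn1 _ (hs1 w)) _ (hn1 _ (hs1 w'))]
    have e3 : ⁅g * s w * g⁻¹, g * s w' * g⁻¹⁆ = g * ⁅s w, s w'⁆ * g⁻¹ := by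
      simp [commutatorElement_def, mul_assoc]
    rw [e3, (cconj _ (hcF _ (hs1 w) _ (hs1 w')) g hgL).2, hf0]

end Pool.Agent.Work.MP_b44cb1_al.R2
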