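import Pool.Agent.Work.MP_b44cb1_al.Full.R2.BEsa
import Pool.Agent.Work.MP_b44cb1_al.Full.R2.BForm
import Pool.Agent.Work.MP_b44cb1_al.Full.R2.ABuild

/-!
# R2/BStartB (M) : the family on the second layer

Models of layer `c` : `L : LMod P p c π α`, `F : FMod P p c π α z f`; models of layer `c + 1` : `L' : LMod ..`,
`F' : FMod P p (c+1) π' α' z' f'` (`exists_LMod`, `exists_FMod`; `c + 2 < n`). `q = p (c+1)`.
Put `ζ = α' z`, `τ = α' e1`, `ν = α' e2` (all in `LAut W'`). `P c ≤ Gs P (c+1)`. `α'` is trivial on `Kr P c`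
(`kr_one`, `kr_mul`), so: `τ ^ p c = ν ^ p c = ζ ^ p c = 1` (`T.expo`); `ζ` commutes with all `α' g`, `g ∈ Gs P (c+1)`
(`z_central`); `τ`, `ν` commute with `α' y` for `y ∈ Y` (`h1'`, `h2'`); `⁅e2, e1⁆ = z ^ d` modulo `Kr P c` with
`d = (f (π e2) (π e1)).val`, so `ν τ ν⁻¹ τ⁻¹ = ζ ^ d`, and `d ≠ 0` modulo `p c` (`hne`: otherwise `⁅e2, e1⁆ ∈ Kr P c`,
hence its inverse `⁅e1, e2⁆` too).
`X = ZMod (p c)`, `σ y = 1`, `T x = τ ^ x.val` (a homomorphism `Multiplicative (ZMod (p c)) →* LAut W'` because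
`τ ^ p c = 1`; `ZMod.val_add`, `pow_mod_orderOf`-like), `ρ y = α' y` (`L'.hom hY`), `A = {a | ∀ w w', f' (a w) (a w') = f' w w'}`
(a subgroup). `WData (p c) A σ ρ T ζ` : `px` clear; `zp`, `zT`, `zY` above; `zfpf` : `z_fpf`; `act` : `τ` commutes with
`ρ y`; `shift` for `m` : let `r = m 1 * d⁻¹` in `ZMod (p c)`, `n = ν ^ r.val`; then
`n τ^x n⁻¹ = τ^x ζ^(d r x)` (from `ν τ ν⁻¹ = ζ^d τ`, `ζ` central), and `d r x = m 1 * x = m x` modulo `p c`
(`m x = x • m 1`), `ζ ^ p c = 1`; `n` commutes with `ζ` and with `ρ y`; `n ∈ A`, `ζ ∈ A`, `T x ∈ A`, `ρ y ∈ A` by `F'.inv`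
(all of them are `α' g`, `g ∈ Gs P (c+1)`; `L'.apow`).
`m : Fin (p c) → X →+ ZMod (p c)`, `m j x = j * x`. `Orb` : if `m j (σ y x) = m j' x` for all `x` then (`x = 1`)
`(j : ZMod (p c)) = j'`, so `j = j'` (both `< p c`), and `σ y = 1` always.
`build` (with `f := f'`, `R := ZMod q`, `q ∤ |Y|` by `T.cop_le`, `p c ≠ q` by `WTow.p_ne`, `W'` nontrivial by `LMod.nontriv`,
`L'.expo`) gives `OFW` with `|J| ≥ q ^ 1` (the index of `σ.ker = ⊤` is `1`).
-/

set_option autoImplicit false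

namespace Pool.Agent.Work.MP_b44cb1_al.R2

open Subgroup
open scoped commutatorElement

private theorem sb_pow_cast {M : Type} [Monoid M] {p a b : ℕ} {x : M} (hx : x ^ p = 1)
    (h : (a : ZMod p) = (b : ZMod p)) : x ^ a = x ^ b := by
  rw [ZMod.natCast_eq_natCast_iff'] at h
  rw [pow_eq_pow_mod a hx, pow_eq_pow_mod b hx, h]

private theorem sb_conj {M : Type} [Group M] {ν τ ζ : M} {d : ℕ} (h : ν * τ * ν⁻¹ * τ⁻¹ = ζ ^ d)
    (hζν : ζ * ν = ν * ζ) (hζτ : ζ * τ = τ * ζ) (r x : ℕ) :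
    ν ^ r * τ ^ x * (ν ^ r)⁻¹ = τ ^ x * ζ ^ (d * r * x) := by
  have hν : Commute ζ ν := hζν
  have hτ : Commute ζ τ := hζτ
  have h1 : ν * τ * ν⁻¹ = τ * ζ ^ d := by
    rw [← (hτ.pow_left d).eq, ← h, inv_mul_cancel_right]
  have h2 : ∀ r : ℕ, ν ^ r * τ * (ν ^ r)⁻¹ = τ * ζ ^ (d * r) := by
    intro r
    induction r with
    | zero => simp
    | succ r ih =>
      have h3 : ν ^ (r + 1) * τ * (ν ^ (r + 1))⁻¹ = ν * (ν ^ r * τ * (ν ^ r)⁻¹) * ν⁻¹ := by
        rw [pow_succ']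
        group
      have h4 : ζ ^ (d * r) * ν⁻¹ = ν⁻¹ * ζ ^ (d * r) := ((hν.pow_left (d * r)).inv_right).eq
      rw [h3, ih]
      calc ν * (τ * ζ ^ (d * r)) * ν⁻¹ = ν * τ * (ζ ^ (d * r) * ν⁻¹) := by group
        _ = ν * τ * ν⁻¹ * ζ ^ (d * r) := by rw [h4]; group
        _ = τ * ζ ^ (d * (r + 1)) := by
          rw [h1, mul_assoc, ← pow_add]
          congr 2
          ring
  rw [← conj_pow, h2 r, (hτ.symm.pow_right (d * r)).mul_pow, ← pow_mul]

variable {G : Type} [Group G] [Finite G] {P : ℕ → Subgroup G} {p : ℕ → ℕ} {n : ℕ}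

theorem r2_startB (T : MTow P p n) (h5 : K5p G) (h6 : K6p G) {c : ℕ} (h1 : 1 ≤ c)
    (hc : c + 2 < n) (hX : XLay P p c) (hX' : XLay P p (c + 1)) {Y : Subgroup G}
    (hY : Y ≤ Gs P (c + 1)) {e1 e2 : G} (he1 : e1 ∈ P c) (he2 : e2 ∈ P c)
    (h1' : ∀ y ∈ Y, ⁅y, e1⁆ ∈ Kr P c) (h2' : ∀ y ∈ Y, ⁅y, e2⁆ ∈ Kr P c)
    (hne : ⁅e1, e2⁆ ∉ Kr P c) : HasO P p (c + 1) Y (p c) (p (c + 1)) := by
  classical
  have hpr : (p c).Prime := T.prime c (by omega)
  have hF : Fact (p c).Prime := ⟨hpr⟩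
  obtain ⟨W, iW, fW, π, α, L⟩ := exists_LMod T.toWTow (show c < n by omega)
  obtain ⟨z, f, F⟩ := exists_FMod T h1 (by omega) hX L
  obtain ⟨W', iW', fW', π', α', L'⟩ := exists_LMod T.toWTow (show c + 1 < n by omega)
  obtain ⟨z', f', F'⟩ := exists_FMod T (show 1 ≤ c + 1 by omega) (by omega) hX' L'
  have hPG : P c ≤ Gs P (c + 1) := le_gs' P (Nat.lt_succ_self c)
  have hzP : z ∈ P c := fr_le _ _ F.zmem
  have hpow : ∀ x ∈ P c, α' x ^ p c = 1 := by
    intro x hx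
    rw [← L'.apow (hPG hx)]
    exact L'.kr_one (T.expo c h1 (by omega) x hx)
  have hζc : ∀ g ∈ Gs P (c + 1), α' z * α' g = α' g * α' z := fun g hg => z_central F L' hg
  have hcomY : ∀ e ∈ P c, (∀ y ∈ Y, ⁅y, e⁆ ∈ Kr P c) → ∀ y ∈ Y, α' y * α' e = α' e * α' y := by
    intro e he h y hy
    rw [← L'.mul y (hY hy) e (hPG he), ← L'.mul e (hPG he) y (hY hy)]
    refine L'.kr_mul (mul_mem (hY hy) (hPG he)) ?_ (mul_mem (hPG he) (hY hy))
    have h3 : y * e * (e * y)⁻¹ = ⁅y, e⁆ := by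
      rw [commutatorElement_def]
      group
    rw [h3]
    exact h y hy
  obtain ⟨dz, hdz⟩ : ∃ dz, dz = f (π e2) (π e1) := ⟨_, rfl⟩
  have hcomm := F.comm e2 he2 e1 he1
  rw [← hdz] at hcomm
  have hdz0 : dz ≠ 0 := by
    intro h0
    rw [h0, ZMod.val_zero, pow_zero, inv_one, mul_one] at hcomm
    apply hne
    rw [← commutatorElement_inv]
    exact inv_mem hcomm
  obtain ⟨ζ, hζ⟩ : ∃ ζ, ζ = α' z := ⟨_, rfl⟩
  obtain ⟨τ, hτ⟩ : ∃ τ, τ = α' e1 := ⟨_, rfl⟩
  obtain ⟨ν, hν⟩ : ∃ ν, ν = α' e2 := ⟨_, rfl⟩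
  have hζp : ζ ^ p c = 1 := by rw [hζ]; exact hpow z hzP
  have hτp : τ ^ p c = 1 := by rw [hτ]; exact hpow e1 he1
  have hζτ : ζ * τ = τ * ζ := by rw [hζ, hτ]; exact hζc _ (hPG he1)
  have hζν : ζ * ν = ν * ζ := by rw [hζ, hν]; exact hζc _ (hPG he2)
  have hrel : ν * τ * ν⁻¹ * τ⁻¹ = ζ ^ dz.val := by
    have h3 : α' ⁅e2, e1⁆ = α' (z ^ dz.val) := by
      refine L'.kr_mul ?_ hcomm (pow_mem (hPG hzP) _)
      exact mul_mem (mul_mem (mul_mem (hPG he2) (hPG he1)) (inv_mem (hPG he2)))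
        (inv_mem (hPG he1))
    rw [L'.apow (hPG hzP), commutatorElement_def,
      L'.mul _ (mul_mem (mul_mem (hPG he2) (hPG he1)) (inv_mem (hPG he2))) _
        (inv_mem (hPG he1)),
      L'.mul _ (mul_mem (hPG he2) (hPG he1)) _ (inv_mem (hPG he2)),
      L'.mul _ (hPG he2) _ (hPG he1), L'.ainv (hPG he2), L'.ainv (hPG he1)] at h3
    rw [hζ, hν, hτ]
    exact h3
  obtain ⟨ρ, hρ⟩ := L'.hom hY
  let A : Subgroup (LAut W') :=
    { carrier := {a | ∀ w w', f' (a w) (a w') = f' w w'}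
      mul_mem' := by
        intro a b ha hb w w'
        show f' (a (b w)) (a (b w')) = f' w w'
        rw [ha, hb]
      one_mem' := fun w w' => rfl
      inv_mem' := by
        intro a ha w w'
        have h3 := ha (a⁻¹ w) (a⁻¹ w')
        have h4 : ∀ v, a (a⁻¹ v) = v := by
          intro v
          show (a * a⁻¹) v = v
          rw [mul_inv_cancel]
          rfl
        rw [h4, h4] at h3
        exact h3.symm }
  have hA : ∀ g ∈ Gs P (c + 1), α' g ∈ A := fun g hg => F'.inv g hg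
  let Tm : Multiplicative (ZMod (p c)) →* LAut W' :=
    { toFun := fun x => τ ^ (Multiplicative.toAdd x).val
      map_one' := by
        show τ ^ (0 : ZMod (p c)).val = 1
        rw [ZMod.val_zero, pow_zero]
      map_mul' := by
        intro x y
        show τ ^ (Multiplicative.toAdd x + Multiplicative.toAdd y).val = _
        rw [← pow_add]
        apply sb_pow_cast hτp
        push_cast
        rw [ZMod.natCast_zmod_val, ZMod.natCast_zmod_val, ZMod.natCast_zmod_val] }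
  have hTm : ∀ x : ZMod (p c), Tm (Multiplicative.ofAdd x) = τ ^ x.val := fun _ => rfl
  have hd : WData (p c) A (1 : ↥Y →* LAut (ZMod (p c))) ρ Tm ζ := by
    refine
      { px := fun x => by simp
        zp := hζp
        zT := ?_
        zY := ?_
        zfpf := ?_
        act := ?_
        shift := ?_
        zA := ?_
        TA := ?_
        YA := ?_ }
    · intro x
      exact ((show Commute ζ τ from hζτ).pow_right _).eq
    · intro y
      rw [hρ, hζ]
      exact hζc _ (hY y.2)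
    · intro w hw
      rw [hζ] at hw
      exact z_fpf T h5 (by omega) F L' w hw
    · intro y x
      have h3 : Commute (ρ y) τ := by
        rw [hρ, hτ]
        exact hcomY e1 he1 h1' y y.2
      have h4 : ((1 : ↥Y →* LAut (ZMod (p c))) y) x = x := rfl
      rw [h4, hTm, (h3.pow_right x.val).eq, mul_inv_cancel_right]
    · intro m
      refine ⟨ν ^ (m 1 * dz⁻¹).val, ?_, ?_, ?_, ?_⟩
      · rw [hν]
        exact pow_mem (hA _ (hPG he2)) _
      · intro x
        rw [hTm, sb_conj hrel hζν hζτ]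
        congr 1
        apply sb_pow_cast hζp
        push_cast
        rw [ZMod.natCast_zmod_val, ZMod.natCast_zmod_val, ZMod.natCast_zmod_val,
          ZMod.natCast_zmod_val]
        have h3 : m x = x * m 1 := by
          have h4 : x = x.val • (1 : ZMod (p c)) := by
            rw [nsmul_eq_mul, mul_one, ZMod.natCast_zmod_val]
          have h5 : m (x.val • (1 : ZMod (p c))) = x.val • m 1 := map_nsmul m _ _
          rw [← h4, nsmul_eq_mul, ZMod.natCast_zmod_val] at h5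
          exact h5
        rw [h3]
        field_simp
      · exact (((show Commute ζ ν from hζν).pow_right _).symm).eq
      · intro y _
        have h3 : Commute ν (ρ y) := by
          rw [hρ, hν]
          exact (hcomY e2 he2 h2' y y.2).symm
        exact (h3.pow_left _).eq
    · rw [hζ]
      exact hA _ (hPG hzP)
    · intro x
      show τ ^ (Multiplicative.toAdd x).val ∈ A
      rw [hτ]
      exact pow_mem (hA _ (hPG he1)) _
    · intro y
      rw [hρ]
      exact hA _ (hY y.2)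
  have hm : Orb (p c) (1 : ↥Y →* LAut (ZMod (p c)))
      (fun j : Fin (p c) => AddMonoidHom.mulLeft (((j : ℕ) : ZMod (p c)))) := by
    intro j j' y h
    refine ⟨rfl, ?_⟩
    have h3 := h 1
    have h4 : (((j : ℕ) : ZMod (p c))) * 1 = (((j' : ℕ) : ZMod (p c))) * 1 := h3
    rw [mul_one, mul_one, ZMod.natCast_eq_natCast_iff', Nat.mod_eq_of_lt j.2,
      Nat.mod_eq_of_lt j'.2] at h4
    exact Fin.ext h4
  have hnt : Nontrivial W' := L'.nontriv T.toWTow h6 (by omega) (T.nontriv _ (by omega))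
  obtain ⟨J, iJ, fJ, σ', φ, hO, hcard⟩ := build (p c) (p (c + 1)) hpr (T.prime _ (by omega))
    (T.toWTow.p_ne T.nontriv (Nat.lt_succ_self c) (by omega))
    (T.toWTow.cop_le (show c + 1 < n by omega) hY) L'.expo A
    (1 : ↥Y →* LAut (ZMod (p c))) ρ Tm ζ hd f' (fun a ha w w' => ha w w') hpr.one_le _ hm
  refine ⟨W', iW', fW', π', α', z', f', ρ, J, iJ, fJ, σ', φ, L', F', hρ, hO, ?_⟩
  have h3 := hcard 1 (by
    have h4 : (1 : ↥Y →* LAut (ZMod (p c))).ker = ⊤ := by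
      ext y
      simp
    rw [h4, Subgroup.index_top])
  rwa [pow_one] at h3

end Pool.Agent.Work.MP_b44cb1_al.R2
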