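import Pool.Agent.Work.MP_b44cb1_al.Full.R2.BEsa
import Pool.Agent.Work.MP_b44cb1_al.Full.R2.BForm
import Pool.Agent.Work.MP_b44cb1_al.Full.R2.AStep

/-!
# R2/BStep (M) : one step of the tower

* `OFW.restrict` : compose the index set with `Fin.castLE`. (`inj` : extend by `0` outside.)
* `HasO.mono` : from `OFW.restrict`.
* `r2_step` : unpack `hO`; `exists_LMod` and `exists_FMod` for layer `i + 1` (`1 ≤ i + 1`, `i + 2 < n`, `hX'`);
  `esa_of`; `step_abs` with `p := p i`, `q := p (i+1)`, `f'` the form of layer `i + 1` (invariant under `αE`, `αY` by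
  `FMod.inv`, since `P i, Y ≤ Gs P (i+1)`); `p i ≠ p (i+1)` : `WTow.p_ne`; `¬ p i ∣ |Y|`, `¬ p (i+1) ∣ |Y|` : `T.cop_le`;
  `Odd (Nat.card Y)` : `gs_odd`; `W'` nontrivial: `LMod.nontriv`. The index `ρ.ker.index` is
  `(Dk P i).relIndex Y` : `y ∈ ρ.ker ↔ α y = 1 ↔ y ∈ Dk P i` (`LMod.aone_iff`), so `ρ.ker = (Dk P i).subgroupOf Y`.
  Then `N ≤ Nat.card J` gives `N ^ (k/3 - 1) ≤ Nat.card J ^ (k/3 - 1)` and `OFW.restrict`.
* `r2_dimstep` : the same without a form on layer `i + 1` : `R := ZMod 1` (any group) and `f' := 0`, `a := 1`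
  (the index is positive). The family `φ'` is jointly injective: `|J'| ^ K ≤ |W'|`, `K = |J| ^ (k/3 - 1) ≥ N ^ (k/3 - 1)`,
  `|J'| ≥ p (i+1)`; and `|W'| = (Fr ..).relIndex (P (i+1))` by `LMod.image` with `R = P (i+1)` (the image is everything by
  `surj`).
-/

set_option autoImplicit false

namespace Pool.Agent.Work.MP_b44cb1_al.R2

open Subgroup
open scoped commutatorElement

theorem OFW.restrict {Y W R J : Type} [Group Y] [AddCommGroup W] [AddCommGroup R]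
    [AddCommGroup J] {ρ : Y →* LAut W} {f : W →+ W →+ R} {σ : Y →* LAut J} {k k' : ℕ}
    {φ : Fin k → J →+ W} (h : OFW ρ f σ φ) (hk : k' ≤ k) :
    OFW ρ f σ (fun l : Fin k' => φ (Fin.castLE hk l)) := by
  refine ⟨fun l => h.eqv _, fun x hx => ?_, fun l l' hll => h.orth _ _ ?_,
    fun l l' => h.isom _ _, h.fix⟩
  · have h1 : ∑ l : Fin k, φ l (if hl : l.val < k' then x ⟨l.val, hl⟩ else 0) = 0 := by
      rw [← hx]
      symm
      refine Fintype.sum_of_injective (Fin.castLE hk) (Fin.castLE_injective hk) _ _ ?_ ?_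
      · intro l hl
        rw [dif_neg, map_zero]
        intro hlt
        exact hl ⟨⟨l.val, hlt⟩, Fin.ext rfl⟩
      · intro l
        rw [dif_pos (show (Fin.castLE hk l).val < k' from l.isLt)]
        rfl
    have h2 := h.inj _ h1
    funext l
    have h3 := congrFun h2 (Fin.castLE hk l)
    rw [dif_pos (show (Fin.castLE hk l).val < k' from l.isLt)] at h3
    exact h3
  · intro he
    exact hll (Fin.castLE_injective hk he)

variable {G : Type} [Group G] {P : ℕ → Subgroup G} {p : ℕ → ℕ} {n : ℕ}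

theorem HasO.mono {i : ℕ} {Y : Subgroup G} {k N k' N' : ℕ} (h : HasO P p i Y k N)
    (hk : k' ≤ k) (hN : N' ≤ N) : HasO P p i Y k' N' := by
  obtain ⟨W, iW, fW, π, α, z, f, ρ, J, iJ, fJ, σ, φ, hL, hF, hρ, hO, hNJ⟩ := h
  exact ⟨W, iW, fW, π, α, z, f, ρ, J, iJ, fJ, σ, fun l => φ (Fin.castLE hk l), hL, hF, hρ,
    hO.restrict hk, hN.trans hNJ⟩

variable [Finite G]

private theorem bs_index (T : MTow P p n) (h5 : K5p G) {i : ℕ} (hi : i < n)
    {W : Type} [AddCommGroup W] {π : G → W} {α : G → LAut W} (L : LMod P p i π α)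
    {Y : Subgroup G} (hY : Y ≤ Gs P i) (ρ : Y →* LAut W) (hρ : ∀ y : Y, ρ y = α y) :
    ρ.ker.index = (Dk P i).relIndex Y := by
  have h1 : ρ.ker = (Dk P i).subgroupOf Y := by
    ext y
    rw [MonoidHom.mem_ker, hρ, L.aone_iff T.toWTow h5 hi (hY y.2), mem_subgroupOf]
  rw [h1]
  rfl

theorem r2_step (T : MTow P p n) (h5 : K5p G) (h6 : K6p G) (hodd : ∀ i < n, p i ≠ 2) {i : ℕ}
    (h1 : 1 ≤ i) (hi : i + 2 < n) (hX' : XLay P p (i + 1)) {Y : Subgroup G}
    (hY : Y ≤ Gs P i) (hYn : Group.IsNilpotent Y) {k N a : ℕ} (hk : 3 ≤ k)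
    (hO : HasO P p i Y k N) (ha : a ≤ (Dk P i).relIndex Y) :
    HasO P p (i + 1) Y (N ^ (k / 3 - 1)) ((p (i + 1)) ^ a) := by
  obtain ⟨W, iW, fW, π, α, z, f, ρ, J, iJ, fJ, σ, φ, L, F, hρ, ho, hNJ⟩ := hO
  obtain ⟨W', iW', fW', π', α', L'⟩ := exists_LMod T.toWTow (i := i + 1) (by omega)
  obtain ⟨z', f', F'⟩ := exists_FMod T (i := i + 1) (by omega) (by omega) hX' L'
  obtain ⟨κ, αE, αY, zE, hαE, hαY, hE⟩ := esa_of T h5 h1 (by omega) L F L' hY ρ hρ
  have hnt : Nontrivial W' := L'.nontriv T.toWTow h6 (by omega) (T.nontriv (i + 1) (by omega))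
  have hPi : P i ≤ Gs P (i + 1) := le_gs' P (Nat.lt_succ_self i)
  have hYi : Y ≤ Gs P (i + 1) := hY.trans (gs_mono' P (Nat.le_succ i))
  have hfE : ∀ (e : P i) (w w' : W'), f' (αE e w) (αE e w') = f' w w' := fun e w w' => by
    rw [hαE]
    exact F'.inv e (hPi e.2) w w'
  have hfY : ∀ (y : Y) (w w' : W'), f' (αY y w) (αY y w') = f' w w' := fun y w w' => by
    rw [hαY]
    exact F'.inv y (hYi y.2) w w'
  obtain ⟨J', iJ', fJ', σ', φ', ho', hcard⟩ := step_abs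
    (gs_odd T.toWTow hodd (i := i) (by omega) hY) (p i) (p (i + 1)) (T.prime i (by omega))
    (hodd i (by omega)) (T.prime (i + 1) (by omega))
    (T.toWTow.p_ne T.nontriv (Nat.lt_succ_self i) (by omega))
    (T.toWTow.cop_le (by omega) hY) (T.toWTow.cop_le (by omega) hYi) L'.expo
    κ (fun x : P i => π x) ρ f zE αE αY hE σ hk φ ho f' hfE hfY
  have hle : N ^ (k / 3 - 1) ≤ Nat.card J ^ (k / 3 - 1) := Nat.pow_le_pow_left hNJ _
  exact ⟨W', iW', fW', π', α', z', f', αY, J', iJ', fJ', σ',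
    fun l => φ' (Fin.castLE hle l), L', F', hαY, ho'.restrict hle,
    hcard a (by rw [bs_index T h5 (by omega) L hY ρ hρ]; exact ha)⟩

theorem r2_dimstep (T : MTow P p n) (h5 : K5p G) (h6 : K6p G) (hodd : ∀ i < n, p i ≠ 2) {i : ℕ}
    (h1 : 1 ≤ i) (hi : i + 1 < n) {Y : Subgroup G} (hY : Y ≤ Gs P i)
    (hYn : Group.IsNilpotent Y) {k N : ℕ} (hk : 3 ≤ k) (hO : HasO P p i Y k N) :
    (p (i + 1)) ^ (N ^ (k / 3 - 1)) ≤ (Fr (p (i + 1)) (P (i + 1))).relIndex (P (i + 1)) := by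
  obtain ⟨W, iW, fW, π, α, z, f, ρ, J, iJ, fJ, σ, φ, L, F, hρ, ho, hNJ⟩ := hO
  obtain ⟨W', iW', fW', π', α', L'⟩ := exists_LMod T.toWTow (i := i + 1) hi
  obtain ⟨κ, αE, αY, zE, hαE, hαY, hE⟩ := esa_of T h5 h1 hi L F L' hY ρ hρ
  have hnt : Nontrivial W' := L'.nontriv T.toWTow h6 hi (T.nontriv (i + 1) hi)
  have hYi : Y ≤ Gs P (i + 1) := hY.trans (gs_mono' P (Nat.le_succ i))
  obtain ⟨J', iJ', fJ', σ', φ', ho', hcard⟩ := step_abs
    (gs_odd T.toWTow hodd (i := i) (by omega) hY) (p i) (p (i + 1)) (T.prime i (by omega))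
    (hodd i (by omega)) (T.prime (i + 1) hi)
    (T.toWTow.p_ne T.nontriv (Nat.lt_succ_self i) hi)
    (T.toWTow.cop_le (by omega) hY) (T.toWTow.cop_le hi hYi) L'.expo
    κ (fun x : P i => π x) ρ f zE αE αY hE σ hk φ ho (0 : W' →+ W' →+ ZMod 1)
    (fun _ _ _ => rfl) (fun _ _ _ => rfl)
  have hle : N ^ (k / 3 - 1) ≤ Nat.card J ^ (k / 3 - 1) := Nat.pow_le_pow_left hNJ _
  -- the order of `J'`
  have hJ' : p (i + 1) ≤ Nat.card J' := by
    have h2 := hcard 1 (Nat.one_le_iff_ne_zero.2 ρ.ker.index_ne_zero_of_finite)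
    rwa [pow_one] at h2
  -- the order of `W'`
  have hW' : Nat.card J' ^ (Nat.card J ^ (k / 3 - 1)) ≤ Nat.card W' := by
    have hinj : Function.Injective
        (fun x : Fin (Nat.card J ^ (k / 3 - 1)) → J' => ∑ l, φ' l (x l)) := by
      intro x y hxy
      have h2 : ∑ l, φ' l ((x - y) l) = 0 := by
        have h3 : ∑ l, φ' l (x l) = ∑ l, φ' l (y l) := hxy
        simp only [Pi.sub_apply, map_sub, Finset.sum_sub_distrib, h3, sub_self]
      exact sub_eq_zero.1 (ho'.inj _ h2)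
    have h2 := Nat.card_le_card_of_injective _ hinj
    rwa [Nat.card_fun, Nat.card_eq_fintype_card (α := Fin _), Fintype.card_fin] at h2
  obtain ⟨H, hH, hHc⟩ := L'.image (R := P (i + 1)) le_rfl
  have hHtop : H = ⊤ := by
    rw [eq_top_iff]
    intro w _
    obtain ⟨x, hx, rfl⟩ := L'.surj w
    exact (hH _).2 ⟨x, hx, rfl⟩
  rw [← hHc, hHtop]
  have hcardtop : Nat.card (⊤ : AddSubgroup W') = Nat.card W' := AddSubgroup.card_top
  rw [hcardtop]
  calc (p (i + 1)) ^ (N ^ (k / 3 - 1)) ≤ Nat.card J' ^ (N ^ (k / 3 - 1)) :=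
        Nat.pow_le_pow_left hJ' _
    _ ≤ Nat.card J' ^ (Nat.card J ^ (k / 3 - 1)) := Nat.pow_le_pow_right Nat.card_pos hle
    _ ≤ Nat.card W' := hW'

end Pool.Agent.Work.MP_b44cb1_al.R2
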