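import Pool.Agent.Work.MP_b44cb1_al.Full.R2.BStartE
import Pool.Agent.Work.MP_b44cb1_al.Full.R2.BStartB
import Pool.Agent.Work.MP_b44cb1_al.Full.R2.BStep
import Pool.Agent.Work.MP_b44cb1_al.Full.R2.BKer
import Pool.Agent.Work.MP_b44cb1_al.Full.R2.BEnd
import Pool.Agent.Work.MP_b44cb1_al.Full.R2.BNum

/-!
# R2/BLink (M, assembly) : the second kind of link

* `r2_chain` : induction on `j`. Start: `HasO` on layer `c + 1` with `(k, N) = (p c, p (c+1))`, both `≥ 11` (the indices are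
  `< n`). `r2_step` (layer `c + 1 → c + 2`): `k = (p (c+1)) ^ (p c / 3 - 1) ≥ 11 ^ 2 = 121` (`p c / 3 - 1 ≥ 2`),
  `N = (p (c+2)) ^ a ≥ 11 ^ a`; `r2_step` (`c + 2 → c + 3`) : `k = N ^ (k/3 - 1) ≥ (11 ^ a) ^ 39`, so `121 ≤ k`, `a ≤ k`
  (`num1`), `N = (p (c+3)) ^ a ≥ 11 ^ a ≥ 11`. (`k / 3 - 1 ≥ 39` for `k ≥ 121`.) This is `j = 0` (`tow 0 a = a`). Step `j → j + 1` :
  `r2_step` for `i = c + 3 + j`; `k' = N ^ (k/3 - 1) ≥ 2 ^ k` (`num2`), `≥ 2 ^ tow j a = tow (j+1) a`, and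
  `≥ 2 ^ k ≥ k ≥ 121`; `N' = (p (i+1)) ^ a ≥ 11`. `Y ≤ Gs P (c+1) ≤ Gs P i` by `gs_mono'`. `p i ≠ 2` from `11 ≤ p i`.
* `r2_link` : `i = c + 3 + t`, `u = i + 1 = c + (t + 4)`. `S = {s}`, `s` from `r2_end` for this `i`. Let `N, Q` be as in `LINK`,
  `Y = N ⊔ Q` (nilpotent by `nil_sup`; `Q` is a `p c`-group: `IsPGroup.isNilpotent`), `Y ≤ Gs P (c+1)`. `r2_pair`,
  `r2_startB`, `r2_chain` with `a = (Fr (p c) Q).relIndex Q ≥ 1` (`ha` by `r2_relIndex`), `j = t`, and `r2_end` with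
  `Y1 = N ⊔ Fr (p c) Q ≤ Y` (`fr_le`), `Y ⊓ Dk P i ≤ Y1` (`r2_inf_le`), `q ∈ Q`, `q ∉ Fr (p c) (P c)` (`r2_notin`).
  `tow t a ≤ k ≤ 2 ^ k ≤ N ^ (k/3 - 1)`, `1 ≤ p u`.
* `r2_dim` : `N = Q = ⊥`, `Y = ⊥` : `(Fr (p c) ⊥).relIndex ⊥ = 1` and `1 < (Fr (p c) (P c)).relIndex (P c ⊓ centralizer ⊥)`
  (`centralizer (⊥ : Set G) = ⊤`; `P c` is not contained in `Fr` by K6). `a = 1`. `r2_dimstep` for `i = c + 3 + t`.
-/

set_option autoImplicit false

namespace Pool.Agent.Work.MP_b44cb1_al.R2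

open Subgroup
open scoped commutatorElement

variable {G : Type} [Group G] [Finite G] {P : ℕ → Subgroup G} {p : ℕ → ℕ} {n : ℕ}

theorem r2_chain (T : MTow P p n) (h5 : K5p G) (h6 : K6p G) (hp : ∀ i < n, 11 ≤ p i) {c : ℕ}
    (h1 : 1 ≤ c) {Y : Subgroup G} (hY : Y ≤ Gs P (c + 1)) (hYn : Group.IsNilpotent Y)
    (hO : HasO P p (c + 1) Y (p c) (p (c + 1))) {a : ℕ} (ha1 : 1 ≤ a)
    (ha : ∀ i, c < i → i < n → a ≤ (Dk P i).relIndex Y) (j : ℕ) (hj : c + 3 + j + 1 < n)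
    (hX : ∀ i, c ≤ i → i ≤ c + 3 + j → XLay P p i) :
    ∃ k N : ℕ, 121 ≤ k ∧ tow j a ≤ k ∧ 11 ≤ N ∧ HasO P p (c + 3 + j) Y k N := by
  have hodd : ∀ i < n, p i ≠ 2 := fun i hi => by
    have := hp i hi
    omega
  have hbig : ∀ i < n, 11 ≤ p i ^ a := fun i hi =>
    (hp i hi).trans (Nat.le_self_pow (by omega) _)
  induction j with
  | zero =>
    have hpc := hp c (by omega)
    have hp1 := hp (c + 1) (by omega)
    have s1 := r2_step T h5 h6 hodd (i := c + 1) (by omega) (by omega)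
      (hX (c + 2) (by omega) (by omega)) hY hYn (by omega) hO (ha (c + 1) (by omega) (by omega))
    have hk1 : 121 ≤ p (c + 1) ^ (p c / 3 - 1) := by
      calc 121 = 11 ^ 2 := by norm_num
        _ ≤ p (c + 1) ^ 2 := Nat.pow_le_pow_left hp1 2
        _ ≤ p (c + 1) ^ (p c / 3 - 1) := Nat.pow_le_pow_right (by omega) (by omega)
    have s2 := r2_step T h5 h6 hodd (i := c + 1 + 1) (by omega) (by omega)
      (hX (c + 3) (by omega) (by omega)) (hY.trans (gs_mono' P (by omega))) hYn (by omega) s1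
      (ha (c + 1 + 1) (by omega) (by omega))
    have hM : 11 ^ a ≤ p (c + 1 + 1) ^ a := Nat.pow_le_pow_left (hp _ (by omega)) a
    obtain ⟨n1, n2, n3⟩ := num1 ha1 hM
    have hpow : (p (c + 1 + 1) ^ a) ^ 39 ≤
        (p (c + 1 + 1) ^ a) ^ (p (c + 1) ^ (p c / 3 - 1) / 3 - 1) :=
      Nat.pow_le_pow_right (by omega) (by omega)
    exact ⟨_, _, n1.trans hpow, (show tow 0 a ≤ _ from n2.trans hpow),
      hbig (c + 1 + 1 + 1) (by omega), s2⟩
  | succ j ih =>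
    obtain ⟨k, N, hk, hkt, hN, hO'⟩ := ih (by omega) fun i hi hi' => hX i hi (by omega)
    have s1 := r2_step T h5 h6 hodd (i := c + 3 + j) (by omega) (by omega)
      (hX (c + 3 + j + 1) (by omega) (by omega)) (hY.trans (gs_mono' P (by omega))) hYn
      (by omega) hO' (ha (c + 3 + j) (by omega) (by omega))
    have h2 := num2 hN hk
    have h3 : k < 2 ^ k := Nat.lt_two_pow_self
    have h4 : tow (j + 1) a ≤ 2 ^ k := Nat.pow_le_pow_right (by norm_num) hkt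
    exact ⟨_, _, (hk.trans h3.le).trans h2, h4.trans h2,
      hbig (c + 3 + j + 1) (by omega), s1⟩

private theorem rl_pos {H K : Subgroup G} : 1 ≤ H.relIndex K :=
  Nat.one_le_iff_ne_zero.2 Subgroup.index_ne_zero_of_finite

theorem r2_link (T : MTow P p n) (h3 : K3p G) (h5 : K5p G) (h6 : K6p G)
    (hp : ∀ i < n, 11 ≤ p i) {c : ℕ} (h1 : 1 ≤ c) (t : ℕ) (hn : c + (t + 4) < n)
    (hX : ∀ i, c ≤ i → i < c + (t + 4) → XLay P p i) :
    ∃ S : Finset (Subgroup G × Subgroup G), S.card ≤ 1 ∧ (∀ s ∈ S, CycP s) ∧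
      LINK P p c (c + (t + 4)) S t := by
  have hodd : ∀ i < n, p i ≠ 2 := fun i hi => by
    have := hp i hi
    omega
  obtain ⟨S0, hS0, hend⟩ := r2_end T h3 h5 h6 hodd (i := c + 3 + t) (by omega) (by omega)
  refine ⟨{S0}, by simp, fun s hs => ?_, ?_⟩
  · rw [Finset.mem_singleton] at hs
    rw [hs]
    exact hS0
  intro N Q hN hNn hQ hNQ hQf hQn hbig hS
  have hQnil : Group.IsNilpotent Q := by
    have hfact : Fact (p c).Prime := ⟨T.prime c (by omega)⟩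
    exact ((T.pgrp c (by omega)).to_le hQ).isNilpotent
  have hYn : Group.IsNilpotent (N ⊔ Q : Subgroup G) := nil_sup hNQ hNn hQnil
  have hY : N ⊔ Q ≤ Gs P (c + 1) :=
    sup_le (hN.trans (gs_mono' P (Nat.le_succ c))) (hQ.trans (le_gs' P (Nat.lt_succ_self c)))
  obtain ⟨e1, he1, e2, he2, hc1, hc2, hne⟩ := r2_pair T h1 (by omega)
    (hX c le_rfl (by omega)) hN hQ hNQ hQf hbig
  have hO := r2_startB T h5 h6 h1 (by omega) (hX c le_rfl (by omega))
    (hX (c + 1) (by omega) (by omega)) hY he1 he2 hc1 hc2 hne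
  obtain ⟨k, M, hk, hkt, hM, hO'⟩ := r2_chain T h5 h6 hp h1 hY hYn hO
    (a := (Fr (p c) Q).relIndex Q) rl_pos
    (fun i hci hi => r2_relIndex T h5 hci hi hQ hQf) t (by omega)
    (fun i hi hi' => hX i hi (by omega))
  obtain ⟨q, hq, hqf⟩ := Set.not_subset.1 hQn
  have h7 := hend (N ⊔ Q) (N ⊔ Fr (p c) Q) Q k M (hY.trans (gs_mono' P (by omega))) hYn
    (by omega) hO' (sup_le_sup_left (fr_le _ _) _)
    (r2_inf_le T h5 (by omega) (by omega) hN hQ hNQ hQf) le_sup_right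
    ⟨q, hq, r2_notin T (by omega) hN hQ hNQ hq hqf⟩ (hS S0 (Finset.mem_singleton_self S0))
  have e : c + (t + 4) = c + 3 + t + 1 := by omega
  rw [e]
  refine le_trans (Nat.pow_le_pow_right ?_ ?_) h7
  · have := hp (c + 3 + t + 1) (by omega)
    omega
  · exact (hkt.trans Nat.lt_two_pow_self.le).trans (num2 hM hk)

theorem r2_dim (T : MTow P p n) (h5 : K5p G) (h6 : K6p G)
    (hp : ∀ i < n, 11 ≤ p i) {c : ℕ} (h1 : 1 ≤ c) (t : ℕ) (hn : c + (t + 4) < n)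
    (hX : ∀ i, c ≤ i → i < c + (t + 4) → XLay P p i) :
    (p (c + (t + 4))) ^ tow t 1 ≤
      (Fr (p (c + (t + 4))) (P (c + (t + 4)))).relIndex (P (c + (t + 4))) := by
  have hodd : ∀ i < n, p i ≠ 2 := fun i hi => by
    have := hp i hi
    omega
  have hcz : Cz (⊥ : Subgroup G) (⊥ : Subgroup G) := by
    intro a ha b hb
    rw [mem_bot] at ha hb
    rw [ha, hb]
  have hbig : ((Fr (p c) (⊥ : Subgroup G)).relIndex ⊥) ^ 2 <
      (Fr (p c) (P c)).relIndex (P c ⊓ centralizer ((⊥ : Subgroup G) : Set G)) := by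
    have e1 : P c ⊓ centralizer ((⊥ : Subgroup G) : Set G) = P c := by
      rw [inf_eq_left]
      intro x _
      rw [mem_centralizer_iff]
      intro h hh
      rw [SetLike.mem_coe, mem_bot] at hh
      rw [hh, one_mul, mul_one]
    rw [relIndex_bot_right, one_pow, e1]
    refine lt_of_le_of_ne rl_pos fun h => ?_
    have h2 : P c ≤ Fr (p c) (P c) := relIndex_eq_one.1 h.symm
    exact T.nontriv c (by omega) (h6 (p c) (P c) ⊥ (T.prime c (by omega)) (T.pgrp c (by omega))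
      bot_le (h2.trans le_sup_right)).symm
  have hnil : Group.IsNilpotent (⊥ ⊔ ⊥ : Subgroup G) := by
    rw [sup_idem]
    infer_instance
  have hY : (⊥ ⊔ ⊥ : Subgroup G) ≤ Gs P (c + 1) := by
    rw [sup_idem]
    exact bot_le
  obtain ⟨e1, he1, e2, he2, hc1, hc2, hne⟩ := r2_pair T h1 (by omega)
    (hX c le_rfl (by omega)) (N := ⊥) (Q := ⊥) bot_le bot_le hcz (by rw [bot_inf_eq]; exact bot_le)
    hbig
  have hO := r2_startB T h5 h6 h1 (by omega) (hX c le_rfl (by omega))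
    (hX (c + 1) (by omega) (by omega)) hY he1 he2 hc1 hc2 hne
  obtain ⟨k, M, hk, hkt, hM, hO'⟩ := r2_chain T h5 h6 hp h1 hY hnil hO
    (a := 1) le_rfl (fun i _ _ => rl_pos) t (by omega)
    (fun i hi hi' => hX i hi (by omega))
  have h7 := r2_dimstep T h5 h6 hodd (i := c + 3 + t) (by omega) (by omega)
    (hY.trans (gs_mono' P (by omega))) hnil (by omega) hO'
  have e : c + (t + 4) = c + 3 + t + 1 := by omega
  rw [e]
  refine le_trans (Nat.pow_le_pow_right ?_ ?_) h7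
  · have := hp (c + 3 + t + 1) (by omega)
    omega
  · exact (hkt.trans Nat.lt_two_pow_self.le).trans (num2 hM hk)

end Pool.Agent.Work.MP_b44cb1_al.R2
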