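import Mathlib

/-!
# MP_b44cb1_al, block R2 : abstract definitions (fixed; no reference to the tower)

`Y` acts on additive groups through homomorphisms to `LAut W = (W ≃ₗ[ℤ] W)`. `p`, `q` are different primes.
-/

set_option autoImplicit false

namespace Pool.Agent.Work.MP_b44cb1_al.R2

open scoped commutatorElement

/-- Additive automorphisms (as a multiplicative group, composition of maps). -/
abbrev LAut (W : Type) [AddCommGroup W] : Type := W ≃ₗ[ℤ] W

/-- An orthogonal, isometric, jointly injective family of `k` equivariant maps `J → W`, such that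
elements of `Y` acting trivially on `J` act trivially on `W`. -/
structure OFW {Y W R J : Type} [Group Y] [AddCommGroup W] [AddCommGroup R] [AddCommGroup J]
    (ρ : Y →* LAut W) (f : W →+ W →+ R) (σ : Y →* LAut J) {k : ℕ} (φ : Fin k → J →+ W) :
    Prop where
  eqv : ∀ l y x, φ l (σ y x) = ρ y (φ l x)
  inj : ∀ x : Fin k → J, ∑ l, φ l (x l) = 0 → x = 0
  orth : ∀ l l', l ≠ l' → ∀ x x', f (φ l x) (φ l' x') = 0
  isom : ∀ l l' x x', f (φ l x) (φ l x') = f (φ l' x) (φ l' x')
  fix : ∀ y, σ y = 1 → ρ y = 1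

/-- The vectors on which `T x ζ^(m x)` acts trivially for all `x`. -/
def Wt {X W : Type} [AddCommGroup X] [AddCommGroup W] (p : ℕ)
    (T : Multiplicative X →* LAut W) (ζ : LAut W) (m : X →+ ZMod p) : AddSubgroup W where
  carrier := {w | ∀ x : X, T (Multiplicative.ofAdd x) ((ζ ^ (m x).val) w) = w}
  zero_mem' := fun x => by simp
  add_mem' := fun {a b} ha hb x => by
    rw [map_add, map_add, ha x, hb x]
  neg_mem' := fun {a} ha x => by
    rw [map_neg, map_neg, ha x]

theorem mem_Wt {X W : Type} [AddCommGroup X] [AddCommGroup W] (p : ℕ)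
    (T : Multiplicative X →* LAut W) (ζ : LAut W) (m : X →+ ZMod p) (w : W) :
    w ∈ Wt p T ζ m ↔ ∀ x : X, T (Multiplicative.ofAdd x) ((ζ ^ (m x).val) w) = w := Iff.rfl

/-- Operators on `W` : an elementary abelian group `X` (through `T`), a central element `ζ` of order
`p` without nonzero fixed vectors, a group `Y`, and for every functional `m` on `X` an operator
`n` with `n T(x) n⁻¹ = T(x) ζ^(m x)` which commutes with the kernel of `Y` on `X`. Everything is in
the subgroup `A` of `LAut W` (for instance the isometry group of a form). -/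
structure WData (p : ℕ) {Y X W : Type} [Group Y] [AddCommGroup X] [AddCommGroup W]
    (A : Subgroup (LAut W)) (σ : Y →* LAut X) (ρ : Y →* LAut W)
    (T : Multiplicative X →* LAut W) (ζ : LAut W) : Prop where
  px : ∀ x : X, (p : ℤ) • x = 0
  zp : ζ ^ p = 1
  zT : ∀ x, ζ * T x = T x * ζ
  zY : ∀ y, ζ * ρ y = ρ y * ζ
  zfpf : ∀ w, ζ w = w → w = 0
  act : ∀ (y : Y) (x : X), ρ y * T (Multiplicative.ofAdd x) * (ρ y)⁻¹ =
    T (Multiplicative.ofAdd (σ y x))
  shift : ∀ m : X →+ ZMod p, ∃ n ∈ A, (∀ x : X, n * T (Multiplicative.ofAdd x) * n⁻¹ =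
    T (Multiplicative.ofAdd x) * ζ ^ (m x).val) ∧ n * ζ = ζ * n ∧
    ∀ y, σ y = 1 → n * ρ y = ρ y * n
  zA : ζ ∈ A
  TA : ∀ x, T x ∈ A
  YA : ∀ y, ρ y ∈ A

/-- Extraspecial action: `E` acts on `W'` (through `αE`), modulo the kernel it is extraspecial of
exponent `p` with centre generated by `z`, `z` has no nonzero fixed vectors on `W'`,
`W = E / ⟨z⟩` (through `π`) with the commutator form `f`; `Y` acts on everything. -/
structure ESA (p : ℕ) {Y E W W' : Type} [Group Y] [Group E] [AddCommGroup W] [AddCommGroup W']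
    (κ : Y →* MulAut E) (π : E → W) (ρ : Y →* LAut W) (f : W →+ W →+ ZMod p) (z : E)
    (αE : E →* LAut W') (αY : Y →* LAut W') : Prop where
  add : ∀ x x', π (x * x') = π x + π x'
  surj : Function.Surjective π
  eqv : ∀ y x, π (κ y x) = ρ y (π x)
  act : ∀ y x, αY y * αE x * (αY y)⁻¹ = αE (κ y x)
  piz : π z = 0
  ker : ∀ x, π x = 0 → ∃ j : ℕ, αE x = αE z ^ j
  zp : αE z ^ p = 1
  zE : ∀ x, αE z * αE x = αE x * αE z
  zY : ∀ y, αE z * αY y = αY y * αE z
  zfpf : ∀ w, αE z w = w → w = 0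
  comm : ∀ x x', αE ⁅x, x'⁆ = αE z ^ (f (π x) (π x')).val
  alt : ∀ w, f w w = 0
  nondeg : ∀ w, (∀ w', f w w' = 0) → w = 0
  expo : ∀ x, αE x ^ p = 1
  triv : ∀ y, ρ y = 1 → ∀ x, αE (κ y x) = αE x

/-- `k` functionals on `X` in different orbits of `Y` whose stabilisers are the kernel of `Y` on
`X`. -/
def Orb (p : ℕ) {Y X : Type} [Group Y] [AddCommGroup X] (σ : Y →* LAut X) {k : ℕ}
    (m : Fin k → X →+ ZMod p) : Prop :=
  ∀ j j' y, (∀ x, m j (σ y x) = m j' x) → σ y = 1 ∧ j = j'

end Pool.Agent.Work.MP_b44cb1_al.R2
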