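import Pool.Agent.Work.MP_b44cb1_al.Full.R2.ADefs

/-!
# R2/AIso (S-M) : isotropic families

`a^2 + b^2 + 1 = 0` in `ZMod p` (`ZMod.sq_add_sq` applied to `-1`), lift `a, b` to integers. For
`s < k / 3` let `ψ s = a • φ (3s) + b • φ (3s+1) + φ (3s+2)`. Equivariance: the operators are additive.
`f (ψ s x) (ψ s' x')` : for `s ≠ s'` all terms vanish (`orth`); for `s = s'` the mixed terms vanish and the
rest is `(a^2 + b^2 + 1) f (φ 0 x) (φ 0 x') = 0` (`isom`; values in `ZMod p`). Joint injectivity: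
`sum_s ψ s (x s) = sum_l φ l (x' l)` with `x' (3s) = a x s`, `x' (3s+1) = b x s`, `x' (3s+2) = x s` (and `0`
for the remaining indices), so `x' = 0` and `x = 0`.
-/

set_option autoImplicit false

namespace Pool.Agent.Work.MP_b44cb1_al.R2

theorem iso_fam {Y W J : Type} [Group Y] [AddCommGroup W] [AddCommGroup J] (p : ℕ)
    (hp : p.Prime) (ρ : Y →* LAut W) (f : W →+ W →+ ZMod p) (σ : Y →* LAut J) {k : ℕ}
    (φ : Fin k → J →+ W) (h : OFW ρ f σ φ) :
    ∃ ψ : Fin (k / 3) → J →+ W, (∀ s y x, ψ s (σ y x) = ρ y (ψ s x)) ∧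
      (∀ x : Fin (k / 3) → J, ∑ s, ψ s (x s) = 0 → x = 0) ∧
      ∀ s s' x x', f (ψ s x) (ψ s' x') = 0 := by
  classical
  have : Fact p.Prime := ⟨hp⟩
  obtain ⟨a, b, hab⟩ := ZMod.sq_add_sq p (-1)
  have key : a * a + b * b + 1 = 0 := by
    have : a ^ 2 + b ^ 2 + 1 = 0 := by rw [hab]; ring
    linear_combination this
  have hlt : ∀ (s : Fin (k / 3)) (r : ℕ), r < 3 → 3 * (s : ℕ) + r < k := by
    intro s r hr
    have := s.2
    omega
  let i0 : Fin (k / 3) → Fin k := fun s => ⟨3 * (s : ℕ) + 0, hlt s 0 (by norm_num)⟩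
  let i1 : Fin (k / 3) → Fin k := fun s => ⟨3 * (s : ℕ) + 1, hlt s 1 (by norm_num)⟩
  let i2 : Fin (k / 3) → Fin k := fun s => ⟨3 * (s : ℕ) + 2, hlt s 2 (by norm_num)⟩
  have h00 : ∀ s s', s ≠ s' → i0 s ≠ i0 s' := by
    intro s s' hne he
    apply hne
    have := congrArg Fin.val he
    simp only [i0] at this
    exact Fin.ext (by omega)
  have h11 : ∀ s s', s ≠ s' → i1 s ≠ i1 s' := by
    intro s s' hne he
    apply hne
    have := congrArg Fin.val he
    simp only [i1] at this
    exact Fin.ext (by omega)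
  have h22 : ∀ s s', s ≠ s' → i2 s ≠ i2 s' := by
    intro s s' hne he
    apply hne
    have := congrArg Fin.val he
    simp only [i2] at this
    exact Fin.ext (by omega)
  have h01 : ∀ s s', i0 s ≠ i1 s' := by
    intro s s' he
    have := congrArg Fin.val he
    simp only [i0, i1] at this
    omega
  have h02 : ∀ s s', i0 s ≠ i2 s' := by
    intro s s' he
    have := congrArg Fin.val he
    simp only [i0, i2] at this
    omega
  have h12 : ∀ s s', i1 s ≠ i2 s' := by
    intro s s' he
    have := congrArg Fin.val he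
    simp only [i1, i2] at this
    omega
  have hav : (a.val : ZMod p) = a := ZMod.natCast_zmod_val a
  have hbv : (b.val : ZMod p) = b := ZMod.natCast_zmod_val b
  let ψ : Fin (k / 3) → J →+ W := fun s => a.val • φ (i0 s) + b.val • φ (i1 s) + φ (i2 s)
  have hψ : ∀ s x, ψ s x = a.val • φ (i0 s) x + b.val • φ (i1 s) x + φ (i2 s) x := by
    intro s x
    rfl
  refine ⟨ψ, ?_, ?_, ?_⟩
  · intro s y x
    rw [hψ, hψ, map_add, map_add, map_nsmul, map_nsmul, h.eqv, h.eqv, h.eqv]
  · intro x hx
    let Φ : (Fin k → J) →+ W :=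
      { toFun := fun x => ∑ l, φ l (x l)
        map_zero' := by simp
        map_add' := fun x y => by
          simp only [Pi.add_apply, map_add, Finset.sum_add_distrib] }
    have hΦ : ∀ x, Φ x = ∑ l, φ l (x l) := fun x => rfl
    have hΦs : ∀ i v, Φ (Pi.single i v) = φ i v := by
      intro i v
      rw [hΦ, Finset.sum_eq_single i]
      · rw [Pi.single_eq_same]
      · intro l _ hl
        rw [Pi.single_eq_of_ne hl, map_zero]
      · intro hl
        exact absurd (Finset.mem_univ i) hl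
    have hx' := h.inj (∑ s, (Pi.single (i0 s) (a.val • x s) + Pi.single (i1 s) (b.val • x s) +
      Pi.single (i2 s) (x s))) (by
        rw [← hΦ, map_sum, ← hx]
        refine Finset.sum_congr rfl fun s _ => ?_
        rw [map_add, map_add, hΦs, hΦs, hΦs, hψ, map_nsmul, map_nsmul])
    funext s
    have h1 := congrFun hx' (i2 s)
    rw [Finset.sum_apply, Finset.sum_eq_single s] at h1
    · rw [Pi.add_apply, Pi.add_apply, Pi.single_eq_same,
        Pi.single_eq_of_ne (h02 s s).symm, Pi.single_eq_of_ne (h12 s s).symm, zero_add,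
        zero_add] at h1
      exact h1
    · intro s' _ hs'
      rw [Pi.add_apply, Pi.add_apply, Pi.single_eq_of_ne (h02 s' s).symm,
        Pi.single_eq_of_ne (h12 s' s).symm, Pi.single_eq_of_ne (h22 s s' hs'.symm)]
      simp
    · intro hs
      exact absurd (Finset.mem_univ s) hs
  · intro s s' x x'
    rw [hψ, hψ]
    simp only [map_add, map_nsmul, AddMonoidHom.add_apply, AddMonoidHom.nsmul_apply]
    by_cases hs : s = s'
    · subst hs
      rw [h.orth _ _ (h01 s s), h.orth _ _ (h02 s s), h.orth _ _ (h01 s s).symm,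
        h.orth _ _ (h12 s s), h.orth _ _ (h02 s s).symm, h.orth _ _ (h12 s s).symm,
        h.isom (i0 s) (i2 s), h.isom (i1 s) (i2 s)]
      simp only [nsmul_eq_mul, hav, hbv, mul_zero, add_zero, zero_add]
      linear_combination (f (φ (i2 s) x) (φ (i2 s) x')) * key
    · rw [h.orth _ _ (h01 s s'), h.orth _ _ (h02 s s'), h.orth _ _ (h01 s' s).symm,
        h.orth _ _ (h12 s s'), h.orth _ _ (h02 s' s).symm, h.orth _ _ (h12 s' s).symm,
        h.orth _ _ (h00 s s' hs), h.orth _ _ (h11 s s' hs), h.orth _ _ (h22 s s' hs)]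
      simp

end Pool.Agent.Work.MP_b44cb1_al.R2
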