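import Pool.Agent.Work.MP_b44cb1_al.Full.R2.ADual
import Pool.Agent.Work.MP_b44cb1_al.Full.Kit.RegA
import Pool.Agent.Work.MP_b44cb1_al.Full.Kit.MonoA

/-!
# R2/AReg : regular orbits of nilpotent groups of odd order (K8), and monomiality (K10)

`reg` and `mono` are the additive forms of `regA` and `monoA` of the block KIT (the group `B` acts on
`Multiplicative M` through `s`).
`mono` : see `b44cb1_full22.md`, K10.
-/

set_option autoImplicit false

namespace Pool.Agent.Work.MP_b44cb1_al.R2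

@[reducible] private def mulAct {B M : Type} [Group B] [AddCommGroup M] (s : B →* LAut M) :
    MulDistribMulAction B (Multiplicative M) where
  smul b m := Multiplicative.ofAdd (s b m.toAdd)
  one_smul m := by
    show Multiplicative.ofAdd (s 1 m.toAdd) = m
    rw [map_one]
    rfl
  mul_smul a b m := by
    show Multiplicative.ofAdd (s (a * b) m.toAdd) =
      Multiplicative.ofAdd (s a (s b m.toAdd))
    rw [map_mul]
    rfl
  smul_mul b m n := by
    show Multiplicative.ofAdd (s b (m.toAdd + n.toAdd)) =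
      Multiplicative.ofAdd (s b m.toAdd) * Multiplicative.ofAdd (s b n.toAdd)
    rw [map_add]
    rfl
  smul_one b := by
    show Multiplicative.ofAdd (s b 0) = 1
    rw [map_zero]
    rfl

private theorem exp_mul {M : Type} [AddCommGroup M] {q : ℕ} (hM : ∀ x : M, (q : ℤ) • x = 0)
    (m : Multiplicative M) : m ^ q = 1 := by
  have h := hM m.toAdd
  rw [natCast_zsmul] at h
  exact congrArg Multiplicative.ofAdd h

theorem reg {B M : Type} [Group B] [Finite B] [Group.IsNilpotent B] (hodd : Odd (Nat.card B))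
    [AddCommGroup M] [Finite M] (q : ℕ) (hq : q.Prime) (hq2 : q ≠ 2) (hqB : ¬ q ∣ Nat.card B)
    (hM : ∀ x : M, (q : ℤ) • x = 0) (s : B →* LAut M) :
    ∃ v : M, ∀ b, s b v = v → s b = 1 := by
  let _ : MulDistribMulAction B (Multiplicative M) := mulAct s
  have hf : Finite (Multiplicative M) := ‹Finite M›
  obtain ⟨v, hv⟩ := regA (B := B) (M := Multiplicative M) hq hq2 inferInstance hodd hqB
    (exp_mul hM)
  refine ⟨v.toAdd, fun b hb => ?_⟩
  have h1 := hv b (congrArg Multiplicative.ofAdd hb)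
  ext x
  exact congrArg Multiplicative.toAdd (h1 (Multiplicative.ofAdd x))

theorem mono {B M : Type} [Group B] [Finite B] [Group.IsNilpotent B] (hodd : Odd (Nat.card B))
    [AddCommGroup M] [Finite M] [Nontrivial M] (q : ℕ) (hq : q.Prime) (hq2 : q ≠ 2)
    (hqB : ¬ q ∣ Nat.card B) (hM : ∀ x : M, (q : ℤ) • x = 0) (s : B →* LAut M) :
    ∃ S1 S2 : Subgroup B, S2 ≤ S1 ∧ (∀ g ∈ S1, ∀ x ∈ S2, g * x * g⁻¹ ∈ S2) ∧
      (∃ g ∈ S1, S1 ≤ S2 ⊔ Subgroup.zpowers g) ∧
      ∀ T : Subgroup B, T ⊓ S1 ≤ S2 → ∃ y : M, y ≠ 0 ∧ ∀ t ∈ T, s t y = y := by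
  let _ : MulDistribMulAction B (Multiplicative M) := mulAct s
  have hf : Finite (Multiplicative M) := ‹Finite M›
  have hnt : Nontrivial (Multiplicative M) := ‹Nontrivial M›
  obtain ⟨S, ⟨h1, h2, h3⟩, h4⟩ := monoA (B := B) (M := Multiplicative M) hq inferInstance hodd hqB
    (exp_mul hM)
  refine ⟨S.1, S.2, h1, h2, h3, fun T hT => ?_⟩
  obtain ⟨y, hy, hty⟩ := h4 T hT
  exact ⟨y.toAdd, fun h => hy (congrArg Multiplicative.ofAdd h),
    fun t ht => congrArg Multiplicative.toAdd (hty t ht)⟩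

end Pool.Agent.Work.MP_b44cb1_al.R2
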