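import Pool.Agent.Work.MP_b44cb1_al.Full.R2.ADefs

/-!
# R2/AWt (M) : weight spaces of an elementary abelian group with a fixed point free central element

`X` is a finite elementary abelian `p`-group (written additively), `T : X → LAut W`, `ζ` commutes with
all `T x`, `ζ^p = 1`, `ζ w = w` only for `w = 0`; `W` is finite, `q W = 0`, `q ≠ p` prime.
For a functional `m` put `u_m x = T x ζ^(m x)` (a group of commuting operators, because `m` is
additive and `ζ^p = 1`), `Wt m` = common fixed vectors of all `u_m x`, and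
`e_m = |X|⁻¹ sum_x u_m x` (as an additive endomorphism of `W`; `|X|` is a power of `p`, so it is
invertible modulo `q`: choose an integer `c` with `c |X| = 1` modulo `q`).
(1) `e_m w ∈ Wt m`, and `e_m w = w` for `w ∈ Wt m`.
(2) for `m ≠ m'`, `e_m w = 0` for `w ∈ Wt m'` : choose `x` with `d = m x - m' x ≠ 0`. For `w ∈ Wt m'`,
`u_m x w = ζ^d w`. `e_m (u_m x w) = e_m w` and `e_m` commutes with `ζ`, so `ζ^d (e_m w) = e_m w`; as
`d ≠ 0` modulo `p`, `ζ` is a power of `ζ^d`, so `ζ` fixes `e_m w`, which is therefore `0`.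
`wt_indep` : apply `e_m` to the relation.
(3) `sum_m e_m = 1` : the coefficient of `T 0 = 1` is `|Hom(X, ZMod p)| / |X| = 1` (the number of additive
maps `X → ZMod p` is `|X|` for an elementary abelian group: dimension over `ZMod p`); for `x ≠ 0` the
coefficient of `T x` is `|X|⁻¹ sum_m ζ^(m x)` and `m x` takes every value equally often, and
`(1 + ζ + ... + ζ^(p-1)) w` is fixed by `ζ`, so it is `0`. Hence `wt_gen`.
`wt_orth` : `f` invariant under `T x` and `ζ`. `w ∈ Wt m`, `w' ∈ Wt m'`, `m ≠ m'`: choose `x` with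
`d = m x - m' x ≠ 0`, `g = u_m x`: `g w = w`, `g w'' = ζ^d w''` for `w'' ∈ Wt m'`. So
`f w w'' = f w (ζ^d w'')` for all `w'' ∈ Wt m'`; the map `w'' ↦ ζ^d w'' - w''` is injective on the finite
group `Wt m'`, hence surjective, so `w' = ζ^d w'' - w''` and `f w w' = 0`.
-/

set_option autoImplicit false
set_option linter.style.haveILetI false
set_option linter.unusedSectionVars false

namespace Pool.Agent.Work.MP_b44cb1_al.R2

variable {X W : Type} [AddCommGroup X] [Finite X] [AddCommGroup W] [Finite W]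

private theorem pow_val_add {p : ℕ} (hp : p.Prime) {G : Type} [Group G] (ζ : G) (hζ : ζ ^ p = 1)
    (a b : ZMod p) : ζ ^ (a + b).val = ζ ^ a.val * ζ ^ b.val := by
  haveI : NeZero p := ⟨hp.ne_zero⟩
  rw [ZMod.val_add, ← pow_add, ← pow_eq_pow_mod _ hζ]

/-- If `ζ ^ d` fixes `w` with `d` prime to `p` then `ζ` fixes `w`. -/
private theorem fix_of_pow {p : ℕ} (hp : p.Prime) (ζ : LAut W) (hζ : ζ ^ p = 1) (d : ZMod p)
    (hd : d ≠ 0) (w : W) (h : (ζ ^ d.val) w = w) : ζ w = w := by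
  haveI : NeZero p := ⟨hp.ne_zero⟩
  have hpow : ∀ j : ℕ, ((ζ ^ d.val) ^ j) w = w := by
    intro j
    induction j with
    | zero => simp
    | succ j ih =>
      rw [pow_succ, LinearEquiv.mul_apply, h, ih]
  have hcop : d.val.Coprime p := by
    rw [Nat.coprime_comm, hp.coprime_iff_not_dvd]
    intro hdv
    have h1 : d.val = 0 := Nat.eq_zero_of_dvd_of_lt hdv (ZMod.val_lt d)
    exact hd ((ZMod.val_eq_zero d).1 h1)
  obtain ⟨k, -, hk⟩ := Nat.exists_mul_mod_eq_one_of_coprime hcop hp.one_lt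
  have h2 := hpow k
  rw [← pow_mul, pow_eq_pow_mod _ hζ, hk, pow_one] at h2
  exact h2

/-- The operator `u m x = T x ζ ^ (m x)`. -/
private def uu {X W : Type} [AddCommGroup X] [AddCommGroup W] (p : ℕ)
    (T : Multiplicative X →* LAut W) (ζ : LAut W) (m : X →+ ZMod p) (x : X) : LAut W :=
  T (Multiplicative.ofAdd x) * ζ ^ (m x).val

private theorem commT (T : Multiplicative X →* LAut W) (ζ : LAut W)
    (hc : ∀ x, ζ * T x = T x * ζ) (x : Multiplicative X) (n : ℕ) :
    ζ ^ n * T x = T x * ζ ^ n :=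
  ((show Commute ζ (T x) from hc x).pow_left n).eq

private theorem uu_add {p : ℕ} (hp : p.Prime) (T : Multiplicative X →* LAut W) (ζ : LAut W)
    (hζ : ζ ^ p = 1) (hc : ∀ x, ζ * T x = T x * ζ) (m : X →+ ZMod p) (x y : X) :
    uu p T ζ m (x + y) = uu p T ζ m x * uu p T ζ m y := by
  unfold uu
  rw [ofAdd_add, map_mul, map_add, pow_val_add hp ζ hζ]
  have h1 := commT T ζ hc (Multiplicative.ofAdd y) (m x).val
  calc T (Multiplicative.ofAdd x) * T (Multiplicative.ofAdd y) * (ζ ^ (m x).val * ζ ^ (m y).val)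
      = T (Multiplicative.ofAdd x) * (T (Multiplicative.ofAdd y) * ζ ^ (m x).val) *
        ζ ^ (m y).val := by group
    _ = T (Multiplicative.ofAdd x) * (ζ ^ (m x).val * T (Multiplicative.ofAdd y)) *
        ζ ^ (m y).val := by rw [h1]
    _ = _ := by group

private theorem uu_zeta {p : ℕ} (T : Multiplicative X →* LAut W) (ζ : LAut W)
    (hc : ∀ x, ζ * T x = T x * ζ) (m : X →+ ZMod p) (x : X) (n : ℕ) :
    uu p T ζ m x * ζ ^ n = ζ ^ n * uu p T ζ m x := by
  unfold uu
  have h1 := commT T ζ hc (Multiplicative.ofAdd x) n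
  calc T (Multiplicative.ofAdd x) * ζ ^ (m x).val * ζ ^ n
      = T (Multiplicative.ofAdd x) * ζ ^ n * ζ ^ (m x).val := by
        rw [mul_assoc, ← pow_add, add_comm, pow_add, ← mul_assoc]
    _ = ζ ^ n * T (Multiplicative.ofAdd x) * ζ ^ (m x).val := by rw [h1]
    _ = _ := by rw [mul_assoc]

/-- On `Wt m'` the operator `u m x` is `ζ ^ (m x - m' x)`. -/
private theorem uu_on {p : ℕ} (hp : p.Prime) (T : Multiplicative X →* LAut W) (ζ : LAut W)
    (hζ : ζ ^ p = 1) (hc : ∀ x, ζ * T x = T x * ζ) (m m' : X →+ ZMod p) (x : X) (w : W)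
    (hw : w ∈ Wt p T ζ m') : uu p T ζ m x w = (ζ ^ (m x - m' x).val) w := by
  have h1 : uu p T ζ m x = ζ ^ (m x - m' x).val * (T (Multiplicative.ofAdd x) *
      ζ ^ (m' x).val) := by
    unfold uu
    have h2 : m x = (m x - m' x) + m' x := by abel
    conv_lhs => rw [h2]
    rw [pow_val_add hp ζ hζ, ← mul_assoc, ← mul_assoc, ← commT T ζ hc]
  rw [h1, LinearEquiv.mul_apply, LinearEquiv.mul_apply, hw x]

open Classical in
/-- `S m w = ∑ x, u m x w`. -/
private noncomputable def SS {X W : Type} [AddCommGroup X] [Fintype X] [AddCommGroup W] (p : ℕ)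
    (T : Multiplicative X →* LAut W) (ζ : LAut W) (m : X →+ ZMod p) : W →+ W where
  toFun w := ∑ x : X, uu p T ζ m x w
  map_zero' := by simp
  map_add' a b := by simp [Finset.sum_add_distrib]

private theorem SS_apply {X W : Type} [AddCommGroup X] [Fintype X] [AddCommGroup W] (p : ℕ)
    (T : Multiplicative X →* LAut W) (ζ : LAut W) (m : X →+ ZMod p) (w : W) :
    SS p T ζ m w = ∑ x : X, uu p T ζ m x w := rfl

private theorem SS_mem {X W : Type} [AddCommGroup X] [Fintype X] [AddCommGroup W] [Finite W]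
    {p : ℕ} (hp : p.Prime) (T : Multiplicative X →* LAut W) (ζ : LAut W)
    (hζ : ζ ^ p = 1) (hc : ∀ x, ζ * T x = T x * ζ) (m : X →+ ZMod p) (w : W) :
    SS p T ζ m w ∈ Wt p T ζ m := by
  intro y
  show uu p T ζ m y (SS p T ζ m w) = SS p T ζ m w
  rw [SS_apply, map_sum]
  have h1 : ∀ x, uu p T ζ m y (uu p T ζ m x w) = uu p T ζ m (y + x) w := by
    intro x
    rw [uu_add hp T ζ hζ hc, LinearEquiv.mul_apply]
  simp_rw [h1]
  exact Fintype.sum_equiv (Equiv.addLeft y) _ _ (fun x => rfl)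

private theorem SS_self {X W : Type} [AddCommGroup X] [Fintype X] [AddCommGroup W]
    {p : ℕ} (T : Multiplicative X →* LAut W) (ζ : LAut W) (m : X →+ ZMod p) (w : W)
    (hw : w ∈ Wt p T ζ m) : SS p T ζ m w = Nat.card X • w := by
  rw [SS_apply, Finset.sum_congr rfl (fun x _ => (show uu p T ζ m x w = w from hw x))]
  simp

private theorem SS_other {X W : Type} [AddCommGroup X] [Fintype X] [AddCommGroup W] [Finite W]
    {p : ℕ} (hp : p.Prime) (T : Multiplicative X →* LAut W) (ζ : LAut W)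
    (hζ : ζ ^ p = 1) (hc : ∀ x, ζ * T x = T x * ζ) (hf : ∀ w, ζ w = w → w = 0)
    (m m' : X →+ ZMod p) (hmm : m ≠ m') (w : W)
    (hw : w ∈ Wt p T ζ m') : SS p T ζ m w = 0 := by
  obtain ⟨x, hx⟩ : ∃ x, m x ≠ m' x := by
    by_contra hcon
    push Not at hcon
    exact hmm (AddMonoidHom.ext hcon)
  have hd : m x - m' x ≠ 0 := sub_ne_zero.2 hx
  have h1 : SS p T ζ m (uu p T ζ m x w) = SS p T ζ m w := by
    rw [SS_apply, SS_apply]
    have h1 : ∀ y, uu p T ζ m y (uu p T ζ m x w) = uu p T ζ m (y + x) w := by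
      intro y
      rw [uu_add hp T ζ hζ hc, LinearEquiv.mul_apply]
    simp_rw [h1]
    exact Fintype.sum_equiv (Equiv.addRight x) _ _ (fun x => rfl)
  have h2 : ∀ n : ℕ, SS p T ζ m ((ζ ^ n) w) = (ζ ^ n) (SS p T ζ m w) := by
    intro n
    rw [SS_apply, SS_apply, map_sum]
    refine Finset.sum_congr rfl (fun y _ => ?_)
    rw [← LinearEquiv.mul_apply, uu_zeta T ζ hc, LinearEquiv.mul_apply]
  rw [uu_on hp T ζ hζ hc m m' x w hw, h2] at h1
  exact hf _ (fix_of_pow hp ζ hζ _ hd _ h1)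

/-- a finite group killed by the prime `p` has order prime to another prime `q`. -/
private theorem card_coprime {p q : ℕ} (hp : p.Prime) (hq : q.Prime) (hpq : p ≠ q) {G : Type}
    [AddCommGroup G] [Finite G] (hG : ∀ g : G, p • g = 0) : (Nat.card G).Coprime q := by
  rw [Nat.coprime_comm, hq.coprime_iff_not_dvd]
  intro hdv
  haveI : Fact q.Prime := ⟨hq⟩
  obtain ⟨g, hg⟩ := exists_prime_addOrderOf_dvd_card' q hdv
  have h1 : addOrderOf g ∣ p := addOrderOf_dvd_of_nsmul_eq_zero (hG g)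
  rw [hg] at h1
  exact hpq ((Nat.prime_dvd_prime_iff_eq hq hp).1 h1).symm

private theorem smul_inj {q n : ℕ} (hn : n.Coprime q) (hW : ∀ w : W, (q : ℤ) • w = 0) (w : W)
    (h : n • w = 0) : w = 0 := by
  have h1 : addOrderOf w ∣ n := addOrderOf_dvd_of_nsmul_eq_zero h
  have h2 : addOrderOf w ∣ q := addOrderOf_dvd_of_nsmul_eq_zero (by
    have := hW w
    rwa [natCast_zsmul] at this)
  have h3 : addOrderOf w ∣ 1 := by
    rw [← hn.gcd_eq_one]
    exact Nat.dvd_gcd h1 h2
  exact AddMonoid.addOrderOf_eq_one_iff.1 (Nat.dvd_one.1 h3)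

theorem wt_indep (p q : ℕ) (hp : p.Prime) (hq : q.Prime) (hpq : p ≠ q)
    (hX : ∀ x : X, (p : ℤ) • x = 0) (hW : ∀ w : W, (q : ℤ) • w = 0)
    (T : Multiplicative X →* LAut W) (ζ : LAut W) (hζ : ζ ^ p = 1)
    (hc : ∀ x, ζ * T x = T x * ζ) (hf : ∀ w, ζ w = w → w = 0)
    (s : Finset (X →+ ZMod p)) (w : (X →+ ZMod p) → W) (hw : ∀ m ∈ s, w m ∈ Wt p T ζ m)
    (h0 : ∑ m ∈ s, w m = 0) : ∀ m ∈ s, w m = 0 := by
  classical
  haveI := Fintype.ofFinite X
  intro m hm
  have h1 : SS p T ζ m (∑ m ∈ s, w m) = 0 := by rw [h0, map_zero]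
  rw [map_sum, Finset.sum_eq_single_of_mem m hm
    (fun m' hm' hne => SS_other hp T ζ hζ hc hf m m' (Ne.symm hne) _ (hw m' hm')),
    SS_self T ζ m _ (hw m hm)] at h1
  exact smul_inj (card_coprime hp hq hpq (fun x => by
    have := hX x
    rwa [natCast_zsmul] at this)) hW _ h1

private theorem exists_hom_aux {p : ℕ} [Fact p.Prime] {X : Type} [AddCommGroup X] [Module (ZMod p) X]
    (x : X) (hx : x ≠ 0) : ∃ m : X →+ ZMod p, m x = 1 := by
  obtain ⟨g, hg⟩ : ∃ g : X →ₗ[ZMod p] ZMod p, g x ≠ 0 := by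
    by_contra hcon
    push Not at hcon
    exact hx ((Module.forall_dual_apply_eq_zero_iff (ZMod p) x).1 hcon)
  refine ⟨((g x)⁻¹ • g).toAddMonoidHom, ?_⟩
  show (g x)⁻¹ • g x = 1
  rw [smul_eq_mul, inv_mul_cancel₀ hg]

private theorem exists_hom {p : ℕ} (hp : p.Prime) {X : Type} [AddCommGroup X]
    (hX : ∀ x : X, (p : ℤ) • x = 0) (x : X) (hx : x ≠ 0) : ∃ m : X →+ ZMod p, m x = 1 := by
  haveI : Fact p.Prime := ⟨hp⟩
  letI : Module (ZMod p) X := AddCommGroup.zmodModule (fun x => by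
    have := hX x
    rwa [natCast_zsmul] at this)
  exact exists_hom_aux x hx

theorem wt_gen (p q : ℕ) (hp : p.Prime) (hq : q.Prime) (hpq : p ≠ q)
    (hX : ∀ x : X, (p : ℤ) • x = 0) (hW : ∀ w : W, (q : ℤ) • w = 0)
    (T : Multiplicative X →* LAut W) (ζ : LAut W) (hζ : ζ ^ p = 1)
    (hc : ∀ x, ζ * T x = T x * ζ) (hf : ∀ w, ζ w = w → w = 0) :
    (⨆ m : X →+ ZMod p, Wt p T ζ m) = ⊤ := by
  classical
  haveI := Fintype.ofFinite X
  haveI : NeZero p := ⟨hp.ne_zero⟩
  haveI : Finite (X →+ ZMod p) := DFunLike.finite _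
  haveI := Fintype.ofFinite (X →+ ZMod p)
  have key : ∀ w : W, ∑ m : X →+ ZMod p, SS p T ζ m w = Nat.card (X →+ ZMod p) • w := by
    intro w
    simp_rw [SS_apply]
    rw [Finset.sum_comm]
    rw [Finset.sum_eq_single (0 : X)]
    · simp [uu]
    · intro x _ hx
      obtain ⟨m0, hm0⟩ := exists_hom hp hX x hx
      apply hf
      rw [map_sum]
      have h1 : ∀ m : X →+ ZMod p, ζ (uu p T ζ m x w) = uu p T ζ (m + m0) x w := by
        intro m
        haveI : Fact (1 < p) := ⟨hp.one_lt⟩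
        have h2 : uu p T ζ (m + m0) x = ζ ^ 1 * uu p T ζ m x := by
          unfold uu
          rw [AddMonoidHom.add_apply, hm0, add_comm, pow_val_add hp ζ hζ, ZMod.val_one,
            ← mul_assoc, ← commT T ζ hc, mul_assoc]
        rw [h2, pow_one, LinearEquiv.mul_apply]
      simp_rw [h1]
      exact Fintype.sum_equiv (Equiv.addRight m0) _ _ (fun x => rfl)
    · intro h
      exact absurd (Finset.mem_univ _) h
  have hcop : (Nat.card (X →+ ZMod p)).Coprime q := by
    refine card_coprime hp hq hpq (fun g => ?_)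
    ext x
    simp
  rw [eq_top_iff]
  intro w _
  obtain ⟨k, -, hk⟩ := Nat.exists_mul_mod_eq_one_of_coprime hcop hq.one_lt
  have h3 : w = k • ∑ m : X →+ ZMod p, SS p T ζ m w := by
    rw [key, ← mul_smul, mul_comm]
    have h4 : Nat.card (X →+ ZMod p) * k = q * (Nat.card (X →+ ZMod p) * k / q) + 1 := by
      conv_lhs => rw [← Nat.div_add_mod (Nat.card (X →+ ZMod p) * k) q, hk]
    rw [h4, add_smul, one_smul, mul_comm q, mul_smul]
    have h5 : q • w = 0 := by
      have := hW w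
      rwa [natCast_zsmul] at this
    rw [h5, smul_zero, zero_add]
  rw [h3]
  refine AddSubgroup.nsmul_mem _ (AddSubgroup.sum_mem _ (fun m _ => ?_)) _
  exact AddSubgroup.mem_iSup_of_mem m (SS_mem hp T ζ hζ hc m w)

theorem wt_orth (p : ℕ) (hp : p.Prime)
    (T : Multiplicative X →* LAut W) (ζ : LAut W) (hζ : ζ ^ p = 1)
    (hc : ∀ x, ζ * T x = T x * ζ) (hf : ∀ w, ζ w = w → w = 0)
    {R : Type} [AddCommGroup R] (f : W →+ W →+ R) (hT : ∀ x w w', f (T x w) (T x w') = f w w')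
    (hfζ : ∀ w w', f (ζ w) (ζ w') = f w w') (m m' : X →+ ZMod p) (hmm : m ≠ m') (w w' : W)
    (hw : w ∈ Wt p T ζ m) (hw' : w' ∈ Wt p T ζ m') : f w w' = 0 := by
  obtain ⟨x, hx⟩ : ∃ x, m x ≠ m' x := by
    by_contra hcon
    push Not at hcon
    exact hmm (AddMonoidHom.ext hcon)
  have hd : m x - m' x ≠ 0 := sub_ne_zero.2 hx
  have hpw : ∀ (n : ℕ) (a b : W), f ((ζ ^ n) a) ((ζ ^ n) b) = f a b := by
    intro n
    induction n with
    | zero => intro a b; simp
    | succ n ih =>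
      intro a b
      rw [pow_succ, LinearEquiv.mul_apply, LinearEquiv.mul_apply, ih, hfζ]
  have hinv : ∀ a b, f (uu p T ζ m x a) (uu p T ζ m x b) = f a b := by
    intro a b
    unfold uu
    rw [LinearEquiv.mul_apply, LinearEquiv.mul_apply, hT, hpw]
  -- the map `w'' ↦ ζ^d w'' - w''` on `Wt m'`
  have hst : ∀ b ∈ Wt p T ζ m', (ζ ^ (m x - m' x).val) b ∈ Wt p T ζ m' := by
    intro b hb y
    have h1 : T (Multiplicative.ofAdd y) * ζ ^ (m' y).val * ζ ^ (m x - m' x).val =
        ζ ^ (m x - m' x).val * (T (Multiplicative.ofAdd y) * ζ ^ (m' y).val) := by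
      have := uu_zeta T ζ hc m' y (m x - m' x).val
      exact this
    have h2 := congrArg (fun L : LAut W => L b) h1
    simp only [LinearEquiv.mul_apply] at h2
    rw [h2, hb y]
  let g : Wt p T ζ m' → Wt p T ζ m' := fun b =>
    ⟨(ζ ^ (m x - m' x).val) b.1 - b.1, AddSubgroup.sub_mem _ (hst b.1 b.2) b.2⟩
  have hg : Function.Injective g := by
    intro a b hab
    have h1 : (ζ ^ (m x - m' x).val) a.1 - a.1 = (ζ ^ (m x - m' x).val) b.1 - b.1 :=
      congrArg Subtype.val hab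
    have h2 : (ζ ^ (m x - m' x).val) (a.1 - b.1) = a.1 - b.1 := by
      rw [map_sub]
      have h3 : (ζ ^ (m x - m' x).val) a.1 = (ζ ^ (m x - m' x).val) b.1 - b.1 + a.1 := by
        rw [← h1]; abel
      rw [h3]; abel
    have h3 := hf _ (fix_of_pow hp ζ hζ _ hd _ h2)
    exact Subtype.ext (sub_eq_zero.1 h3)
  obtain ⟨b, hb⟩ := Finite.surjective_of_injective hg ⟨w', hw'⟩
  have hb' : (ζ ^ (m x - m' x).val) b.1 - b.1 = w' := congrArg Subtype.val hb
  have h4 := hinv w b.1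
  rw [uu_on hp T ζ hζ hc m m' x b.1 b.2] at h4
  have h5 : uu p T ζ m x w = w := hw x
  rw [h5] at h4
  rw [← hb', map_sub, h4, sub_self]

end Pool.Agent.Work.MP_b44cb1_al.R2
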