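import Pool.Agent.Work.MP_b44cb1_al.Full.MT.Dk
import Pool.Agent.Work.MP_b44cb1_al.Full.MT.Repl
import Pool.Agent.Work.MP_b44cb1_al.Full.Ty.AL
import Pool.Agent.Work.MP_b44cb1_al.Full.R2.ADefs

/-!
# MP_b44cb1_al, block R2, part B : linear models of the layers of a tower (fixed, all proved)
-/

set_option autoImplicit false

namespace Pool.Agent.Work.MP_b44cb1_al.R2

open Subgroup
open scoped commutatorElement

variable {G : Type} [Group G]

/-- KIT lemma K3 for the group `G`. -/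
def K3p (G : Type) [Group G] : Prop :=
  ∀ (p : ℕ) (P F B : Subgroup G), p.Prime → IsPGroup p P → F ≤ P → Nz P F → Nz B P → Nz B F →
    Group.IsNilpotent B → ¬ p ∣ Nat.card B → ∀ x ∈ P, (∀ b ∈ B, b * x * b⁻¹ * x⁻¹ ∈ F) →
      ∃ y ∈ P, (∀ b ∈ B, b * y = y * b) ∧ x⁻¹ * y ∈ F

/-- `W` (with `π`) is a model of `V_i = P i / Fr (P i)`, and `α` of the action of `Gs P i` on it. -/
structure LMod (P : ℕ → Subgroup G) (p : ℕ → ℕ) (i : ℕ) {W : Type} [AddCommGroup W]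
    (π : G → W) (α : G → LAut W) : Prop where
  add : ∀ x ∈ P i, ∀ y ∈ P i, π (x * y) = π x + π y
  surj : ∀ w, ∃ x ∈ P i, π x = w
  ker : ∀ x ∈ P i, π x = 0 ↔ x ∈ Fr (p i) (P i)
  mul : ∀ g ∈ Gs P i, ∀ h ∈ Gs P i, α (g * h) = α g * α h
  act : ∀ g ∈ Gs P i, ∀ x ∈ P i, π (g * x * g⁻¹) = α g (π x)

/-- The commutator form of an extraspecial layer; `z` generates `Fr (P i)` modulo `Kr P i`. -/
structure FMod (P : ℕ → Subgroup G) (p : ℕ → ℕ) (i : ℕ) {W : Type} [AddCommGroup W]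
    (π : G → W) (α : G → LAut W) (z : G) (f : W →+ W →+ ZMod (p i)) : Prop where
  zmem : z ∈ Fr (p i) (P i)
  znk : z ∉ Kr P i
  zgen : ∀ x ∈ Fr (p i) (P i), ∃ j : ℕ, x * z ^ j ∈ Kr P i
  cent : ∀ x ∈ Fr (p i) (P i), ∀ g ∈ Gs P (i + 1), ⁅x, g⁆ ∈ Kr P i
  comm : ∀ x ∈ P i, ∀ y ∈ P i, ⁅x, y⁆ * (z ^ (f (π x) (π y)).val)⁻¹ ∈ Kr P i
  alt : ∀ w, f w w = 0
  nondeg : ∀ w, (∀ w', f w w' = 0) → w = 0
  inv : ∀ g ∈ Gs P i, ∀ w w', f (α g w) (α g w') = f w w'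

/-- Layer `i` contains an orthogonal isometric family of `k` copies of some `Y`-group `J`, and
`|J| ≥ N`. -/
def HasO (P : ℕ → Subgroup G) (p : ℕ → ℕ) (i : ℕ) (Y : Subgroup G) (k N : ℕ) : Prop :=
  ∃ (W : Type) (_ : AddCommGroup W) (_ : Finite W) (π : G → W) (α : G → LAut W) (z : G)
    (f : W →+ W →+ ZMod (p i)) (ρ : Y →* LAut W) (J : Type) (_ : AddCommGroup J) (_ : Finite J)
    (σ : Y →* LAut J) (φ : Fin k → J →+ W),
    LMod P p i π α ∧ FMod P p i π α z f ∧ (∀ y : Y, ρ y = α y) ∧ OFW ρ f σ φ ∧ N ≤ Nat.card J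

section LM

variable {P : ℕ → Subgroup G} {p : ℕ → ℕ} {i : ℕ} {W : Type} [AddCommGroup W] {π : G → W}
  {α : G → LAut W}

theorem LMod.one (L : LMod P p i π α) : π 1 = 0 := by
  have h := L.add 1 (one_mem _) 1 (one_mem _)
  rw [mul_one] at h
  exact left_eq_add.1 h

theorem LMod.inv (L : LMod P p i π α) {x : G} (hx : x ∈ P i) : π x⁻¹ = - π x := by
  have h := L.add x hx x⁻¹ (inv_mem hx)
  rw [mul_inv_cancel, L.one] at h
  exact (neg_eq_of_add_eq_zero_right h.symm).symm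

theorem LMod.pow (L : LMod P p i π α) {x : G} (hx : x ∈ P i) (m : ℕ) : π (x ^ m) = m • π x := by
  induction m with
  | zero => rw [pow_zero, L.one, zero_smul]
  | succ m ih => rw [pow_succ, L.add _ (pow_mem hx m) _ hx, ih, succ_nsmul]

/-- `π x = π y` iff `x⁻¹ y ∈ Fr`. -/
theorem LMod.eq_iff (L : LMod P p i π α) {x y : G} (hx : x ∈ P i) (hy : y ∈ P i) :
    π x = π y ↔ x⁻¹ * y ∈ Fr (p i) (P i) := by
  rw [← L.ker _ (mul_mem (inv_mem hx) hy), L.add _ (inv_mem hx) _ hy, L.inv hx, neg_add_eq_zero]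

theorem LMod.expo (L : LMod P p i π α) (w : W) : ((p i : ℕ) : ℤ) • w = 0 := by
  obtain ⟨x, hx, rfl⟩ := L.surj w
  rw [natCast_zsmul, ← L.pow hx, L.ker _ (pow_mem hx _)]
  exact pow_mem_fr hx

theorem LMod.aone (L : LMod P p i π α) : α 1 = 1 := by
  have h := L.mul 1 (one_mem _) 1 (one_mem _)
  rw [mul_one] at h
  exact left_eq_mul.1 h

theorem LMod.ainv (L : LMod P p i π α) {g : G} (hg : g ∈ Gs P i) : α g⁻¹ = (α g)⁻¹ := by
  have h := L.mul g hg g⁻¹ (inv_mem hg)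
  rw [mul_inv_cancel, L.aone] at h
  exact (inv_eq_of_mul_eq_one_right h.symm).symm

theorem LMod.apow (L : LMod P p i π α) {g : G} (hg : g ∈ Gs P i) (m : ℕ) :
    α (g ^ m) = α g ^ m := by
  induction m with
  | zero => rw [pow_zero, pow_zero, L.aone]
  | succ m ih => rw [pow_succ, pow_succ, L.mul _ (pow_mem hg m) _ hg, ih]

theorem LMod.aone_of_comm (L : LMod P p i π α) {g : G} (hg : g ∈ Gs P i)
    (h : ∀ x ∈ P i, g * x = x * g) : α g = 1 := by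
  ext w
  obtain ⟨x, hx, rfl⟩ := L.surj w
  rw [← L.act g hg x hx, h x hx, mul_inv_cancel_right]
  rfl

/-- The homomorphism `Y → LAut W`. -/
theorem LMod.hom (L : LMod P p i π α) {Y : Subgroup G} (hY : Y ≤ Gs P i) :
    ∃ ρ : Y →* LAut W, ∀ y : Y, ρ y = α y :=
  ⟨{ toFun := fun y => α y
     map_one' := L.aone
     map_mul' := fun a b => L.mul a (hY a.2) b (hY b.2) }, fun _ => rfl⟩

/-- `Kr P i` acts trivially on layer `i + 1`. -/
theorem LMod.kr_one {π' : G → W} {α' : G → LAut W} (L : LMod P p (i + 1) π' α') {k : G}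
    (hk : k ∈ Kr P i) : α' k = 1 :=
  L.aone_of_comm (le_gs' P (Nat.lt_succ_self i) (kr_le P i hk)) fun _ hx => kr_comm hk hx

theorem LMod.kr_mul {π' : G → W} {α' : G → LAut W} (L : LMod P p (i + 1) π' α') {g k : G}
    (hg : g ∈ Gs P (i + 1)) (hk : g * k⁻¹ ∈ Kr P i) (hk' : k ∈ Gs P (i + 1)) : α' g = α' k := by
  have h := L.kr_one hk
  rw [L.mul _ hg _ (inv_mem hk'), L.ainv hk'] at h
  exact mul_inv_eq_one.1 h

end LM

theorem LMod.aone_iff [Finite G] {P : ℕ → Subgroup G} {p : ℕ → ℕ} {n i : ℕ} {W : Type}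
    [AddCommGroup W] {π : G → W} {α : G → LAut W} (T : WTow P p n) (h5 : K5p G) (hi : i < n)
    (L : LMod P p i π α) {g : G} (hg : g ∈ Gs P i) : α g = 1 ↔ g ∈ Dk P i := by
  constructor
  · intro h
    refine T.mem_dk h5 hi hg fun v hv => ?_
    have hgv : g * v * g⁻¹ ∈ P i := T.norm i hi g hg v hv
    have h1 : π (g * v * g⁻¹) = π v := by rw [L.act g hg v hv, h]; rfl
    have h2 := (L.eq_iff (inv_mem hgv) (inv_mem hv)).1 (by rw [L.inv hgv, L.inv hv, h1])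
    rwa [inv_inv] at h2
  · intro h
    exact L.aone_of_comm hg fun x hx => dk_comm h hx

end Pool.Agent.Work.MP_b44cb1_al.R2
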