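import Pool.Agent.Work.MP_b44cb1_al.Full.R2.BMod

/-!
# R2/BEsa (M) : the action of an extraspecial layer on the next layer

`L` is a model of layer `i` with form `F`, `L'` a model of layer `i + 1`. `P i ≤ Gs P (i+1)` and
`Gs P i ≤ Gs P (i+1)` (`le_gs'`, `gs_mono'`). `α'` is trivial on `Kr P i` (`LMod.kr_one`), and
`α' g = α' k` if `g k⁻¹ ∈ Kr P i` (`LMod.kr_mul`). `z ∈ Fr (p i) (P i) ≤ P i`.
* `z_central` : `α' z * α' g = α' g * α' z` for `g ∈ Gs P (i+1)` : from `F.cent`, `⁅z, g⁆ ∈ Kr P i`.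
* `z_pow` : `α' z ^ p i = 1` : `T.expo`, `LMod.apow`.
* `z_fpf` : let `R = {x ∈ P (i+1) | α' z (π' x) = π' x}`; it is a subgroup of `P (i+1)` containing
  `Fr (p (i+1)) (P (i+1))`, normalised by `Gs P (i+1)` : `π' (g x g⁻¹) = α' g (π' x)` and `α' z` commutes with
  `α' g`. By `T.irr (i+1)` either `R ≤ Fr` : then a fixed vector `w = π' x` has `x ∈ R ≤ Fr`, so `w = 0`; or
  `R = P (i+1)` : then `α' z = 1`, so `z ∈ Dk P (i+1)` (`LMod.aone_iff`), it commutes with `P (i+1)`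
  (`dk_comm`) and `z ∈ P i`, so `z ∈ Kr P i`, contradicting `F.znk`.
* `esa_of` : `κ` from `exists_kappa` (`Nz Y (P i)`), `αE`, `αY` from `L'.hom`, `zE = ⟨z, _⟩`.
  `ker` : `π x = 0` gives `x ∈ Fr`, `zgen` gives `x z^j ∈ Kr`, so `αE x = (αE z ^ j)⁻¹ = αE z ^ ((p i - 1) j)`.
  `comm` : `F.comm` and `kr_mul`. `expo` : `T.expo`. `triv` : `ρ y = 1` gives `y ∈ Dk P i` (`LMod.aone_iff`), so `y`
  commutes with `P i`, `κ y x = x`.
-/

set_option autoImplicit false

namespace Pool.Agent.Work.MP_b44cb1_al.R2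

open Subgroup
open scoped commutatorElement

variable {G : Type} [Group G] [Finite G] {P : ℕ → Subgroup G} {p : ℕ → ℕ} {n : ℕ}

theorem z_central {i : ℕ} {W W' : Type} [AddCommGroup W] [AddCommGroup W'] {π : G → W}
    {α : G → LAut W} {π' : G → W'} {α' : G → LAut W'} {z : G} {f : W →+ W →+ ZMod (p i)}
    (F : FMod P p i π α z f) (L' : LMod P p (i + 1) π' α') {g : G} (hg : g ∈ Gs P (i + 1)) :
    α' z * α' g = α' g * α' z := by
  have hz : z ∈ Gs P (i + 1) := le_gs' P (Nat.lt_succ_self i) (fr_le _ _ F.zmem)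
  rw [← L'.mul z hz g hg, ← L'.mul g hg z hz]
  refine L'.kr_mul (mul_mem hz hg) ?_ (mul_mem hg hz)
  have h := F.cent z F.zmem g hg
  have e : z * g * (g * z)⁻¹ = ⁅z, g⁆ := by rw [commutatorElement_def]; group
  rw [e]
  exact h

theorem z_pow (T : MTow P p n) {i : ℕ} (h1 : 1 ≤ i) (hi : i + 1 < n) {W W' : Type}
    [AddCommGroup W] [AddCommGroup W'] {π : G → W} {α : G → LAut W} {π' : G → W'}
    {α' : G → LAut W'} {z : G} {f : W →+ W →+ ZMod (p i)}
    (F : FMod P p i π α z f) (L' : LMod P p (i + 1) π' α') : α' z ^ (p i) = 1 := by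
  have hzP : z ∈ P i := fr_le _ _ F.zmem
  have hz : z ∈ Gs P (i + 1) := le_gs' P (Nat.lt_succ_self i) hzP
  rw [← L'.apow hz]
  exact L'.kr_one (T.expo i h1 hi z hzP)

theorem z_fpf (T : MTow P p n) (h5 : K5p G) {i : ℕ} (hi : i + 1 < n) {W W' : Type}
    [AddCommGroup W] [AddCommGroup W'] {π : G → W} {α : G → LAut W} {π' : G → W'}
    {α' : G → LAut W'} {z : G} {f : W →+ W →+ ZMod (p i)}
    (F : FMod P p i π α z f) (L' : LMod P p (i + 1) π' α') (w : W') (hw : α' z w = w) :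
    w = 0 := by
  have hzP : z ∈ P i := fr_le _ _ F.zmem
  have hz : z ∈ Gs P (i + 1) := le_gs' P (Nat.lt_succ_self i) hzP
  let R : Subgroup G :=
    { carrier := {x | x ∈ P (i + 1) ∧ α' z (π' x) = π' x}
      one_mem' := ⟨one_mem _, by rw [L'.one, map_zero]⟩
      mul_mem' := by
        rintro x y ⟨hx, hx'⟩ ⟨hy, hy'⟩
        exact ⟨mul_mem hx hy, by rw [L'.add x hx y hy, map_add, hx', hy']⟩
      inv_mem' := by
        rintro x ⟨hx, hx'⟩
        exact ⟨inv_mem hx, by rw [L'.inv hx, map_neg, hx']⟩ }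
  have hRP : R ≤ P (i + 1) := fun x hx => hx.1
  have hRn : Nz (Gs P (i + 1)) R := by
    rintro g hg x ⟨hx, hx'⟩
    refine ⟨T.norm (i + 1) hi g hg x hx, ?_⟩
    rw [L'.act g hg x hx]
    have h1 := z_central F L' hg
    calc α' z (α' g (π' x)) = (α' z * α' g) (π' x) := rfl
      _ = (α' g * α' z) (π' x) := by rw [h1]
      _ = α' g (α' z (π' x)) := rfl
      _ = α' g (π' x) := by rw [hx']
  rcases T.irr (i + 1) hi R hRP hRn with h | h
  · exfalso
    have h1 : α' z = 1 := by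
      ext w
      obtain ⟨x, hx, rfl⟩ := L'.surj w
      have hx2 : x ∈ R := by rw [h]; exact hx
      exact hx2.2
    have h2 : z ∈ Dk P (i + 1) := (L'.aone_iff T.toWTow h5 hi hz).1 h1
    exact F.znk ⟨hzP, h2.2⟩
  · obtain ⟨x, hx, rfl⟩ := L'.surj w
    exact (L'.ker x hx).2 (h ⟨hx, hw⟩)

theorem esa_of (T : MTow P p n) (h5 : K5p G) {i : ℕ} (h1 : 1 ≤ i) (hi : i + 1 < n) {W W' : Type}
    [AddCommGroup W] [AddCommGroup W'] {π : G → W} {α : G → LAut W} {π' : G → W'}
    {α' : G → LAut W'} {z : G} {f : W →+ W →+ ZMod (p i)} (L : LMod P p i π α)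
    (F : FMod P p i π α z f) (L' : LMod P p (i + 1) π' α') {Y : Subgroup G} (hY : Y ≤ Gs P i)
    (ρ : Y →* LAut W) (hρ : ∀ y : Y, ρ y = α y) :
    ∃ (κ : Y →* MulAut (P i)) (αE : P i →* LAut W') (αY : Y →* LAut W') (zE : P i),
      (∀ x : P i, αE x = α' x) ∧ (∀ y : Y, αY y = α' y) ∧
      ESA (p i) κ (fun x : P i => π x) ρ f zE αE αY := by
  have hi' : i < n := by omega
  have hYP : Nz Y (P i) := fun y hy x hx => T.norm i hi' y (hY hy) x hx
  have hPG : P i ≤ Gs P (i + 1) := le_gs' P (Nat.lt_succ_self i)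
  have hYG : Y ≤ Gs P (i + 1) := hY.trans (gs_mono' P (Nat.le_succ i))
  obtain ⟨κ, hκ⟩ := exists_kappa hYP
  obtain ⟨αE, hαE⟩ := L'.hom hPG
  obtain ⟨αY, hαY⟩ := L'.hom hYG
  have hzP : z ∈ P i := fr_le _ _ F.zmem
  have hz : z ∈ Gs P (i + 1) := hPG hzP
  have hzp : α' z ^ (p i) = 1 := z_pow T h1 hi F L'
  refine ⟨κ, αE, αY, ⟨z, hzP⟩, hαE, hαY, ?_⟩
  have hαz : αE ⟨z, hzP⟩ = α' z := hαE _
  exact
    { add := fun x x' => L.add x x.2 x' x'.2
      surj := fun w => by
        obtain ⟨x, hx, h⟩ := L.surj w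
        exact ⟨⟨x, hx⟩, h⟩
      eqv := fun y x => by
        change π ((κ y x : P i) : G) = ρ y (π x)
        rw [hκ, L.act y (hY y.2) x x.2, hρ]
      act := fun y x => by
        rw [hαY, hαE, hαE, hκ, L'.mul _ (mul_mem (hYG y.2) (hPG x.2)) _ (inv_mem (hYG y.2)),
          L'.mul _ (hYG y.2) _ (hPG x.2), L'.ainv (hYG y.2)]
      piz := (L.ker z hzP).2 F.zmem
      ker := fun x hx => by
        have hx' : (x : G) ∈ Fr (p i) (P i) := (L.ker x x.2).1 hx
        obtain ⟨j, hj⟩ := F.zgen x hx'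
        refine ⟨(p i - 1) * j, ?_⟩
        have h2 := L'.kr_one hj
        rw [L'.mul _ (hPG x.2) _ (pow_mem hz j), L'.apow hz] at h2
        rw [hαz, hαE, eq_inv_of_mul_eq_one_left h2]
        symm
        rw [eq_inv_iff_mul_eq_one, ← pow_add]
        have h3 : (p i - 1) * j + j = p i * j := by
          have := (T.prime i hi').pos
          obtain ⟨q, hq⟩ : ∃ q, p i = q + 1 := ⟨p i - 1, by omega⟩
          rw [hq]
          simp only [Nat.add_sub_cancel]
          ring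
        rw [h3, pow_mul, hzp, one_pow]
      zp := by rw [hαz]; exact hzp
      zE := fun x => by
        rw [hαz, hαE]
        exact z_central F L' (hPG x.2)
      zY := fun y => by
        rw [hαz, hαY]
        exact z_central F L' (hYG y.2)
      zfpf := fun w hw => z_fpf T h5 hi F L' w (by rw [hαz] at hw; exact hw)
      comm := fun x x' => by
        rw [hαz, hαE, ← L'.apow hz]
        have hx : (⁅x, x'⁆ : P i) ∈ (⊤ : Subgroup (P i)) := mem_top _
        have e : ((⁅x, x'⁆ : P i) : G) = ⁅(x : G), (x' : G)⁆ := by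
          rw [commutatorElement_def, commutatorElement_def]
          push_cast
          rfl
        have h2 := F.comm x x.2 x' x'.2
        rw [← e] at h2
        exact L'.kr_mul (hPG (⁅x, x'⁆ : P i).2) h2 (pow_mem hz _)
      alt := F.alt
      nondeg := F.nondeg
      expo := fun x => by
        rw [hαE, ← L'.apow (hPG x.2)]
        exact L'.kr_one (T.expo i h1 hi x x.2)
      triv := fun y hy x => by
        have h2 : α (y : G) = 1 := by rw [← hρ]; exact hy
        have h3 : (y : G) ∈ Dk P i := (L.aone_iff T.toWTow h5 hi' (hY y.2)).1 h2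
        have h4 : κ y x = x := by
          apply Subtype.ext
          rw [hκ, dk_comm h3 x.2, mul_inv_cancel_right]
        rw [h4] }

end Pool.Agent.Work.MP_b44cb1_al.R2
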