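import Pool.Agent.Work.MP_b44cb1_al.Full.R2.BDefs

/-!
# R2/BMod (M) : existence of linear models, sizes

* `exists_LMod`. Let `V = P i`, `F = Fr (p i) V`; `F ≤ V`, `⁅V, V⁆ ≤ F` (`comm_le_fr`), so `F.subgroupOf V` is
  normal and the quotient is commutative. `W = Additive (V ⧸ F.subgroupOf V)` with an explicit `AddCommGroup`
  structure (commutativity from `comm_mem_fr`), finite. `π g = ofMul (mk g)` for `g ∈ V`, `0` otherwise
  (`open Classical`, `dif_pos`). For `g ∈ Gs P i`, conjugation by `g` is an automorphism of `V` which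
  preserves `F` (`nz_fr`), so it induces an automorphism of the quotient (`QuotientGroup.congr`), `α g`; for
  `g ∉ Gs P i` let `α g = 1`. (Alternatively define `α g` for `g ∈ Gs P i` as the additive map
  `mk x ↦ mk (g x g⁻¹)` with inverse from `g⁻¹`.)
* `LMod.nontriv` : otherwise `P i ≤ Fr (p i) (P i)` (`ker`), and K6 with `R = ⊥` gives `P i = ⊥`.
* `LMod.image` : for `R ≤ P i` the image `π R` is an additive subgroup `H` of `W` of size
  `(Fr (p i) (P i)).relIndex R` : `R → H` is a surjective homomorphism with kernel `R ∩ Fr`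
  (first isomorphism theorem; `Subgroup.relIndex`, `Subgroup.index_ker`, `Nat.card` of the range). Convert with
  `Multiplicative H`.
* `exists_kappa` : conjugation.
* `nil_sup` : the homomorphism `MonoidHom.noncommCoprod A.subtype B.subtype` on `A × B` has range `A ⊔ B`
  (`MonoidHom.noncommCoprod_range`), `Group.nilpotent_of_surjective` applied to its `rangeRestrict`.
* `gs_odd` : induction on `i` : `Gs P (i+1) = Gs P i ⊔ P i`, `Gs P i` normalises `P i`, so every element of
  `Gs P (i+1)` is a product `g v` and `|Gs P (i+1)|` divides (or equals) `|Gs P i| |P i|` (`Gs P i ⊓ P i = ⊥` by `T.cop`,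
  compare `NNOdd.lean`, `nnodd_card`); `|P i|` is a power of `p i` (`IsPGroup.iff_card`). Then `Odd` is inherited by
  subgroups (`Subgroup.card_dvd_of_le`).
-/

set_option autoImplicit false

namespace Pool.Agent.Work.MP_b44cb1_al.R2

open Subgroup
open scoped commutatorElement

variable {G : Type} [Group G] [Finite G] {P : ℕ → Subgroup G} {p : ℕ → ℕ} {n : ℕ}

private theorem exists_lin {V : Subgroup G} {W : Type} [AddCommGroup W] (π : G → W)
    (hadd : ∀ x ∈ V, ∀ y ∈ V, π (x * y) = π x + π y) (hsurj : ∀ w, ∃ x ∈ V, π x = w)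
    (f : G → G) (hf : ∀ x ∈ V, f x ∈ V) (hf2 : ∀ x ∈ V, ∀ y ∈ V, f (x * y) = f x * f y)
    (hf3 : ∀ x ∈ V, π x = 0 → π (f x) = 0) :
    ∃ e : W →+ W, ∀ x ∈ V, e (π x) = π (f x) := by
  have hone : π 1 = 0 := by
    have h := hadd 1 (one_mem _) 1 (one_mem _)
    rw [mul_one] at h
    exact left_eq_add.1 h
  have hwd : ∀ x ∈ V, ∀ y ∈ V, π x = π y → π (f x) = π (f y) := by
    intro x hx y hy hxy
    have hinv : π y⁻¹ = - π y := by
      have h := hadd y hy y⁻¹ (inv_mem hy)
      rw [mul_inv_cancel, hone] at h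
      exact (neg_eq_of_add_eq_zero_right h.symm).symm
    have h1 : π (x * y⁻¹) = 0 := by rw [hadd x hx _ (inv_mem hy), hinv, hxy, add_neg_cancel]
    have h2 := hf3 _ (mul_mem hx (inv_mem hy)) h1
    have h3 : f x = f (x * y⁻¹) * f y := by
      rw [← hf2 _ (mul_mem hx (inv_mem hy)) _ hy, inv_mul_cancel_right]
    rw [h3, hadd _ (hf _ (mul_mem hx (inv_mem hy))) _ (hf y hy), h2, zero_add]
  choose s hs1 hs2 using hsurj
  refine ⟨AddMonoidHom.mk' (fun w => π (f (s w))) fun w w' => ?_, fun x hx => ?_⟩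
  · rw [← hadd _ (hf _ (hs1 w)) _ (hf _ (hs1 w')), ← hf2 _ (hs1 w) _ (hs1 w')]
    refine hwd _ (hs1 _) _ (mul_mem (hs1 w) (hs1 w')) ?_
    rw [hs2, hadd _ (hs1 w) _ (hs1 w'), hs2, hs2]
  · exact hwd _ (hs1 _) _ hx (hs2 _)

theorem exists_LMod (T : WTow P p n) {i : ℕ} (hi : i < n) :
    ∃ (W : Type) (_ : AddCommGroup W) (_ : Finite W) (π : G → W) (α : G → LAut W),
      LMod P p i π α := by
  classical
  have hFn : ((Fr (p i) (P i)).subgroupOf (P i)).Normal :=
    (nz_fr (p i) (nz_self (P i))).subgroupOf_normal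
  let F : Subgroup (P i) := (Fr (p i) (P i)).subgroupOf (P i)
  have hcomm : ∀ a b : (P i) ⧸ F, a * b = b * a := by
    intro a b
    obtain ⟨a, rfl⟩ := QuotientGroup.mk'_surjective F a
    obtain ⟨b, rfl⟩ := QuotientGroup.mk'_surjective F b
    rw [← map_mul, ← map_mul]
    refine (QuotientGroup.eq (s := F)).2 ?_
    rw [mem_subgroupOf]
    have h1 : (((a * b)⁻¹ * (b * a) : P i) : G) = ⁅(b : G)⁻¹, (a : G)⁻¹⁆ := by
      rw [commutatorElement_def]
      push_cast
      group
    rw [h1]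
    exact comm_mem_fr (inv_mem b.2) (inv_mem a.2)
  letI : CommGroup ((P i) ⧸ F) := { (inferInstance : Group ((P i) ⧸ F)) with mul_comm := hcomm }
  let W : Type := Additive ((P i) ⧸ F)
  have hfinW : Finite W := inferInstanceAs (Finite ((P i) ⧸ F))
  let π : G → W := fun g => if h : g ∈ P i then Additive.ofMul (QuotientGroup.mk' F ⟨g, h⟩) else 0
  have hπ : ∀ (g : G) (h : g ∈ P i), π g = Additive.ofMul (QuotientGroup.mk' F ⟨g, h⟩) :=
    fun g h => dif_pos h
  have hadd : ∀ x ∈ P i, ∀ y ∈ P i, π (x * y) = π x + π y := by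
    intro x hx y hy
    rw [hπ x hx, hπ y hy, hπ _ (mul_mem hx hy), ← ofMul_mul, ← map_mul]
    rfl
  have hsurj : ∀ w, ∃ x ∈ P i, π x = w := by
    intro w
    obtain ⟨x, hx⟩ := QuotientGroup.mk'_surjective F (Additive.toMul w)
    refine ⟨x, x.2, ?_⟩
    rw [hπ x x.2]
    exact hx
  have hker : ∀ x ∈ P i, π x = 0 ↔ x ∈ Fr (p i) (P i) := by
    intro x hx
    rw [hπ x hx]
    have h1 : (Additive.ofMul (QuotientGroup.mk' F ⟨x, hx⟩) = 0) ↔
        (QuotientGroup.mk' F ⟨x, hx⟩ = 1) := Iff.rfl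
    rw [h1, ← MonoidHom.mem_ker, QuotientGroup.ker_mk', mem_subgroupOf]
  have key : ∀ g ∈ Gs P i, ∃ e : W →+ W, ∀ x ∈ P i, e (π x) = π (g * x * g⁻¹) := by
    intro g hg
    refine exists_lin π hadd hsurj (fun x => g * x * g⁻¹) (fun x hx => T.norm i hi g hg x hx)
      (fun x _ y _ => by group) (fun x hx h => ?_)
    rw [hker _ (T.norm i hi g hg x hx)]
    rw [hker x hx] at h
    exact nz_fr (p i) (T.norm i hi) g hg x h
  have key2 : ∀ g ∈ Gs P i, ∃ e : LAut W, ∀ x ∈ P i, e (π x) = π (g * x * g⁻¹) := by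
    intro g hg
    obtain ⟨e, he⟩ := key g hg
    obtain ⟨e', he'⟩ := key g⁻¹ (inv_mem hg)
    refine ⟨AddEquiv.toIntLinearEquiv
      { toFun := e
        invFun := e'
        left_inv := fun w => ?_
        right_inv := fun w => ?_
        map_add' := fun a b => map_add e a b }, fun x hx => he x hx⟩
    · obtain ⟨x, hx, rfl⟩ := hsurj w
      rw [he x hx, he' _ (T.norm i hi g hg x hx)]
      congr 1
      group
    · obtain ⟨x, hx, rfl⟩ := hsurj w
      rw [he' x hx, he _ (T.norm i hi g⁻¹ (inv_mem hg) x hx)]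
      congr 1
      group
  let α : G → LAut W := fun g => if h : g ∈ Gs P i then (key2 g h).choose else 1
  have hα : ∀ g ∈ Gs P i, ∀ x ∈ P i, α g (π x) = π (g * x * g⁻¹) := by
    intro g hg x hx
    have h1 : α g = (key2 g hg).choose := dif_pos hg
    rw [h1]
    exact (key2 g hg).choose_spec x hx
  refine ⟨W, inferInstance, hfinW, π, α, hadd, hsurj, hker, ?_, ?_⟩
  · intro g hg h hh
    refine LinearEquiv.ext fun w => ?_
    obtain ⟨x, hx, rfl⟩ := hsurj w
    have h1 : (α g * α h) (π x) = α g (α h (π x)) := rfl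
    rw [h1, hα h hh x hx, hα g hg _ (T.norm i hi h hh x hx), hα _ (mul_mem hg hh) x hx]
    congr 1
    group
  · intro g hg x hx
    exact (hα g hg x hx).symm

theorem LMod.nontriv {i : ℕ} {W : Type} [AddCommGroup W] {π : G → W} {α : G → LAut W}
    (L : LMod P p i π α) (T : WTow P p n) (h6 : K6p G) (hi : i < n) (hP : P i ≠ ⊥) :
    Nontrivial W := by
  by_contra hcon
  rw [not_nontrivial_iff_subsingleton] at hcon
  refine hP (h6 (p i) (P i) ⊥ (T.prime i hi) (T.pgrp i hi) bot_le ?_).symm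
  intro x hx
  exact mem_sup_right ((L.ker x hx).1 (Subsingleton.elim _ _))

theorem LMod.image {i : ℕ} {W : Type} [AddCommGroup W] {π : G → W} {α : G → LAut W}
    (L : LMod P p i π α) {R : Subgroup G} (hR : R ≤ P i) :
    ∃ H : AddSubgroup W, (∀ w, w ∈ H ↔ ∃ x ∈ R, π x = w) ∧
      Nat.card H = (Fr (p i) (P i)).relIndex R := by
  let f : R →* Multiplicative W :=
    { toFun := fun x => Multiplicative.ofAdd (π x)
      map_one' := congrArg Multiplicative.ofAdd L.one
      map_mul' := fun x y => congrArg Multiplicative.ofAdd (L.add x (hR x.2) y (hR y.2)) }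
  let H : AddSubgroup W :=
    { carrier := {w | ∃ x ∈ R, π x = w}
      zero_mem' := ⟨1, one_mem _, L.one⟩
      add_mem' := by
        rintro _ _ ⟨x, hx, rfl⟩ ⟨y, hy, rfl⟩
        exact ⟨x * y, mul_mem hx hy, L.add x (hR hx) y (hR hy)⟩
      neg_mem' := by
        rintro _ ⟨x, hx, rfl⟩
        exact ⟨x⁻¹, inv_mem hx, L.inv (hR hx)⟩ }
  refine ⟨H, fun w => Iff.rfl, ?_⟩
  have h1 : f.ker = (Fr (p i) (P i)).subgroupOf R := by
    ext x
    rw [MonoidHom.mem_ker, mem_subgroupOf, ← L.ker x (hR x.2)]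
    exact Iff.rfl
  have h2 : Nat.card f.range = (Fr (p i) (P i)).relIndex R := by
    rw [← Subgroup.index_ker, h1]
    rfl
  rw [← h2]
  refine Nat.card_congr (Equiv.subtypeEquiv Multiplicative.ofAdd fun w => ?_)
  constructor
  · rintro ⟨x, hx, rfl⟩
    exact ⟨⟨x, hx⟩, rfl⟩
  · rintro ⟨x, hx⟩
    exact ⟨x, x.2, hx⟩

theorem exists_kappa {Y V : Subgroup G} (h : Nz Y V) :
    ∃ κ : Y →* MulAut V, ∀ (y : Y) (x : V), ((κ y x : V) : G) = y * x * (y : G)⁻¹ := by
  let c : Y → V → V := fun y x => ⟨y * x * (y : G)⁻¹, h y y.2 x x.2⟩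
  have hc : ∀ (y : Y) (x : V), ((c y x : V) : G) = y * x * (y : G)⁻¹ := fun _ _ => rfl
  refine ⟨MonoidHom.mk' (fun y =>
    { toFun := c y
      invFun := c y⁻¹
      left_inv := fun x => Subtype.ext (by rw [hc, hc]; push_cast; group)
      right_inv := fun x => Subtype.ext (by rw [hc, hc]; push_cast; group)
      map_mul' := fun x x' => Subtype.ext (by rw [hc]; push_cast; rw [hc, hc]; group) })
    fun y y' => ?_, fun y x => rfl⟩
  refine MulEquiv.ext fun x => Subtype.ext ?_
  change ((c (y * y') x : V) : G) = ((c y (c y' x) : V) : G)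
  rw [hc, hc, hc]
  push_cast
  group

theorem nil_sup {A B : Subgroup G} (h : Cz A B) (hA : Group.IsNilpotent A)
    (hB : Group.IsNilpotent B) : Group.IsNilpotent (A ⊔ B : Subgroup G) := by
  let f : A × B →* G := MonoidHom.noncommCoprod A.subtype B.subtype fun a b => h a a.2 b b.2
  have h1 : f.range = A ⊔ B := by
    rw [MonoidHom.noncommCoprod_range, Subgroup.range_subtype, Subgroup.range_subtype]
  rw [← h1]
  exact Group.nilpotent_of_surjective f.rangeRestrict f.rangeRestrict_surjective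

private theorem inf_gs_bot (T : WTow P p n) {j : ℕ} (hj : j < n) {v : G} (hv : v ∈ P j)
    (hv' : v ∈ Gs P j) : v = 1 := by
  by_contra hne
  have hp : Fact (p j).Prime := ⟨T.prime j hj⟩
  obtain ⟨k, hk⟩ := (IsPGroup.iff_orderOf.1 (T.pgrp j hj)) ⟨v, hv⟩
  rw [Subgroup.orderOf_mk] at hk
  have h1 : orderOf v ∣ Nat.card (Gs P j) := Subgroup.orderOf_dvd_natCard _ hv'
  have hk0 : k ≠ 0 := by
    rintro rfl
    rw [pow_zero, orderOf_eq_one_iff] at hk
    exact hne hk
  apply T.cop j hj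
  refine Dvd.dvd.trans ?_ h1
  rw [hk]
  exact dvd_pow_self _ hk0

private theorem card_gs (T : WTow P p n) {i : ℕ} (hi : i < n) :
    Nat.card (Gs P i ⊔ P i : Subgroup G) = Nat.card (Gs P i) * Nat.card (P i) := by
  rw [← Nat.card_prod]
  symm
  refine Nat.card_eq_of_bijective (fun x : Gs P i × P i =>
    (⟨x.1 * x.2, mul_mem (mem_sup_left x.1.2) (mem_sup_right x.2.2)⟩ :
      (Gs P i ⊔ P i : Subgroup G))) ⟨?_, ?_⟩
  · rintro ⟨g, v⟩ ⟨g', v'⟩ h
    have h1 : (g : G) * v = g' * v' :=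
      congrArg (fun x : (Gs P i ⊔ P i : Subgroup G) => (x : G)) h
    have h2 : (g' : G)⁻¹ * g = v' * (v : G)⁻¹ := by
      have h3 : (g : G) = g' * v' * (v : G)⁻¹ := by rw [← h1]; group
      rw [h3]; group
    have h3 : (g' : G)⁻¹ * g = 1 := by
      refine inf_gs_bot T hi ?_ ((Gs P i).mul_mem ((Gs P i).inv_mem g'.2) g.2)
      rw [h2]
      exact (P i).mul_mem v'.2 ((P i).inv_mem v.2)
    have h4 : (g' : G) = g := inv_mul_eq_one.1 h3
    have h5 : (v' : G) = v := by
      rw [h3] at h2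
      exact (mul_inv_eq_one.1 h2.symm)
    rw [Prod.mk.injEq]
    exact ⟨Subtype.ext h4.symm, Subtype.ext h5.symm⟩
  · rintro ⟨x, hx⟩
    rw [← SetLike.mem_coe, coe_mul_of_left_le_normalizer_right _ _
      (nz_iff.1 (T.norm i hi))] at hx
    obtain ⟨g, hg, v, hv, hgv⟩ := hx
    exact ⟨⟨⟨g, hg⟩, ⟨v, hv⟩⟩, Subtype.ext hgv⟩

theorem gs_odd (T : WTow P p n) (hodd : ∀ i < n, p i ≠ 2) {i : ℕ} (hi : i ≤ n) {Y : Subgroup G}
    (hY : Y ≤ Gs P i) : Odd (Nat.card Y) := by
  have key : ∀ i, i ≤ n → Odd (Nat.card (Gs P i)) := by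
    intro i
    induction i with
    | zero =>
      intro _
      rw [gs_zero, Subgroup.card_bot]
      exact odd_one
    | succ i ih =>
      intro hi
      have hp : Fact (p i).Prime := ⟨T.prime i (by omega)⟩
      rw [gs_succ, card_gs T (by omega)]
      refine (ih (by omega)).mul ?_
      obtain ⟨k, hk⟩ := IsPGroup.iff_card.1 (T.pgrp i (by omega))
      rw [hk]
      exact ((T.prime i (by omega)).odd_of_ne_two (hodd i (by omega))).pow
  exact (key i hi).of_dvd_nat (Subgroup.card_dvd_of_le hY)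

end Pool.Agent.Work.MP_b44cb1_al.R2
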