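import Pool.Agent.Work.MP_b44cb1_al.Full.R2.ADual

/-!
# R2/BPair (S-M, abstract) : a nondegenerate pair orthogonal to a small subgroup

`L = {w | ∀ x ∈ Q, f x w = 0}`. The map `C → (Q →+ ZMod p)`, `w ↦ (x ↦ f x w)` has kernel `L`, so
`|C| ≤ |L| |Q →+ ZMod p| = |L| |Q|` (`dual_card` for the group `Q`). Suppose that `f e1 e2 = 0` for all
`e1, e2 ∈ L`. The map `C → (L →+ ZMod p)`, `v ↦ (x ↦ f v x)`, is surjective by `dual_fam` (`X = L`, `Ψ` the
inclusion) and its kernel contains `L` (isotropy), so `|C| ≥ |L| |L →+ ZMod p| = |L|^2` (`dual_card`). Hence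
`|C|^2 ≤ |L|^2 |Q|^2 ≤ |C| |Q|^2` and `|C| ≤ |Q|^2`, a contradiction.

`exists_pair_fix` : let `F` be the additive subgroup of the common fixed points of `N`; `D, Q ≤ F`. `f` is
nondegenerate on `F` : if `c ∈ F`, `c ≠ 0`, there is `w` with `f c w ≠ 0`; `w' = sum_g ρ g w ∈ F` and
`f c w' = sum_g f c (ρ g w) = sum_g f (ρ g⁻¹ c) w = |N| f c w ≠ 0` in `ZMod p`. Apply `exists_pair` to the type
`F` with the restricted form and the subgroup `Q` (as a subgroup of `F`, `AddSubgroup.addSubgroupOf`),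
`|Q|^2 < |D| ≤ |F|`.
-/

set_option autoImplicit false

namespace Pool.Agent.Work.MP_b44cb1_al.R2

theorem exists_pair {C : Type} [AddCommGroup C] [Finite C] (p : ℕ) (hp : p.Prime)
    (hC : ∀ x : C, (p : ℤ) • x = 0) (f : C →+ C →+ ZMod p)
    (hnd : ∀ w, (∀ w', f w w' = 0) → w = 0) (Q : AddSubgroup C)
    (h : Nat.card Q ^ 2 < Nat.card C) :
    ∃ e1 e2 : C, (∀ x ∈ Q, f x e1 = 0) ∧ (∀ x ∈ Q, f x e2 = 0) ∧ f e1 e2 ≠ 0 := by
  have : NeZero p := ⟨hp.ne_zero⟩
  let L : AddSubgroup C :=
    { carrier := {w | ∀ x ∈ Q, f x w = 0}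
      add_mem' := fun {a b} ha hb x hx => by rw [map_add, ha x hx, hb x hx, add_zero]
      zero_mem' := fun x _ => map_zero _
      neg_mem' := fun {a} ha x hx => by rw [map_neg, ha x hx, neg_zero] }
  by_contra hcon
  have hiso : ∀ e1 ∈ L, ∀ e2 ∈ L, f e1 e2 = 0 := by
    intro e1 h1 e2 h2
    by_contra h3
    exact hcon ⟨e1, e2, h1, h2, h3⟩
  have hfQ : Finite (Q →+ ZMod p) := DFunLike.finite _
  have hfL : Finite (L →+ ZMod p) := DFunLike.finite _
  let g1 : C →+ (Q →+ ZMod p) :=
    { toFun := fun w =>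
        { toFun := fun x => f x w
          map_zero' := by simp
          map_add' := fun a b => by simp }
      map_zero' := by ext x; simp
      map_add' := fun a b => by ext x; simp }
  have hg1 : g1.ker = L := by
    ext w
    rw [AddMonoidHom.mem_ker]
    constructor
    · intro h x hx
      exact congrArg (fun q : Q →+ ZMod p => q ⟨x, hx⟩) h
    · intro h
      ext x
      exact h x x.2
  let g2 : C →+ (L →+ ZMod p) :=
    { toFun := fun v =>
        { toFun := fun x => f v x
          map_zero' := by simp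
          map_add' := fun a b => by simp }
      map_zero' := by ext x; simp
      map_add' := fun a b => by ext x; simp }
  have hg2 : Function.Surjective g2 := by
    intro m
    obtain ⟨v, hv⟩ := dual_fam p hp hC f hnd L.subtype Subtype.val_injective m
    refine ⟨v, ?_⟩
    ext x
    exact hv x
  have hg2k : L ≤ g2.ker := by
    intro v hv
    rw [AddMonoidHom.mem_ker]
    ext x
    exact hiso v hv x x.2
  have hQd : Nat.card (Q →+ ZMod p) = Nat.card Q :=
    dual_card p hp (fun x => Subtype.ext (hC x))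
  have hLd : Nat.card (L →+ ZMod p) = Nat.card L :=
    dual_card p hp (fun x => Subtype.ext (hC x))
  have c1 : Nat.card L * Nat.card g1.range = Nat.card C := by
    rw [← hg1, ← AddSubgroup.index_ker, AddSubgroup.card_mul_index]
  have c2 : Nat.card g2.ker * Nat.card L = Nat.card C := by
    have h1 : Nat.card g2.range = Nat.card L := by
      rw [← hLd, AddMonoidHom.range_eq_top.2 hg2]
      exact Nat.card_congr AddSubgroup.topEquiv.toEquiv
    rw [← h1, ← AddSubgroup.index_ker, AddSubgroup.card_mul_index]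
  have c3 : Nat.card g1.range ≤ Nat.card Q := by
    rw [← hQd]
    exact Nat.card_le_card_of_injective (Subtype.val : g1.range → _) Subtype.val_injective
  have c4 : Nat.card L ≤ Nat.card g2.ker :=
    Nat.card_le_card_of_injective (AddSubgroup.inclusion hg2k)
      (AddSubgroup.inclusion_injective hg2k)
  have hLpos : 0 < Nat.card L := Nat.card_pos
  have c5 : Nat.card L * Nat.card L ≤ Nat.card L * Nat.card Q := by
    calc Nat.card L * Nat.card L ≤ Nat.card g2.ker * Nat.card L := Nat.mul_le_mul_right _ c4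
      _ = Nat.card L * Nat.card g1.range := by rw [c1, c2]
      _ ≤ Nat.card L * Nat.card Q := Nat.mul_le_mul_left _ c3
  have c6 : Nat.card L ≤ Nat.card Q := Nat.le_of_mul_le_mul_left c5 hLpos
  have c7 : Nat.card C ≤ Nat.card Q ^ 2 := by
    rw [← c1, sq]
    exact Nat.mul_le_mul c6 c3
  omega

/-- The same inside the fixed points of a group of order prime to `p`. -/
theorem exists_pair_fix {C N : Type} [AddCommGroup C] [Finite C] [Group N] [Finite N] (p : ℕ)
    (hp : p.Prime) (hpN : ¬ p ∣ Nat.card N)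
    (hC : ∀ x : C, (p : ℤ) • x = 0) (f : C →+ C →+ ZMod p)
    (hnd : ∀ w, (∀ w', f w w' = 0) → w = 0) (ρ : N →* LAut C)
    (hinv : ∀ g w w', f (ρ g w) (ρ g w') = f w w') (Q D : AddSubgroup C)
    (hQ : ∀ x ∈ Q, ∀ g, ρ g x = x) (hD : ∀ x ∈ D, ∀ g, ρ g x = x)
    (h : Nat.card Q ^ 2 < Nat.card D) :
    ∃ e1 e2 : C, (∀ g, ρ g e1 = e1) ∧ (∀ g, ρ g e2 = e2) ∧ (∀ x ∈ Q, f x e1 = 0) ∧
      (∀ x ∈ Q, f x e2 = 0) ∧ f e1 e2 ≠ 0 := by
  classical
  have := Fact.mk hp
  have : Fintype N := Fintype.ofFinite N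
  let F : AddSubgroup C :=
    { carrier := {w | ∀ g, ρ g w = w}
      add_mem' := fun {a b} ha hb g => by rw [map_add, ha g, hb g]
      zero_mem' := fun g => map_zero _
      neg_mem' := fun {a} ha g => by rw [map_neg, ha g] }
  let fF : F →+ F →+ ZMod p :=
    { toFun := fun a => (f a).comp F.subtype
      map_zero' := by ext x; simp
      map_add' := fun a b => by ext x; simp }
  have hfF : ∀ a b : F, fF a b = f a b := fun a b => rfl
  have hndF : ∀ w, (∀ w', fF w w' = 0) → w = 0 := by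
    rintro ⟨c, hc⟩ h
    apply Subtype.ext
    apply hnd
    intro w
    have hsum : ∀ g, ρ g (∑ k : N, ρ k w) = ∑ k : N, ρ k w := by
      intro g
      rw [map_sum]
      refine Fintype.sum_equiv (Equiv.mulLeft g) _ _ fun k => ?_
      change ρ g (ρ k w) = ρ (g * k) w
      rw [map_mul]
      rfl
    have h1 := h ⟨∑ k : N, ρ k w, hsum⟩
    rw [hfF] at h1
    change f c (∑ k : N, ρ k w) = 0 at h1
    have h2 : ∀ k ∈ (Finset.univ : Finset N), f c (ρ k w) = f c w := by
      intro k _
      have := hinv k c w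
      rwa [hc k] at this
    rw [map_sum, Finset.sum_congr rfl h2, Finset.sum_const, Finset.card_univ,
      ← Nat.card_eq_fintype_card, nsmul_eq_mul] at h1
    rcases mul_eq_zero.1 h1 with h3 | h3
    · rw [ZMod.natCast_eq_zero_iff] at h3
      exact absurd h3 hpN
    · exact h3
  have hQF : Q ≤ F := fun x hx => hQ x hx
  have hDF : D ≤ F := fun x hx => hD x hx
  have hcQ : Nat.card (Q.addSubgroupOf F) = Nat.card Q :=
    Nat.card_congr (AddSubgroup.addSubgroupOfEquivOfLe hQF).toEquiv
  have hcD : Nat.card D ≤ Nat.card F :=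
    Nat.card_le_card_of_injective (AddSubgroup.inclusion hDF)
      (AddSubgroup.inclusion_injective hDF)
  obtain ⟨e1, e2, h1, h2, h3⟩ := exists_pair p hp (fun x : F => Subtype.ext (hC x)) fF hndF
    (Q.addSubgroupOf F) (by rw [hcQ]; omega)
  refine ⟨e1, e2, e1.2, e2.2, fun x hx => ?_, fun x hx => ?_, h3⟩
  · exact h1 ⟨x, hQF hx⟩ hx
  · exact h2 ⟨x, hQF hx⟩ hx

end Pool.Agent.Work.MP_b44cb1_al.R2
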