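import Pool.Agent.Work.MP_b44cb1_al.Full.R2.BMod
import Pool.Agent.Work.MP_b44cb1_al.Full.R2.BForm
import Pool.Agent.Work.MP_b44cb1_al.Full.R2.BPair

/-!
# R2/BStartE (M) : the two elements for the first layer

Models `L`, `F` of layer `c` (`exists_LMod`, `exists_FMod`), `ρ : N →* LAut W` from `L.hom hN`. Let `Q' = π Q`
(`LMod.image`), of size `(Fr (P c)).relIndex Q`. This is at most `(Fr (p c) Q).relIndex Q` because
`Q ⊓ Fr (P c) ≤ Fr (p c) Q` (both indices are indices of subgroups of `Q`; in a finite group a smaller subgroup has a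
larger index: `Subgroup.relIndex` depends only on the intersection with `Q`; in fact they are equal, `fr_mono`).
`D = π (P c ⊓ centralizer N)` (`LMod.image`), of size `(Fr (P c)).relIndex (P c ⊓ centralizer N)`.
Every element of `Q'` and of `D` is fixed by all `ρ g`, `g ∈ N` : `α g (π x) = π (g x g⁻¹) = π x` (`Cz N Q`).
`exists_pair_fix` (`¬ p c ∣ |N|` by `T.cop_le`; `hC` by `LMod.expo`; invariance by `F.inv`) gives `w1, w2 ∈ W`;
`w1 = π e1`, `w2 = π e2`, `e1, e2 ∈ P c`.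
* `⁅e1, e2⁆ ∉ Kr P c` : `F.comm`, `z ^ (f w1 w2).val ∉ Kr P c`, because `f w1 w2 ≠ 0`, `z ∉ Kr`, and `z ^ p c ∈ Kr`
  (`T.expo`; the exponent is prime to `p c`, so `z` would be in `Kr`).
* for `q ∈ Q`, `⁅q, e1⁆ ∈ Kr P c` : `F.comm` with `f (π q) w1 = 0`.
* for `b ∈ N`, `⁅b, e1⁆ ∈ Kr P c` : `d = ⁅b, e1⁆ ∈ Fr (P c)`, because `π (b e1 b⁻¹) = π e1`. `b` commutes with `d`
  modulo `Kr` (`F.cent`), so by induction `⁅b ^ m, e1⁆ d ^ (-m) ∈ Kr` and with `m = Nat.card N` (`b ^ m = 1`)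
  `d ^ m ∈ Kr`; also `d ^ p c ∈ Kr` (`T.expo`), and `m`, `p c` are coprime, so `d ∈ Kr`.
* the set of `y ∈ Gs P (c+1)` with `⁅y, e1⁆ ∈ Kr P c` is a subgroup (`Kr P c` is normalised by `Gs P (c+1)`,
  `T.nz_kr`), so it contains `N ⊔ Q`. (Same for `e2`.)
-/

set_option autoImplicit false

namespace Pool.Agent.Work.MP_b44cb1_al.R2

open Subgroup
open scoped commutatorElement

variable {G : Type} [Group G] [Finite G] {P : ℕ → Subgroup G} {p : ℕ → ℕ} {n : ℕ}

private theorem be_mem_of_pow {H : Type*} [Group H] {K : Subgroup H} {x : H} {a b : ℕ}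
    (h : Nat.Coprime a b) (ha : x ^ a ∈ K) (hb : x ^ b ∈ K) : x ∈ K := by
  have h1 := Nat.gcd_eq_gcd_ab a b
  rw [Nat.Coprime] at h
  rw [h] at h1
  have h2 : x = (x ^ a) ^ (Nat.gcdA a b) * (x ^ b) ^ (Nat.gcdB a b) := by
    rw [← zpow_natCast, ← zpow_natCast, ← zpow_mul, ← zpow_mul, ← zpow_add, ← h1]
    simp
  rw [h2]
  exact mul_mem (zpow_mem ha _) (zpow_mem hb _)

private theorem be_pow_conj {H : Type*} [Group H] {B E D : H} (h : B * E * B⁻¹ = D * E)
    (hc : B * D = D * B) (m : ℕ) : B ^ m * E * (B ^ m)⁻¹ = D ^ m * E := by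
  induction m with
  | zero => simp
  | succ m ih =>
    have hcm : B ^ m * D = D * B ^ m := (Commute.pow_left (show Commute B D from hc) m).eq
    calc B ^ (m + 1) * E * (B ^ (m + 1))⁻¹ = B ^ m * (B * E * B⁻¹) * (B ^ m)⁻¹ := by
          rw [pow_succ]; group
      _ = B ^ m * D * E * (B ^ m)⁻¹ := by rw [h]; group
      _ = D * (B ^ m * E * (B ^ m)⁻¹) := by rw [hcm]; group
      _ = D ^ (m + 1) * E := by rw [ih, pow_succ']; group

private theorem be_comm (T : MTow P p n) {c : ℕ} (h1 : 1 ≤ c) (hc : c + 1 < n)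
    {N Q : Subgroup G} (hN : N ≤ Gs P c) (hQ : Q ≤ P c) {W : Type} [AddCommGroup W]
    {π : G → W} {α : G → LAut W} {z : G} {f : W →+ W →+ ZMod (p c)} (L : LMod P p c π α)
    (F : FMod P p c π α z f) {e : G} (he : e ∈ P c) (hfix : ∀ g ∈ N, α g (π e) = π e)
    (hort : ∀ q ∈ Q, f (π q) (π e) = 0) : ∀ y ∈ N ⊔ Q, ⁅y, e⁆ ∈ Kr P c := by
  have hnz : Nz (Gs P (c + 1)) (Kr P c) := T.nz_kr hc
  have hPc : P c ≤ Gs P (c + 1) := le_gs' P (Nat.lt_succ_self c)
  have hGc : Gs P c ≤ Gs P (c + 1) := gs_mono' P (Nat.le_succ c)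
  let S : Subgroup G :=
    { carrier := {y | y ∈ Gs P (c + 1) ∧ ⁅y, e⁆ ∈ Kr P c}
      mul_mem' := by
        rintro x y ⟨hx, hx'⟩ ⟨hy, hy'⟩
        refine ⟨mul_mem hx hy, ?_⟩
        have h2 : ⁅x * y, e⁆ = (x * ⁅y, e⁆ * x⁻¹) * ⁅x, e⁆ := by
          simp only [commutatorElement_def]; group
        rw [h2]
        exact mul_mem (hnz x hx _ hy') hx'
      one_mem' := by
        refine ⟨one_mem _, ?_⟩
        rw [commutatorElement_one_left]
        exact one_mem _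
      inv_mem' := by
        rintro x ⟨hx, hx'⟩
        refine ⟨inv_mem hx, ?_⟩
        have h2 : ⁅x⁻¹, e⁆ = x⁻¹ * (⁅x, e⁆)⁻¹ * (x⁻¹)⁻¹ := by
          simp only [commutatorElement_def]; group
        rw [h2]
        exact hnz _ (inv_mem hx) _ (inv_mem hx') }
  have hle : N ⊔ Q ≤ S := by
    refine sup_le ?_ ?_
    · intro b hb
      refine ⟨hGc (hN hb), ?_⟩
      have hbG := hN hb
      have hbe : b * e * b⁻¹ ∈ P c := T.norm c (by omega) b hbG e he
      have hd : ⁅b, e⁆ ∈ Fr (p c) (P c) := by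
        rw [commutatorElement_def, ← L.ker _ (mul_mem hbe (inv_mem he)),
          L.add _ hbe _ (inv_mem he), L.act b hbG e he, hfix b hb, L.inv he]
        exact add_neg_cancel _
      have hdp : ⁅b, e⁆ ^ (p c) ∈ Kr P c := T.expo c h1 hc _ (fr_le _ _ hd)
      have hcop : Nat.Coprime (Nat.card N) (p c) := by
        rw [Nat.coprime_comm]
        exact (Nat.Prime.coprime_iff_not_dvd (T.prime c (by omega))).2
          (T.cop_le (by omega) hN)
      refine be_mem_of_pow hcop ?_ hdp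
      -- work modulo `Kr P c`
      have hnorm : ((Kr P c).subgroupOf (Gs P (c + 1))).Normal := by
        constructor
        rintro ⟨d, hd1⟩ hd2 ⟨g, hg⟩
        rw [mem_subgroupOf] at hd2 ⊢
        exact hnz g hg d hd2
      let q := QuotientGroup.mk' ((Kr P c).subgroupOf (Gs P (c + 1)))
      have hq : ∀ x : Gs P (c + 1), q x = 1 ↔ (x : G) ∈ Kr P c := by
        intro x
        rw [QuotientGroup.mk'_apply, QuotientGroup.eq_one_iff, mem_subgroupOf]
      let b' : Gs P (c + 1) := ⟨b, hGc hbG⟩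
      let e' : Gs P (c + 1) := ⟨e, hPc he⟩
      have hdd : ((⁅b', e'⁆ : Gs P (c + 1)) : G) = ⁅b, e⁆ := rfl
      have h2 : q b' * q e' * (q b')⁻¹ = q ⁅b', e'⁆ * q e' := by
        rw [← map_inv, ← map_mul, ← map_mul, ← map_mul]
        congr 1
        simp only [commutatorElement_def]; group
      have h3 : q b' * q ⁅b', e'⁆ = q ⁅b', e'⁆ * q b' := by
        have h4 : q ⁅⁅b', e'⁆, b'⁆ = 1 := (hq _).2 (F.cent _ hd b (hGc hbG))
        rw [commutatorElement_def, map_mul, map_mul, map_mul, map_inv, map_inv,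
          mul_inv_eq_one, mul_inv_eq_iff_eq_mul] at h4
        exact h4.symm
      have h5 := be_pow_conj h2 h3 (Nat.card N)
      have h6 : b' ^ Nat.card N = 1 := by
        apply Subtype.ext
        have h7 : (⟨b, hb⟩ : N) ^ Nat.card N = 1 := pow_card_eq_one'
        have h9 : b ^ Nat.card N = 1 := congrArg Subtype.val h7
        exact h9
      rw [← map_pow, h6, map_one, one_mul, inv_one, mul_one] at h5
      have h8 : q (⁅b', e'⁆ ^ Nat.card N) = 1 := by
        rw [map_pow]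
        exact mul_eq_right.1 h5.symm
      exact (hq _).1 h8
    · intro x hx
      refine ⟨hPc (hQ hx), ?_⟩
      have h2 := F.comm x (hQ hx) e he
      rw [hort x hx, ZMod.val_zero, pow_zero, inv_one, mul_one] at h2
      exact h2
  exact fun y hy => (hle hy).2

theorem r2_pair (T : MTow P p n) {c : ℕ} (h1 : 1 ≤ c) (hc : c + 1 < n) (hX : XLay P p c)
    {N Q : Subgroup G} (hN : N ≤ Gs P c) (hQ : Q ≤ P c) (hNQ : Cz N Q)
    (hQf : Q ⊓ Fr (p c) (P c) ≤ Fr (p c) Q)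
    (hbig : ((Fr (p c) Q).relIndex Q) ^ 2 <
      (Fr (p c) (P c)).relIndex (P c ⊓ centralizer (N : Set G))) :
    ∃ e1 ∈ P c, ∃ e2 ∈ P c, (∀ y ∈ N ⊔ Q, ⁅y, e1⁆ ∈ Kr P c) ∧ (∀ y ∈ N ⊔ Q, ⁅y, e2⁆ ∈ Kr P c) ∧
      ⁅e1, e2⁆ ∉ Kr P c := by
  have hcn : c < n := by omega
  have hprime := T.prime c hcn
  obtain ⟨W, i1, i2, π, α, L⟩ := exists_LMod T.toWTow hcn
  obtain ⟨z, f, F⟩ := exists_FMod T h1 hc hX L
  obtain ⟨ρ, hρ⟩ := L.hom hN
  obtain ⟨HQ, hHQ, cQ⟩ := L.image hQ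
  obtain ⟨HD, hHD, cD⟩ := L.image (R := P c ⊓ centralizer (N : Set G)) inf_le_left
  have hfixc : ∀ x ∈ P c, (∀ g ∈ N, g * x = x * g) → ∀ g : N, ρ g (π x) = π x := by
    intro x hx hcx g
    rw [hρ, ← L.act g (hN g.2) x hx, hcx g g.2, mul_inv_cancel_right]
  have hle : (Fr (p c) (P c)).relIndex Q ≤ (Fr (p c) Q).relIndex Q := by
    apply Nat.le_of_dvd
    · rw [relIndex]
      exact Nat.pos_of_ne_zero index_ne_zero_of_finite
    · exact relIndex_dvd_of_le_left Q (fr_mono (p c) hQ)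
  obtain ⟨w1, w2, hw1, hw2, ho1, ho2, hne⟩ := exists_pair_fix (p c) hprime (T.cop_le hcn hN)
    L.expo f F.nondeg ρ (fun g w w' => by
      rw [hρ]
      exact F.inv g (hN g.2) w w') HQ HD
    (by
      intro x hx
      obtain ⟨y, hy, rfl⟩ := (hHQ x).1 hx
      exact hfixc y (hQ hy) fun g hg => hNQ g hg y hy)
    (by
      intro x hx
      obtain ⟨y, hy, rfl⟩ := (hHD x).1 hx
      exact hfixc y hy.1 fun g hg => mem_centralizer_iff.1 hy.2 g hg)
    (by
      rw [cQ, cD]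
      exact lt_of_le_of_lt (Nat.pow_le_pow_left hle 2) hbig)
  obtain ⟨e1, he1, rfl⟩ := L.surj w1
  obtain ⟨e2, he2, rfl⟩ := L.surj w2
  refine ⟨e1, he1, e2, he2, ?_, ?_, ?_⟩
  · refine be_comm T h1 hc hN hQ L F he1 (fun g hg => ?_) fun q hq => ho1 _ ((hHQ _).2 ⟨q, hq, rfl⟩)
    have h2 := hw1 ⟨g, hg⟩
    rwa [hρ] at h2
  · refine be_comm T h1 hc hN hQ L F he2 (fun g hg => ?_) fun q hq => ho2 _ ((hHQ _).2 ⟨q, hq, rfl⟩)
    have h2 := hw2 ⟨g, hg⟩
    rwa [hρ] at h2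
  · intro hcon
    have : NeZero (p c) := ⟨hprime.ne_zero⟩
    have h2 := F.comm e1 he1 e2 he2
    have h3 : z ^ (f (π e1) (π e2)).val ∈ Kr P c := by
      have h4 := inv_mem ((mul_mem_cancel_left hcon).1 h2)
      rwa [inv_inv] at h4
    have h5 : z ^ (p c) ∈ Kr P c := T.expo c h1 hc _ (fr_le _ _ F.zmem)
    have hk : (f (π e1) (π e2)).val ≠ 0 := by
      rw [Ne, ZMod.val_eq_zero]
      exact hne
    have hk' : (f (π e1) (π e2)).val < p c := ZMod.val_lt _
    have hcop : Nat.Coprime (f (π e1) (π e2)).val (p c) := by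
      rw [Nat.coprime_comm, Nat.Prime.coprime_iff_not_dvd hprime]
      intro hdvd
      exact absurd (Nat.le_of_dvd (Nat.pos_of_ne_zero hk) hdvd) (by omega)
    exact F.znk (be_mem_of_pow hcop h3 h5)

end Pool.Agent.Work.MP_b44cb1_al.R2
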