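import Pool.Agent.Work.MP_b44cb1_al.Full.R2.BLink
import Pool.Agent.Work.MP_b44cb1_al.Full.Kit.KProps
import Pool.Agent.Work.MP_b44cb1_al.Full.Assembly

/-!
# R2/R2Final : block R2 in the form of the assembly
-/

set_option autoImplicit false

namespace Pool.Agent.Work.MP_b44cb1_al.R2

open Subgroup
open scoped commutatorElement

theorem k3p (G : Type) [Group G] [Finite G] : K3p G :=
  fun _ P F B hp hP hF hPF hBP hBF _ hc x hx h => liftC hp P F B hP hF hPF hBP hBF hc x hx
    fun b hb => by
      rw [commutatorElement_def]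
      exact h b hb

theorem r2m (G : Type) [Group G] [Finite G] : R2m (fun t => t + 4) G := by
  intro P p n T hp t c h1 hn hX
  exact ⟨r2_link T (k3p G) k5p k6p hp h1 t hn hX, r2_dim T k5p k6p hp h1 t hn hX⟩

end Pool.Agent.Work.MP_b44cb1_al.R2
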